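import Pool.Agent.Helper59.CL.LocMax

/-!
# Project CL: the gradient estimate for functions with bounded Laplacian in the plane (maximum principle)

`grad_est`: if `w` is of class `C^2` in `ball z r`, `|w| ≤ M`, `|lap w| ≤ N` there, then
`‖fderiv ℝ w z‖ ≤ 8 / r * M + r / 2 * N`.
-/

namespace Pool.Agent.Helper59.CL.Grad

open MeasureTheory Filter Topology Metric
open Pool.Agent.Helper53.CL Pool.Agent.Helper59.CL
open scoped ContDiff Real ComplexConjugate

theorem eventually_diff {f : ℂ → ℝ} {z : ℂ} (hf : ContDiffAt ℝ 2 f z) : ∀ᶠ y in 𝓝 z, DifferentiableAt ℝ f y := by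
  filter_upwards [hf.eventually (by simp)] with y hy using hy.differentiableAt (by simp)

theorem diff_dir {f : ℂ → ℝ} {z : ℂ} (hf : ContDiffAt ℝ 2 f z) (v : ℂ) :
    DifferentiableAt ℝ (fun y => fderiv ℝ f y v) z :=
  ((hf.fderiv_right (m := 1) (by norm_num)).differentiableAt (by simp)).clm_apply (differentiableAt_const v)

theorem dir_add {f g : ℂ → ℝ} {z : ℂ} (hf : ContDiffAt ℝ 2 f z) (hg : ContDiffAt ℝ 2 g z) (v : ℂ) :
    fderiv ℝ (fun y => fderiv ℝ (fun x => f x + g x) y v) z v =
      fderiv ℝ (fun y => fderiv ℝ f y v) z v + fderiv ℝ (fun y => fderiv ℝ g y v) z v := by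
  have h1 : (fun y => fderiv ℝ (fun x => f x + g x) y v) =ᶠ[𝓝 z] fun y => fderiv ℝ f y v + fderiv ℝ g y v := by
    filter_upwards [eventually_diff hf, eventually_diff hg] with y h1 h2
    rw [fderiv_fun_add h1 h2]
    rfl
  rw [h1.fderiv_eq, fderiv_fun_add (diff_dir hf v) (diff_dir hg v)]
  rfl

theorem dir_const_mul {f : ℂ → ℝ} {z : ℂ} (hf : ContDiffAt ℝ 2 f z) (c : ℝ) (v : ℂ) :
    fderiv ℝ (fun y => fderiv ℝ (fun x => c * f x) y v) z v = c * fderiv ℝ (fun y => fderiv ℝ f y v) z v := by
  have h1 : (fun y => fderiv ℝ (fun x => c * f x) y v) =ᶠ[𝓝 z] fun y => c * fderiv ℝ f y v := by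
    filter_upwards [eventually_diff hf] with y h1
    rw [fderiv_const_mul h1]
    rfl
  rw [h1.fderiv_eq, fderiv_const_mul (diff_dir hf v)]
  rfl

theorem lap_add {f g : ℂ → ℝ} {z : ℂ} (hf : ContDiffAt ℝ 2 f z) (hg : ContDiffAt ℝ 2 g z) :
    lap (fun x => f x + g x) z = lap f z + lap g z := by
  have h1 := dir_add hf hg 1
  have h2 := dir_add hf hg Complex.I
  unfold lap
  have e1 : dx (dx fun x => f x + g x) z = fderiv ℝ (fun y => fderiv ℝ (fun x => f x + g x) y 1) z 1 := rfl
  have e2 : dy (dy fun x => f x + g x) z = fderiv ℝ (fun y => fderiv ℝ (fun x => f x + g x) y Complex.I) z Complex.I := rfl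
  rw [e1, e2, h1, h2]
  have e3 : dx (dx f) z = fderiv ℝ (fun y => fderiv ℝ f y 1) z 1 := rfl
  have e4 : dy (dy f) z = fderiv ℝ (fun y => fderiv ℝ f y Complex.I) z Complex.I := rfl
  have e5 : dx (dx g) z = fderiv ℝ (fun y => fderiv ℝ g y 1) z 1 := rfl
  have e6 : dy (dy g) z = fderiv ℝ (fun y => fderiv ℝ g y Complex.I) z Complex.I := rfl
  rw [e3, e4, e5, e6]
  ring

theorem lap_const_mul {f : ℂ → ℝ} {z : ℂ} (hf : ContDiffAt ℝ 2 f z) (c : ℝ) :
    lap (fun x => c * f x) z = c * lap f z := by
  have h1 := dir_const_mul hf c 1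
  have h2 := dir_const_mul hf c Complex.I
  unfold lap
  have e1 : dx (dx fun x => c * f x) z = fderiv ℝ (fun y => fderiv ℝ (fun x => c * f x) y 1) z 1 := rfl
  have e2 : dy (dy fun x => c * f x) z = fderiv ℝ (fun y => fderiv ℝ (fun x => c * f x) y Complex.I) z Complex.I := rfl
  rw [e1, e2, h1, h2]
  have e3 : dx (dx f) z = fderiv ℝ (fun y => fderiv ℝ f y 1) z 1 := rfl
  have e4 : dy (dy f) z = fderiv ℝ (fun y => fderiv ℝ f y Complex.I) z Complex.I := rfl
  rw [e3, e4]
  ring

theorem dir_conj (f : ℂ → ℝ) (z v : ℂ) :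
    fderiv ℝ (fun x => f (conj x)) z v = fderiv ℝ f (conj z) (conj v) := by
  have h := Complex.conjCLE.comp_right_fderiv (f := f) (x := z)
  have h2 : (fun x => f (conj x)) = f ∘ Complex.conjCLE := rfl
  rw [h2, h]
  rfl

theorem lap_conj (f : ℂ → ℝ) (z : ℂ) : lap (fun x => f (conj x)) z = lap f (conj z) := by
  have h1 : dx (fun x => f (conj x)) = fun x => dx f (conj x) := by
    funext x
    have := dir_conj f x 1
    simpa [dx] using this
  have h2 : dy (fun x => f (conj x)) = fun x => -dy f (conj x) := by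
    funext x
    have := dir_conj f x Complex.I
    simpa [dy] using this
  have h3 : dx (fun x => dx f (conj x)) z = dx (dx f) (conj z) := by
    have := dir_conj (dx f) z 1
    simpa [dx] using this
  have h4 : dy (fun x => -dy f (conj x)) z = dy (dy f) (conj z) := by
    have h5 : dy (fun x => dy f (conj x)) z = - dy (dy f) (conj z) := by
      have := dir_conj (dy f) z Complex.I
      simpa [dy] using this
    have h6 : dy (fun x => -dy f (conj x)) z = - dy (fun x => dy f (conj x)) z := by
      unfold dy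
      rw [fderiv_fun_neg]
      rfl
    rw [h6, h5, neg_neg]
  rw [lap, lap, h1, h2, h3, h4]

/-- The barrier. -/
noncomputable def bar (A B d : ℝ) (z : ℂ) : ℝ := A * (z.re * z.re + z.im * (2 * d - z.im)) + B * (z.im * (d - z.im))

theorem contDiff_bar (A B d : ℝ) : ContDiff ℝ 2 (bar A B d) := by
  have h1 : ContDiff ℝ 2 (fun z : ℂ => z.re) := Complex.reCLM.contDiff
  have h2 : ContDiff ℝ 2 (fun z : ℂ => z.im) := Complex.imCLM.contDiff
  unfold bar
  exact (contDiff_const.mul ((h1.mul h1).add (h2.mul (contDiff_const.sub h2)))).add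
    (contDiff_const.mul (h2.mul (contDiff_const.sub h2)))

theorem hasFDerivAt_bar (A B d : ℝ) (z : ℂ) : HasFDerivAt (bar A B d)
    (A • ((z.re • Complex.reCLM + z.re • Complex.reCLM) +
      (z.im • -Complex.imCLM + (2 * d - z.im) • Complex.imCLM)) +
      B • (z.im • -Complex.imCLM + (d - z.im) • Complex.imCLM)) z := by
  have h1 : HasFDerivAt (fun z : ℂ => z.re) Complex.reCLM z := Complex.reCLM.hasFDerivAt
  have h2 : HasFDerivAt (fun z : ℂ => z.im) Complex.imCLM z := Complex.imCLM.hasFDerivAt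
  exact (((h1.mul h1).add (h2.mul (h2.const_sub (2 * d)))).const_mul A).add
    ((h2.mul (h2.const_sub d)).const_mul B)

theorem dx_bar (A B d : ℝ) : dx (bar A B d) = fun z => 2 * A * z.re := by
  funext z
  rw [dx, (hasFDerivAt_bar A B d z).fderiv]
  simp
  ring

theorem dy_bar (A B d : ℝ) : dy (bar A B d) = fun z => 2 * A * (d - z.im) + B * (d - 2 * z.im) := by
  funext z
  rw [dy, (hasFDerivAt_bar A B d z).fderiv]
  simp
  ring

theorem lap_bar (A B d : ℝ) (z : ℂ) : lap (bar A B d) z = -(2 * B) := by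
  rw [lap, dx_bar, dy_bar]
  have h1 : HasFDerivAt (fun z : ℂ => 2 * A * z.re) ((2 * A) • Complex.reCLM) z :=
    Complex.reCLM.hasFDerivAt.const_mul (2 * A)
  have h2 : HasFDerivAt (fun z : ℂ => z.im) Complex.imCLM z := Complex.imCLM.hasFDerivAt
  have h3 : HasFDerivAt (fun z : ℂ => 2 * A * (d - z.im) + B * (d - 2 * z.im))
      ((2 * A) • (-Complex.imCLM) + B • (-((2 : ℝ) • Complex.imCLM))) z :=
    ((h2.const_sub d).const_mul (2 * A)).add (((h2.const_mul 2).const_sub d).const_mul B)
  rw [dx, h1.fderiv, dy, h3.fderiv]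
  simp
  ring

/-- The closed half square. -/
def HS (d : ℝ) : Set ℂ := {z | |z.re| ≤ d ∧ 0 ≤ z.im ∧ z.im ≤ d}

theorem isCompact_HS (d : ℝ) : IsCompact (HS d) := by
  have h1 : HS d = Complex.equivRealProdCLM.symm '' (Set.Icc (-d) d ×ˢ Set.Icc 0 d) := by
    ext z
    constructor
    · rintro ⟨h1, h2, h3⟩
      refine ⟨(z.re, z.im), ⟨abs_le.1 h1, h2, h3⟩, ?_⟩
      apply Complex.ext <;> simp
    · rintro ⟨p, ⟨h1, h2, h3⟩, rfl⟩
      refine ⟨?_, ?_, ?_⟩
      · simpa using abs_le.2 h1
      · simpa using h2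
      · simpa using h3
  rw [h1]
  exact (isCompact_Icc.prod isCompact_Icc).image Complex.equivRealProdCLM.symm.continuous

theorem HS_subset {d r : ℝ} (hd : 0 < d) (hr : 2 * d ≤ r) : HS d ⊆ ball 0 r := by
  rintro z ⟨h1, h2, h3⟩
  rw [mem_ball_zero_iff]
  have h4 := Complex.norm_le_abs_re_add_abs_im z
  have h5 : ‖z‖ ^ 2 < r ^ 2 := by
    rw [norm_sq_eq]
    have h6 : z.re ^ 2 ≤ d ^ 2 := sq_le_sq' (abs_le.1 h1).1 (abs_le.1 h1).2
    have h7 : z.im ^ 2 ≤ d ^ 2 := pow_le_pow_left₀ h2 h3 2
    nlinarith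
  exact lt_of_pow_lt_pow_left₀ 2 (by linarith) h5

theorem half {g : ℂ → ℝ} {r d M N N' : ℝ} (hd : 0 < d) (hr : 2 * d ≤ r) (hg : ContDiffOn ℝ 2 g (ball 0 r))
    (hM : ∀ z ∈ ball (0 : ℂ) r, |g z| ≤ M) (hN : ∀ z ∈ ball (0 : ℂ) r, |lap g z| ≤ N) (hN' : N < N') {σ : ℝ}
    (hσ : |σ| ≤ 1 / 2) : ∀ z ∈ HS d, 0 ≤ bar (M / d ^ 2) (N' / 2) d z + σ * (g z - g (conj z)) := by
  have hM0 : 0 ≤ M := (abs_nonneg _).trans (hM 0 (mem_ball_self (by linarith)))
  have hN0 : 0 ≤ N := (abs_nonneg _).trans (hN 0 (mem_ball_self (by linarith)))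
  have hsub := HS_subset hd hr
  have hconj : ∀ z ∈ ball (0 : ℂ) r, conj z ∈ ball (0 : ℂ) r := by
    intro z hz
    rw [mem_ball_zero_iff] at hz ⊢
    rwa [RCLike.norm_conj]
  set h : ℂ → ℝ := fun z => bar (M / d ^ 2) (N' / 2) d z + σ * (g z + (-1) * g (conj z)) with hh
  have hgc : ∀ z ∈ ball (0 : ℂ) r, ContDiffAt ℝ 2 g z := fun z hz => hg.contDiffAt (isOpen_ball.mem_nhds hz)
  have hgcc : ∀ z ∈ ball (0 : ℂ) r, ContDiffAt ℝ 2 (fun z => g (conj z)) z := by
    intro z hz
    exact (hgc (conj z) (hconj z hz)).comp z Complex.conjCLE.contDiff.contDiffAt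
  have hlap : ∀ z ∈ ball (0 : ℂ) r, lap h z = -N' + σ * (lap g z - lap g (conj z)) := by
    intro z hz
    have c1 := hgc z hz
    have c2 := hgcc z hz
    have c3 : ContDiffAt ℝ 2 (fun z => (-1) * g (conj z)) z := contDiffAt_const.mul c2
    rw [hh, lap_add (contDiff_bar _ _ _).contDiffAt (contDiffAt_const.mul (c1.add c3)),
      lap_const_mul (c1.add c3), lap_add c1 c3, lap_const_mul c2, lap_conj, lap_bar]
    ring
  have hcont : ContinuousOn h (HS d) := by
    intro z hz
    have c1 := hgc z (hsub hz)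
    have c2 := hgcc z (hsub hz)
    exact ((contDiff_bar (M / d ^ 2) (N' / 2) d).continuous.continuousAt.add
      (continuousAt_const.mul (c1.continuousAt.add (continuousAt_const.mul c2.continuousAt)))).continuousWithinAt
  have hne : (HS d).Nonempty := ⟨0, by simp [HS, hd.le]⟩
  obtain ⟨z0, hz0, hmin⟩ := (isCompact_HS d).exists_isMinOn hne hcont
  have hbd : ∀ z ∈ ball (0 : ℂ) r, |σ * (g z + (-1) * g (conj z))| ≤ M := by
    intro z hz
    have h1 := hM z hz
    have h2 := hM _ (hconj z hz)
    rw [abs_mul]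
    have h3 : |g z + (-1) * g (conj z)| ≤ 2 * M := by
      rw [abs_le] at h1 h2 ⊢
      constructor <;> linarith [h1.1, h1.2, h2.1, h2.2]
    calc |σ| * |g z + (-1) * g (conj z)| ≤ 1 / 2 * (2 * M) :=
          mul_le_mul hσ h3 (abs_nonneg _) (by norm_num)
      _ = M := by ring
  have key : 0 ≤ h z0 := by
    by_cases hint : |z0.re| < d ∧ 0 < z0.im ∧ z0.im < d
    · exfalso
      have hopen : IsOpen {z : ℂ | |z.re| < d ∧ 0 < z.im ∧ z.im < d} := by
        have o1 : IsOpen {z : ℂ | |z.re| < d} := isOpen_lt (Complex.continuous_re.abs) continuous_const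
        have o2 : IsOpen {z : ℂ | 0 < z.im} := isOpen_lt continuous_const Complex.continuous_im
        have o3 : IsOpen {z : ℂ | z.im < d} := isOpen_lt Complex.continuous_im continuous_const
        exact o1.inter (o2.inter o3)
      have hloc : IsLocalMin h z0 := by
        filter_upwards [hopen.mem_nhds hint] with z hz
        exact hmin ⟨hz.1.le, hz.2.1.le, hz.2.2.le⟩
      have hz0r := hsub hz0
      have hC : ContDiffAt ℝ 2 h z0 := by
        have c1 := hgc z0 hz0r
        have c2 := hgcc z0 hz0r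
        exact (contDiff_bar _ _ _).contDiffAt.add (contDiffAt_const.mul (c1.add (contDiffAt_const.mul c2)))
      have h1 := (LocMax.lap_nonpos (f := fun z => (-1) * h z) (z := z0) (contDiffAt_const.mul hC)
        (by
          filter_upwards [hloc] with z hz
          linarith)).2.2
      rw [lap_const_mul hC, hlap z0 hz0r] at h1
      have h2 := hN z0 hz0r
      have h3 := hN _ (hconj z0 hz0r)
      have h4 : |σ * (lap g z0 - lap g (conj z0))| ≤ N := by
        rw [abs_mul]
        have h5 : |lap g z0 - lap g (conj z0)| ≤ 2 * N := by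
          rw [abs_le] at h2 h3 ⊢
          constructor <;> linarith [h2.1, h2.2, h3.1, h3.2]
        calc |σ| * |lap g z0 - lap g (conj z0)| ≤ 1 / 2 * (2 * N) :=
              mul_le_mul hσ h5 (abs_nonneg _) (by norm_num)
          _ = N := by ring
      have h6 := (abs_le.1 h4).2
      linarith
    · obtain ⟨hr1, hi1, hi2⟩ := hz0
      have hb := (abs_le.1 (hbd z0 (hsub ⟨hr1, hi1, hi2⟩))).1
      have hN'0 : 0 ≤ N' / 2 := by linarith
      have hB : 0 ≤ N' / 2 * (z0.im * (d - z0.im)) :=
        mul_nonneg hN'0 (mul_nonneg hi1 (by linarith))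
      rcases eq_or_lt_of_le hi1 with h0 | h0
      · -- `im = 0`
        have h1 : conj z0 = z0 := by
          apply Complex.ext
          · simp
          · simp [← h0]
        simp only [hh]
        rw [h1]
        unfold bar
        rw [← h0]
        have : 0 ≤ M / d ^ 2 * (z0.re * z0.re) := mul_nonneg (by positivity) (mul_self_nonneg _)
        nlinarith
      · have h1 : d ^ 2 ≤ z0.re * z0.re + z0.im * (2 * d - z0.im) := by
          by_cases h2 : |z0.re| < d
          · have h3 : z0.im = d := by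
              by_contra hne2
              exact hint ⟨h2, h0, lt_of_le_of_ne hi2 hne2⟩
            rw [h3]
            nlinarith [mul_self_nonneg z0.re]
          · have h3 : |z0.re| = d := le_antisymm hr1 (not_lt.1 h2)
            have h4 : z0.re * z0.re = d ^ 2 := by
              rw [← h3, sq, abs_mul_abs_self]
            have h5 : 0 ≤ z0.im * (2 * d - z0.im) := mul_nonneg hi1 (by linarith)
            linarith
        have h2 : M ≤ M / d ^ 2 * (z0.re * z0.re + z0.im * (2 * d - z0.im)) := by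
          calc M = M / d ^ 2 * d ^ 2 := by field_simp
            _ ≤ _ := mul_le_mul_of_nonneg_left h1 (by positivity)
        simp only [hh]
        unfold bar
        linarith
  intro z hz
  have h1 := hmin hz
  change h z0 ≤ h z at h1
  have h2 : h z = bar (M / d ^ 2) (N' / 2) d z + σ * (g z - g (conj z)) := by
    simp only [hh]
    ring
  rw [← h2]
  linarith

theorem dy_zero_est {g : ℂ → ℝ} {r d M N : ℝ} (hd : 0 < d) (hr : 2 * d ≤ r) (hg : ContDiffOn ℝ 2 g (ball 0 r))
    (hM : ∀ z ∈ ball (0 : ℂ) r, |g z| ≤ M) (hN : ∀ z ∈ ball (0 : ℂ) r, |lap g z| ≤ N) :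
    |dy g 0| ≤ 2 / d * M + d / 2 * N := by
  have hstep : ∀ N', N < N' → |dy g 0| ≤ 2 / d * M + d / 2 * N' := by
    intro N' hN'
    have hM0 : 0 ≤ M := (abs_nonneg _).trans (hM 0 (mem_ball_self (by linarith)))
    have hN0 : 0 ≤ N := (abs_nonneg _).trans (hN 0 (mem_ball_self (by linarith)))
    have hgd : DifferentiableAt ℝ g 0 :=
      (hg.contDiffAt (isOpen_ball.mem_nhds (mem_ball_self (by linarith)))).differentiableAt (by simp)
    have hline : ∀ s : ℝ, HasDerivAt (fun t : ℝ => g (t • (s • Complex.I))) (s * dy g 0) 0 := by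
      intro s
      have hl : HasDerivAt (fun t : ℝ => t • (s • Complex.I)) (s • Complex.I) 0 := by
        have := (hasDerivAt_id (0 : ℝ)).smul_const (s • Complex.I)
        simpa using this
      have hg0 : HasFDerivAt g (fderiv ℝ g 0) ((0 : ℝ) • (s • Complex.I)) := by
        rw [zero_smul]
        exact hgd.hasFDerivAt
      have := hg0.comp_hasDerivAt (0 : ℝ) hl
      have h2 : fderiv ℝ g 0 (s • Complex.I) = s * dy g 0 := by
        rw [map_smul]
        rfl
      rw [h2] at this
      exact this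
    have hF : HasDerivAt (fun t : ℝ => 1 / 2 * (g (t • ((1 : ℝ) • Complex.I)) - g (t • ((-1 : ℝ) • Complex.I))))
        (dy g 0) 0 := by
      have := ((hline 1).sub (hline (-1))).const_mul (1 / 2)
      refine this.congr_deriv ?_
      ring
    have hT := hF.tendsto_slope_zero_right
    have hbound : ∀ᶠ t in 𝓝[>] (0 : ℝ), |t⁻¹ • ((1 / 2 * (g ((0 + t) • ((1 : ℝ) • Complex.I)) -
        g ((0 + t) • ((-1 : ℝ) • Complex.I)))) - (1 / 2 * (g ((0 : ℝ) • ((1 : ℝ) • Complex.I)) -
        g ((0 : ℝ) • ((-1 : ℝ) • Complex.I)))))| ≤ 2 / d * M + d / 2 * N' := by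
      have hlt : ∀ᶠ t in 𝓝[>] (0 : ℝ), t < d := eventually_nhdsWithin_of_eventually_nhds (gt_mem_nhds hd)
      filter_upwards [self_mem_nhdsWithin, hlt] with t ht htd
      have ht0 : 0 < t := ht
      have hmem : (t • Complex.I : ℂ) ∈ HS d := by
        refine ⟨?_, ?_, ?_⟩
        · simp [hd.le]
        · simpa using ht0.le
        · simpa using htd.le
      have h1 := half hd hr hg hM hN hN' (σ := 1 / 2) (by rw [abs_of_pos] <;> norm_num) _ hmem
      have h2 := half hd hr hg hM hN hN' (σ := -(1 / 2)) (by rw [abs_neg, abs_of_pos] <;> norm_num) _ hmem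
      have e1 : conj (t • Complex.I : ℂ) = t • ((-1 : ℝ) • Complex.I) := by
        apply Complex.ext <;> simp
      have e2 : (t • ((1 : ℝ) • Complex.I) : ℂ) = t • Complex.I := by rw [one_smul]
      rw [e1] at h1 h2
      have e3 : bar (M / d ^ 2) (N' / 2) d (t • Complex.I) = M / d ^ 2 * (t * (2 * d - t)) + N' / 2 * (t * (d - t)) := by
        unfold bar
        simp
      rw [e3] at h1 h2
      simp only [zero_add, zero_smul, sub_self, mul_zero, sub_zero, e2, smul_eq_mul]
      set D := g (t • Complex.I) - g (t • ((-1 : ℝ) • Complex.I)) with hD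
      rw [abs_mul, abs_of_pos (inv_pos.2 ht0), inv_mul_le_iff₀ ht0]
      have h3 : |1 / 2 * D| ≤ M / d ^ 2 * (t * (2 * d - t)) + N' / 2 * (t * (d - t)) := by
        rw [abs_le]
        constructor <;> linarith
      refine h3.trans ?_
      have h4 : M / d ^ 2 * (t * (2 * d - t)) ≤ M / d ^ 2 * (t * (2 * d)) := by
        apply mul_le_mul_of_nonneg_left _ (by positivity)
        nlinarith
      have h5 : N' / 2 * (t * (d - t)) ≤ N' / 2 * (t * d) := by
        apply mul_le_mul_of_nonneg_left _ (by linarith)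
        nlinarith
      have h6 : M / d ^ 2 * (t * (2 * d)) + N' / 2 * (t * d) = t * (2 / d * M + d / 2 * N') := by
        field_simp
      linarith
    exact le_of_tendsto hT.abs hbound
  by_contra hcon
  push Not at hcon
  have hd2 : 0 < d / 2 := by positivity
  have h1 := hstep (N + (|dy g 0| - (2 / d * M + d / 2 * N)) / d) (by
    have : 0 < (|dy g 0| - (2 / d * M + d / 2 * N)) / d := div_pos (by linarith) hd
    linarith)
  have h2 : d / 2 * (N + (|dy g 0| - (2 / d * M + d / 2 * N)) / d) =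
      d / 2 * N + (|dy g 0| - (2 / d * M + d / 2 * N)) / 2 := by
    field_simp
  rw [h2] at h1
  linarith

/-- Translation and rotation. -/
theorem dir_affine (f : ℂ → ℝ) (z c x v : ℂ) (hc : c ≠ 0) :
    fderiv ℝ (fun y => f (z + c * y)) x v = fderiv ℝ f (z + c * x) (c * v) := by
  let e : ℂ ≃L[ℝ] ℂ := ((ContinuousLinearEquiv.unitsEquivAut ℂ) (Units.mk0 c hc)).restrictScalars ℝ
  have he : ∀ y, e y = c * y := by
    intro y
    simp [e, mul_comm]
  have h1 : (fun y => f (z + c * y)) = (fun y => f (z + y)) ∘ e := by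
    funext y
    simp [he]
  rw [h1, e.comp_right_fderiv]
  have h2 : fderiv ℝ (fun y => f (z + y)) (e x) = fderiv ℝ f (z + e x) := fderiv_comp_add_left _
  rw [h2, ContinuousLinearMap.comp_apply, he]
  simp [he]

theorem grad_est {w : ℂ → ℝ} {z : ℂ} {r M N : ℝ} (hr : 0 < r) (hw : ContDiffOn ℝ 2 w (ball z r))
    (hM : ∀ y ∈ ball z r, |w y| ≤ M) (hN : ∀ y ∈ ball z r, |lap w y| ≤ N) :
    |dx w z| ≤ 4 / r * M + r / 4 * N ∧ |dy w z| ≤ 4 / r * M + r / 4 * N ∧
      ‖fderiv ℝ w z‖ ≤ 8 / r * M + r / 2 * N := by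
  have hmap : ∀ c : ℂ, ‖c‖ = 1 → ∀ y ∈ ball (0 : ℂ) r, z + c * y ∈ ball z r := by
    intro c hc y hy
    rw [mem_ball_zero_iff] at hy
    rw [mem_ball, dist_eq_norm, add_sub_cancel_left, norm_mul, hc, one_mul]
    exact hy
  have hsm : ∀ c : ℂ, ‖c‖ = 1 → ContDiffOn ℝ 2 (fun y => w (z + c * y)) (ball 0 r) := by
    intro c hc
    have h1 : ContDiff ℝ 2 (fun y : ℂ => z + c * y) := by fun_prop
    exact hw.comp h1.contDiffOn (hmap c hc)
  have h1 : |dy w z| ≤ 4 / r * M + r / 4 * N := by
    have h2 : dy (fun y => w (z + 1 * y)) 0 = dy w z := by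
      have := dir_affine w z 1 0 Complex.I one_ne_zero
      simpa [dy] using this
    have h3 : ∀ y, lap (fun y => w (z + 1 * y)) y = lap w (z + 1 * y) := by
      intro y
      have e1 : dx (fun y => w (z + 1 * y)) = fun y => dx w (z + 1 * y) := by
        funext x
        have := dir_affine w z 1 x 1 one_ne_zero
        rw [mul_one] at this
        exact this
      have e2 : dy (fun y => w (z + 1 * y)) = fun y => dy w (z + 1 * y) := by
        funext x
        have := dir_affine w z 1 x Complex.I one_ne_zero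
        rw [one_mul Complex.I] at this
        exact this
      have e3 := dir_affine (dx w) z 1 y 1 one_ne_zero
      have e4 := dir_affine (dy w) z 1 y Complex.I one_ne_zero
      rw [mul_one] at e3
      rw [one_mul Complex.I] at e4
      rw [lap, lap, e1, e2]
      exact congrArg₂ (· + ·) e3 e4
    have h4 := dy_zero_est (g := fun y => w (z + 1 * y)) (r := r) (d := r / 2) (M := M) (N := N) (by positivity)
      (by linarith) (hsm 1 (by simp)) (fun y hy => hM _ (hmap 1 (by simp) y hy))
      (fun y hy => by rw [h3]; exact hN _ (hmap 1 (by simp) y hy))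
    rw [h2] at h4
    refine h4.trans (le_of_eq ?_)
    field_simp
    ring
  have h5 : |dx w z| ≤ 4 / r * M + r / 4 * N := by
    -- rotate: `g y = w (z - I y)`, `dy g 0 = dx w z`
    have hI : (-Complex.I) ≠ 0 := neg_ne_zero.2 Complex.I_ne_zero
    have hI1 : ‖(-Complex.I)‖ = 1 := by simp
    have e0 : (-Complex.I) * Complex.I = 1 := by simp
    have e0' : (-Complex.I) * 1 = -Complex.I := by simp
    have h2 : dy (fun y => w (z + (-Complex.I) * y)) 0 = dx w z := by
      have := dir_affine w z (-Complex.I) 0 Complex.I hI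
      rw [e0] at this
      simpa [dy, dx] using this
    have h3 : ∀ y, lap (fun y => w (z + (-Complex.I) * y)) y = lap w (z + (-Complex.I) * y) := by
      intro y
      have e1 : dx (fun y => w (z + (-Complex.I) * y)) = fun y => -dy w (z + (-Complex.I) * y) := by
        funext x
        have := dir_affine w z (-Complex.I) x 1 hI
        rw [e0', map_neg] at this
        exact this
      have e2 : dy (fun y => w (z + (-Complex.I) * y)) = fun y => dx w (z + (-Complex.I) * y) := by
        funext x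
        have := dir_affine w z (-Complex.I) x Complex.I hI
        rw [e0] at this
        exact this
      have e3 := dir_affine (dy w) z (-Complex.I) y 1 hI
      rw [e0', map_neg] at e3
      have e4 := dir_affine (dx w) z (-Complex.I) y Complex.I hI
      rw [e0] at e4
      have e5 : dx (fun y => -dy w (z + (-Complex.I) * y)) y = dy (dy w) (z + (-Complex.I) * y) := by
        have : dx (fun y => -dy w (z + (-Complex.I) * y)) y = - fderiv ℝ (fun y => dy w (z + (-Complex.I) * y)) y 1 := by
          unfold dx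
          rw [fderiv_fun_neg]
          rfl
        rw [this, e3, neg_neg]
        rfl
      have e6 : dy (fun y => dx w (z + (-Complex.I) * y)) y = dx (dx w) (z + (-Complex.I) * y) := e4
      rw [lap, lap, e1, e2, e5, e6, add_comm]
    have h4 := dy_zero_est (g := fun y => w (z + (-Complex.I) * y)) (r := r) (d := r / 2) (M := M) (N := N)
      (by positivity) (by linarith) (hsm _ hI1) (fun y hy => hM _ (hmap _ hI1 y hy))
      (fun y hy => by rw [h3]; exact hN _ (hmap _ hI1 y hy))
    rw [h2] at h4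
    refine h4.trans (le_of_eq ?_)
    field_simp
    ring
  refine ⟨h5, h1, ?_⟩
  have hM0 : 0 ≤ 4 / r * M + r / 4 * N := (abs_nonneg _).trans h1
  apply ContinuousLinearMap.opNorm_le_bound
  · have : 8 / r * M + r / 2 * N = 2 * (4 / r * M + r / 4 * N) := by ring
    rw [this]
    positivity
  · intro v
    have h6 : fderiv ℝ w z v = v.re * dx w z + v.im * dy w z := by
      have h7 : v = v.re • (1 : ℂ) + v.im • Complex.I := by
        apply Complex.ext <;> simp
      conv_lhs => rw [h7]
      rw [map_add, map_smul, map_smul]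
      rfl
    rw [h6, Real.norm_eq_abs]
    calc |v.re * dx w z + v.im * dy w z| ≤ |v.re * dx w z| + |v.im * dy w z| := abs_add_le _ _
      _ = |v.re| * |dx w z| + |v.im| * |dy w z| := by rw [abs_mul, abs_mul]
      _ ≤ ‖v‖ * (4 / r * M + r / 4 * N) + ‖v‖ * (4 / r * M + r / 4 * N) := by
          apply add_le_add
          · exact mul_le_mul (Complex.abs_re_le_norm v) h5 (abs_nonneg _) (norm_nonneg _)
          · exact mul_le_mul (Complex.abs_im_le_norm v) h1 (abs_nonneg _) (norm_nonneg _)
      _ = (8 / r * M + r / 2 * N) * ‖v‖ := by ring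

end Pool.Agent.Helper59.CL.Grad
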