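import Pool.Agent.Helper59.CL.Div

/-!
# Project CL, block D3: lower bound of the energy at a point of the transition region

Proof.  Put `η = π/(4 K1)`, `s = ε η`.  For `z ∈ ball y (s/2)` (a convex set in `ball 0 2`), the mean value inequality
(`|fderiv u z| ≤ 2 ‖gr u z‖`, or better `‖fderiv ℝ u z v‖ ≤ ‖gr u z‖ ‖v‖` by Cauchy-Schwarz) gives
`|u z - u y| ≤ (K1/ε) (s/2) = π/8`.  `cos` is 1-Lipschitz: `cos (u z) ≤ cos (u y) + π/8 ≤ π/8 ≤ 3/4`.  So
`ed ≥ (1/ε) a (1 - cos u) ≥ α/(4 ε)` on `ball y (s/2)`, `cut y s ≥ 9/16` there (`le_cut`), and `cut * ed ≥ 0` everywhere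
(outside `ball y s` it is zero, inside `a ≥ α > 0`).  Hence `J ≥ (9/16) (α/(4ε)) π (s/2)^2 = (9 π/256) α η s`.
(volume of a ball of radius `s/2` in `ℂ`: `Complex.volume_ball`.)
-/

namespace Pool.Agent.Helper59.CL.Low

open MeasureTheory Filter Topology Metric
open Pool.Agent.Helper53.CL Pool.Agent.Helper59.CL
open scoped ContDiff Real

private theorem norm_fderiv_le_gr (u : ℂ → ℝ) (z : ℂ) : ‖fderiv ℝ u z‖ ≤ ‖gr u z‖ := by
  refine ContinuousLinearMap.opNorm_le_bound _ (norm_nonneg _) fun v => ?_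
  have h1 : fderiv ℝ u z v = v.re * dx u z + v.im * dy u z := by
    have h2 : v = v.re • (1 : ℂ) + v.im • Complex.I := by
      apply Complex.ext <;> simp
    have h3 : fderiv ℝ u z v = fderiv ℝ u z (v.re • (1 : ℂ) + v.im • Complex.I) := by rw [← h2]
    rw [h3, map_add, map_smul, map_smul]
    rfl
  have h4 : (fderiv ℝ u z v) ^ 2 ≤ (‖gr u z‖ * ‖v‖) ^ 2 := by
    rw [mul_pow, norm_gr_sq, norm_sq_eq v, h1]
    nlinarith [sq_nonneg (v.re * dy u z - v.im * dx u z)]
  rw [Real.norm_eq_abs]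
  exact abs_le_of_sq_le_sq h4 (by positivity)

theorem low {ε α K1 : ℝ} {a u : ℂ → ℝ} {y : ℂ} (hε : 0 < ε) (hα : 0 < α) (hK : 0 < K1)
    (ha : ContDiffOn ℝ ∞ a (ball 0 3)) (hu : LSol (ball 0 3) ε a u) (h1 : ∀ z ∈ ball (0 : ℂ) 2, α ≤ a z)
    (h2 : ∀ z ∈ ball (0 : ℂ) 2, ε * ‖gr u z‖ ≤ K1) (hy : ‖y‖ + ε * (π / (4 * K1)) < 2)
    (hc : Real.cos (u y) ≤ 0) :
    9 * π / 256 * α * (π / (4 * K1)) * (ε * (π / (4 * K1))) ≤ J ε a u y (ε * (π / (4 * K1))) := by
  obtain ⟨s, hs⟩ : ∃ s, s = ε * (π / (4 * K1)) := ⟨_, rfl⟩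
  rw [← hs] at hy ⊢
  have hπ := Real.pi_pos
  have hs0 : 0 < s := by rw [hs]; positivity
  have hKs : K1 / ε * (s / 2) = π / 8 := by
    rw [hs]
    field_simp
    ring
  have hin : ∀ z, ‖z - y‖ < s → z ∈ ball (0 : ℂ) 2 := by
    intro z hz
    rw [mem_ball_zero_iff]
    have := norm_le_norm_add_norm_sub' z y
    linarith
  have hsub : ball (0 : ℂ) 2 ⊆ ball 0 3 := ball_subset_ball (by norm_num)
  -- continuity of the energy density
  have hcf : ContinuousOn (fderiv ℝ u) (ball 0 3) :=
    hu.smooth.continuousOn_fderiv_of_isOpen isOpen_ball (by simp)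
  have hcx : ContinuousOn (dx u) (ball 0 3) := hcf.clm_apply continuousOn_const
  have hcy : ContinuousOn (dy u) (ball 0 3) := hcf.clm_apply continuousOn_const
  have hed : ContinuousOn (ed ε a u) (ball 0 3) := by
    have e1 : ed ε a u = fun z => ε / 2 * (dx u z ^ 2 + dy u z ^ 2) +
        1 / ε * (a z * (1 - Real.cos (u z))) := by
      funext z
      rw [ed, norm_gr_sq]
    rw [e1]
    have c1 := hu.smooth.continuousOn
    have c2 := ha.continuousOn
    have c3 : ContinuousOn (fun z => Real.cos (u z)) (ball 0 3) := Real.continuous_cos.comp_continuousOn c1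
    exact (continuousOn_const.mul ((hcx.pow 2).add (hcy.pow 2))).add
      (continuousOn_const.mul (c2.mul (continuousOn_const.sub c3)))
  have hint : Integrable (fun z => cut y s z * ed ε a u z) :=
    Div.integrable_cut_mul hed hs0 (by linarith)
  -- pointwise bounds
  have hdist : ∀ z ∈ ball y (s / 2), |u z - u y| ≤ π / 8 := by
    intro z hz
    have hb : ∀ x ∈ ball y (s / 2), ‖fderiv ℝ u x‖ ≤ K1 / ε := by
      intro x hx
      rw [mem_ball, dist_eq_norm] at hx
      have hx2 := hin x (by linarith)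
      refine (norm_fderiv_le_gr u x).trans ?_
      rw [le_div_iff₀ hε, mul_comm]
      exact h2 x hx2
    have hd : ∀ x ∈ ball y (s / 2), DifferentiableAt ℝ u x := by
      intro x hx
      rw [mem_ball, dist_eq_norm] at hx
      have hx2 := hsub (hin x (by linarith))
      exact (hu.smooth.contDiffAt (isOpen_ball.mem_nhds hx2)).differentiableAt (by simp)
    have h3 := (convex_ball y (s / 2)).norm_image_sub_le_of_norm_fderiv_le hd hb
      (mem_ball_self (by positivity)) hz
    rw [mem_ball, dist_eq_norm] at hz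
    rw [Real.norm_eq_abs] at h3
    refine h3.trans ?_
    rw [← hKs]
    exact mul_le_mul_of_nonneg_left hz.le (by positivity)
  have hlow : ∀ z ∈ ball y (s / 2), 9 / 16 * (α / (4 * ε)) ≤ cut y s z * ed ε a u z := by
    intro z hz
    have h3 := hdist z hz
    rw [mem_ball, dist_eq_norm] at hz
    have hz2 := hin z (by linarith)
    have h4 : Real.cos (u z) ≤ 3 / 4 := by
      have h5 := Real.lipschitzWith_cos.dist_le_mul (u z) (u y)
      rw [Real.dist_eq, Real.dist_eq, NNReal.coe_one, one_mul] at h5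
      have h6 := le_abs_self (Real.cos (u z) - Real.cos (u y))
      have h7 := Real.pi_lt_d2
      linarith
    have h5 := h1 z hz2
    have h6 : α / (4 * ε) ≤ ed ε a u z := by
      unfold ed
      have h7 : 0 ≤ ε / 2 * ‖gr u z‖ ^ 2 := by positivity
      have h8 : α * (1 / 4) ≤ a z * (1 - Real.cos (u z)) :=
        mul_le_mul h5 (by linarith) (by norm_num) (by linarith)
      have h9 : 1 / ε * (α * (1 / 4)) ≤ 1 / ε * (a z * (1 - Real.cos (u z))) :=
        mul_le_mul_of_nonneg_left h8 (by positivity)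
      have h10 : α / (4 * ε) = 1 / ε * (α * (1 / 4)) := by
        field_simp
      rw [h10]
      linarith
    exact mul_le_mul (le_cut hs0 hz.le) h6 (by positivity) (cut_nonneg _ _ _)
  have hpos : ∀ z, 0 ≤ cut y s z * ed ε a u z := by
    intro z
    by_cases hz : ‖z - y‖ < s
    · have h5 := h1 z (hin z hz)
      exact mul_nonneg (cut_nonneg _ _ _) (ed_nonneg hε (by linarith))
    · rw [cut_eq_zero hs0 (not_lt.1 hz), zero_mul]
  have hvol : (volume (ball y (s / 2))).toReal = π * (s / 2) ^ 2 := by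
    rw [Complex.volume_ball, ENNReal.toReal_mul, ENNReal.toReal_pow, ENNReal.toReal_ofReal (by positivity)]
    simp [mul_comm]
  have hI : ∫ z in ball y (s / 2), (9 / 16 * (α / (4 * ε)) : ℝ) ≤
      ∫ z in ball y (s / 2), cut y s z * ed ε a u z := by
    refine setIntegral_mono_on (integrableOn_const (by
      rw [Complex.volume_ball]
      finiteness)) hint.integrableOn measurableSet_ball hlow
  have hI2 : ∫ z in ball y (s / 2), cut y s z * ed ε a u z ≤ J ε a u y s := by
    unfold J
    exact setIntegral_le_integral hint (Eventually.of_forall hpos)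
  refine le_trans (le_of_eq ?_) (hI.trans hI2)
  rw [setIntegral_const, Measure.real, hvol, smul_eq_mul]
  rw [hs]
  field_simp
  ring

end Pool.Agent.Helper59.CL.Low
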