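import Pool.Agent.Helper59.CL.Div

/-!
# Project CL, block D3: the energy in a disc where the solution stays near one well

Proof.  `ball x ρ` is connected and `cos (u z) > 0`, `0 ≤ u ≤ 2π` on it, so either `u < π/2` on the whole ball or `u > 3π/2` on
the whole ball (`u` is continuous; the two sets are open and cover).
Case 1, `u < π/2`.  Let `g = cut x ρ * u` (zero outside the ball), `C^1` with compact support in `ball 0 2`.  Integrate
`dx (g * dx u) + dy (g * dy u)` (also `C^1` with compact support; `Div.integral_dx`, `integral_dy`):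
`∫ cut * (ε |Du|^2 + (1/ε) a u sin u) = - ε ∫ u * (dx cut * dx u + dy cut * dy u)`  (multiplied by `ε`, `ε lap u = a sin u/ε`).
By `dx_cut, dy_cut` and `dps^2 = 4 ps = 4 cut`: `|D cut| = 2 |dps| ‖z-x‖/ρ^2 ≤ 4 √cut / ρ` on `ball x ρ`, so
`|ε u D cut . Du| ≤ ε (π/2) (4/ρ) √cut |Du| ≤ (ε/2) cut |Du|^2 + (ε/2) (2π/ρ)^2` on `ball x ρ` and zero outside.
So `∫ cut ((ε/2)|Du|^2 + (1/ε) a u sin u) ≤ (ε/2) (2π/ρ)^2 π ρ^2 = 2 π^3 ε`.  Finally `1 - cos v ≤ v sin v` for `0 ≤ v ≤ π/2`
(derivative of `v sin v + cos v` is `v cos v ≥ 0`), so `cut * ed` is at most the integrand.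
Case 2: replace `u` by `2π - u`, again a solution (`sin (2π - u) = - sin u`, `lap` changes sign), with the same `ed`.
-/

namespace Pool.Agent.Helper59.CL.Well

open MeasureTheory Filter Topology Metric
open Pool.Agent.Helper53.CL Pool.Agent.Helper59.CL
open scoped ContDiff Real

theorem one_sub_cos_le {v : ℝ} (h0 : 0 ≤ v) (h1 : v ≤ π / 2) : 1 - Real.cos v ≤ v * Real.sin v := by
  have hd : ∀ t : ℝ, HasDerivAt (fun s => s * Real.sin s + Real.cos s) (t * Real.cos t) t := by
    intro t
    have h := ((hasDerivAt_id t).mul (Real.hasDerivAt_sin t)).add (Real.hasDerivAt_cos t)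
    have h2 : t * Real.cos t = 1 * Real.sin t + id t * Real.cos t + -Real.sin t := by
      simp only [id]
      ring
    rw [h2]
    exact h
  have hm : MonotoneOn (fun s => s * Real.sin s + Real.cos s) (Set.Icc 0 (π / 2)) := by
    apply monotoneOn_of_deriv_nonneg (convex_Icc _ _)
    · exact fun t _ => (hd t).continuousAt.continuousWithinAt
    · exact fun t _ => (hd t).differentiableAt.differentiableWithinAt
    · intro t ht
      rw [interior_Icc] at ht
      rw [(hd t).deriv]
      exact mul_nonneg ht.1.le (Real.cos_nonneg_of_mem_Icc ⟨by linarith [ht.1, Real.pi_pos], ht.2.le⟩)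
  have := hm ⟨le_refl _, by positivity⟩ ⟨h0, h1⟩ h0
  simp at this
  linarith

theorem contDiff_cut_mul {h : ℂ → ℝ} (hh : ContDiffOn ℝ 1 h (ball 0 3)) {x : ℂ} {r : ℝ} (hr : 0 < r)
    (hx : ‖x‖ + r < 3) : ContDiff ℝ 1 (fun z => cut x r z * h z) := by
  rw [contDiff_iff_contDiffAt]
  intro z
  by_cases hz : z ∈ ball (0 : ℂ) 3
  · exact (contDiff_cut x r).contDiffAt.mul (hh.contDiffAt (isOpen_ball.mem_nhds hz))
  · have h1 : z ∉ closedBall x r := by
      intro h2
      apply hz
      rw [mem_closedBall, dist_eq_norm] at h2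
      rw [mem_ball, dist_zero_right]
      calc ‖z‖ = ‖(z - x) + x‖ := by ring_nf
        _ ≤ ‖z - x‖ + ‖x‖ := norm_add_le _ _
        _ < 3 := by linarith
    have h2 : (fun z => cut x r z * h z) =ᶠ[𝓝 z] fun _ => 0 := by
      filter_upwards [isClosed_closedBall.isOpen_compl.mem_nhds h1] with y hy
      rw [Set.mem_compl_iff, mem_closedBall, dist_eq_norm, not_le] at hy
      rw [cut_eq_zero hr hy.le, zero_mul]
    exact contDiffAt_const.congr_of_eventuallyEq h2

theorem hasCompactSupport_cut_mul (h : ℂ → ℝ) {x : ℂ} {r : ℝ} (hr : 0 < r) :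
    HasCompactSupport (fun z => cut x r z * h z) :=
  (hasCompactSupport_cut hr).mul_right

theorem fderiv_cut_mul {h : ℂ → ℝ} (hh : ContDiffOn ℝ 1 h (ball 0 3)) {x : ℂ} {r : ℝ} (hr : 0 < r)
    (hx : ‖x‖ + r < 3) (z v : ℂ) : fderiv ℝ (fun z => cut x r z * h z) z v =
      fderiv ℝ (cut x r) z v * h z + cut x r z * fderiv ℝ h z v := by
  by_cases hz : z ∈ ball (0 : ℂ) 3
  · have h1 : DifferentiableAt ℝ (cut x r) z := (contDiff_cut x r).differentiable one_ne_zero z
    have h2 : DifferentiableAt ℝ h z :=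
      (hh.contDiffAt (isOpen_ball.mem_nhds hz)).differentiableAt one_ne_zero
    rw [fderiv_fun_mul h1 h2]
    simp only [add_apply, smul_apply, smul_eq_mul]
    ring
  · have h1 : z ∉ closedBall x r := by
      intro h2
      apply hz
      rw [mem_closedBall, dist_eq_norm] at h2
      rw [mem_ball, dist_zero_right]
      calc ‖z‖ = ‖(z - x) + x‖ := by ring_nf
        _ ≤ ‖z - x‖ + ‖x‖ := norm_add_le _ _
        _ < 3 := by linarith
    have h2 : (fun z => cut x r z * h z) =ᶠ[𝓝 z] fun _ => 0 := by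
      filter_upwards [isClosed_closedBall.isOpen_compl.mem_nhds h1] with y hy
      rw [Set.mem_compl_iff, mem_closedBall, dist_eq_norm, not_le] at hy
      rw [cut_eq_zero hr hy.le, zero_mul]
    rw [mem_closedBall, dist_eq_norm, not_le] at h1
    rw [h2.fderiv_eq, cut_eq_zero hr h1.le, fderiv_cut, dps_eq_zero' hr h1.le]
    simp

theorem smooth_dx {f : ℂ → ℝ} {D : Set ℂ} (hD : IsOpen D) (hf : ContDiffOn ℝ ∞ f D) : ContDiffOn ℝ ∞ (dx f) D := by
  have := hf.fderiv_of_isOpen hD (m := ∞) (by simp)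
  exact this.clm_apply contDiffOn_const

theorem smooth_dy {f : ℂ → ℝ} {D : Set ℂ} (hD : IsOpen D) (hf : ContDiffOn ℝ ∞ f D) : ContDiffOn ℝ ∞ (dy f) D := by
  have := hf.fderiv_of_isOpen hD (m := ∞) (by simp)
  exact this.clm_apply contDiffOn_const

/-- The integrated identity. -/
theorem identity {ε : ℝ} {a u : ℂ → ℝ} {x : ℂ} {ρ : ℝ} (hu : LSol (ball 0 3) ε a u) (hρ : 0 < ρ)
    (hx : ‖x‖ + ρ < 2) :
    Integrable (fun z => (dx (cut x ρ) z * dx u z + dy (cut x ρ) z * dy u z) * u z +
      cut x ρ z * (dx u z ^ 2 + dy u z ^ 2 + u z * lap u z)) ∧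
    ∫ z, ((dx (cut x ρ) z * dx u z + dy (cut x ρ) z * dy u z) * u z +
      cut x ρ z * (dx u z ^ 2 + dy u z ^ 2 + u z * lap u z)) = 0 := by
  have hx3 : ‖x‖ + ρ < 3 := by linarith
  have hs := hu.smooth
  have hX : ContDiffOn ℝ 1 (fun z => u z * dx u z) (ball 0 3) :=
    (hs.mul (smooth_dx isOpen_ball hs)).of_le (by simp)
  have hY : ContDiffOn ℝ 1 (fun z => u z * dy u z) (ball 0 3) :=
    (hs.mul (smooth_dy isOpen_ball hs)).of_le (by simp)
  have cX := contDiff_cut_mul hX hρ hx3
  have cY := contDiff_cut_mul hY hρ hx3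
  have iX := Div.integral_dx cX (hasCompactSupport_cut_mul _ hρ)
  have iY := Div.integral_dy cY (hasCompactSupport_cut_mul _ hρ)
  have jX : Integrable (fun z => dx (fun z => cut x ρ z * (u z * dx u z)) z) := by
    apply Continuous.integrable_of_hasCompactSupport
    · exact (cX.continuous_fderiv one_ne_zero).clm_apply continuous_const
    · exact (hasCompactSupport_cut_mul _ hρ).fderiv_apply (𝕜 := ℝ) _
  have jY : Integrable (fun z => dy (fun z => cut x ρ z * (u z * dy u z)) z) := by
    apply Continuous.integrable_of_hasCompactSupport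
    · exact (cY.continuous_fderiv one_ne_zero).clm_apply continuous_const
    · exact (hasCompactSupport_cut_mul _ hρ).fderiv_apply (𝕜 := ℝ) _
  have key : ∀ z, dx (fun z => cut x ρ z * (u z * dx u z)) z + dy (fun z => cut x ρ z * (u z * dy u z)) z =
      (dx (cut x ρ) z * dx u z + dy (cut x ρ) z * dy u z) * u z +
      cut x ρ z * (dx u z ^ 2 + dy u z ^ 2 + u z * lap u z) := by
    intro z
    have e1 : dx (fun z => cut x ρ z * (u z * dx u z)) z = fderiv ℝ (cut x ρ) z 1 * (u z * dx u z) +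
        cut x ρ z * fderiv ℝ (fun z => u z * dx u z) z 1 := fderiv_cut_mul hX hρ hx3 z 1
    have e2 : dy (fun z => cut x ρ z * (u z * dy u z)) z = fderiv ℝ (cut x ρ) z Complex.I * (u z * dy u z) +
        cut x ρ z * fderiv ℝ (fun z => u z * dy u z) z Complex.I := fderiv_cut_mul hY hρ hx3 z Complex.I
    rw [e1, e2]
    by_cases hz : z ∈ ball (0 : ℂ) 3
    · have d0 : DifferentiableAt ℝ u z :=
        (hs.contDiffAt (isOpen_ball.mem_nhds hz)).differentiableAt (by simp)
      have d1 : DifferentiableAt ℝ (dx u) z :=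
        ((smooth_dx isOpen_ball hs).contDiffAt (isOpen_ball.mem_nhds hz)).differentiableAt (by simp)
      have d2 : DifferentiableAt ℝ (dy u) z :=
        ((smooth_dy isOpen_ball hs).contDiffAt (isOpen_ball.mem_nhds hz)).differentiableAt (by simp)
      rw [fderiv_fun_mul d0 d1, fderiv_fun_mul d0 d2]
      simp only [add_apply, smul_apply, smul_eq_mul]
      simp only [lap]
      have a1 : fderiv ℝ (dx u) z 1 = dx (dx u) z := rfl
      have a2 : fderiv ℝ (dy u) z Complex.I = dy (dy u) z := rfl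
      have a3 : fderiv ℝ u z 1 = dx u z := rfl
      have a4 : fderiv ℝ u z Complex.I = dy u z := rfl
      have a5 : fderiv ℝ (cut x ρ) z 1 = dx (cut x ρ) z := rfl
      have a6 : fderiv ℝ (cut x ρ) z Complex.I = dy (cut x ρ) z := rfl
      rw [a1, a2, a3, a4, a5, a6]
      ring
    · have h1 : ρ ≤ ‖z - x‖ := by
        by_contra h2
        apply hz
        rw [not_le] at h2
        rw [mem_ball, dist_zero_right]
        calc ‖z‖ = ‖(z - x) + x‖ := by ring_nf
          _ ≤ ‖z - x‖ + ‖x‖ := norm_add_le _ _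
          _ < 3 := by linarith
      have a5 : fderiv ℝ (cut x ρ) z 1 = dx (cut x ρ) z := rfl
      have a6 : fderiv ℝ (cut x ρ) z Complex.I = dy (cut x ρ) z := rfl
      rw [a5, a6, cut_eq_zero hρ h1]
      ring
  constructor
  · exact (jX.add jY).congr (Eventually.of_forall key)
  · calc _ = ∫ z, (dx (fun z => cut x ρ z * (u z * dx u z)) z + dy (fun z => cut x ρ z * (u z * dy u z)) z) :=
          (integral_congr_ae (Eventually.of_forall key)).symm
      _ = 0 := by rw [integral_add jX jY, iX, iY, add_zero]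

theorem continuousOn_ed {ε : ℝ} {a u : ℂ → ℝ} (ha : ContDiffOn ℝ ∞ a (ball 0 3))
    (hu : ContDiffOn ℝ ∞ u (ball 0 3)) : ContinuousOn (ed ε a u) (ball 0 3) := by
  have h1 := (smooth_dx isOpen_ball hu).continuousOn
  have h2 := (smooth_dy isOpen_ball hu).continuousOn
  have h3 : ed ε a u = fun z => ε / 2 * (dx u z ^ 2 + dy u z ^ 2) + 1 / ε * (a z * (1 - Real.cos (u z))) := by
    funext z
    rw [ed, norm_gr_sq]
  rw [h3]
  have h4 := ha.continuousOn
  have h5 := hu.continuousOn
  fun_prop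

theorem case1 {ε : ℝ} {a u : ℂ → ℝ} {x : ℂ} {ρ : ℝ} (hε : 0 < ε) (ha : ContDiffOn ℝ ∞ a (ball 0 3))
    (hpos : ∀ z ∈ ball (0 : ℂ) 3, 0 < a z) (hu : LSol (ball 0 3) ε a u) (hρ : 0 < ρ) (hx : ‖x‖ + ρ < 2)
    (hc : ∀ z ∈ ball x ρ, u z < π / 2) : J ε a u x ρ ≤ 2 * π ^ 3 * ε := by
  obtain ⟨hI, hI0⟩ := identity hu hρ hx
  have hbd : Integrable ((ball x ρ).indicator (fun _ : ℂ => ε / 2 * (2 * π / ρ) ^ 2)) := by
    rw [integrable_indicator_iff measurableSet_ball]
    exact integrableOn_const measure_ball_lt_top.ne enorm_ne_top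
  have hJ : Integrable (fun z => cut x ρ z * ed ε a u z) :=
    Div.integrable_cut_mul (continuousOn_ed ha hu.smooth) hρ (by linarith)
  have hpt : ∀ z, cut x ρ z * ed ε a u z ≤
      ε * ((dx (cut x ρ) z * dx u z + dy (cut x ρ) z * dy u z) * u z +
      cut x ρ z * (dx u z ^ 2 + dy u z ^ 2 + u z * lap u z)) +
      (ball x ρ).indicator (fun _ : ℂ => ε / 2 * (2 * π / ρ) ^ 2) z := by
    intro z
    by_cases hz : z ∈ ball x ρ
    · rw [Set.indicator_of_mem hz]
      have hz3 : z ∈ ball (0 : ℂ) 3 := by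
        rw [mem_ball, dist_eq_norm] at hz
        rw [mem_ball, dist_zero_right]
        calc ‖z‖ = ‖(z - x) + x‖ := by ring_nf
          _ ≤ ‖z - x‖ + ‖x‖ := norm_add_le _ _
          _ < 3 := by linarith
      have hz' : ‖z - x‖ < ρ := by rwa [mem_ball, dist_eq_norm] at hz
      have heq := hu.eq z hz3
      have h0 := hu.nonneg z hz3
      have h1 := (hc z hz).le
      have hcos := one_sub_cos_le h0 h1
      have hap := hpos z hz3
      set c := cut x ρ z with hcdef
      have hcc : 0 ≤ c := cut_nonneg _ _ _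
      set d := dps (‖z - x‖ ^ 2 / ρ ^ 2) with hd
      have hd2 : d ^ 2 = 4 * c := dps_sq _
      rw [dx_cut, dy_cut, ← hd]
      have hn : ‖z - x‖ ^ 2 = (z - x).re ^ 2 + (z - x).im ^ 2 := norm_sq_eq _
      have hn2 : (z - x).re ^ 2 + (z - x).im ^ 2 ≤ ρ ^ 2 := by
        rw [← hn]
        exact pow_le_pow_left₀ (norm_nonneg _) hz'.le 2
      set p := (z - x).re
      set q := (z - x).im
      set s := dx u z
      set t := dy u z
      have hlap : ε * lap u z = 1 / ε * (a z * Real.sin (u z)) := by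
        field_simp
        linarith
      have hed : ed ε a u z = ε / 2 * (s ^ 2 + t ^ 2) + 1 / ε * (a z * (1 - Real.cos (u z))) := by
        rw [ed, norm_gr_sq]
      rw [hed]
      have e1 : 1 / ε * (a z * (1 - Real.cos (u z))) ≤ u z * (ε * lap u z) := by
        rw [hlap]
        have : 1 / ε * (a z * (1 - Real.cos (u z))) ≤ 1 / ε * (a z * (u z * Real.sin (u z))) := by
          gcongr
        linarith
      have e2 : 0 ≤ c * (s ^ 2 + t ^ 2) / 2 + (2 * d / ρ ^ 2 * p * s + 2 * d / ρ ^ 2 * q * t) * u z +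
          1 / 2 * (2 * π / ρ) ^ 2 := by
        -- with `A = d s / 2`, `B = d t / 2` : `c s^2 = A^2`, `c t^2 = B^2`
        have f1 : c * s ^ 2 = (d * s / 2) ^ 2 := by rw [div_pow, mul_pow, hd2]; ring
        have f2 : c * t ^ 2 = (d * t / 2) ^ 2 := by rw [div_pow, mul_pow, hd2]; ring
        have hsum : c * (s ^ 2 + t ^ 2) = (d * s / 2) ^ 2 + (d * t / 2) ^ 2 := by rw [mul_add, f1, f2]
        rw [hsum]
        set A := d * s / 2
        set B := d * t / 2
        have e3 : (2 * d / ρ ^ 2 * p * s + 2 * d / ρ ^ 2 * q * t) * u z = (4 * u z / ρ) * (p / ρ) * A + (4 * u z / ρ) * (q / ρ) * B := by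
          simp only [A, B]
          field_simp
          ring
        rw [e3]
        have hP : (p / ρ) ^ 2 + (q / ρ) ^ 2 ≤ 1 := by
          rw [div_pow, div_pow, ← add_div, div_le_one (by positivity)]
          exact hn2
        set P := p / ρ
        set Q := q / ρ
        have hU0 : 0 ≤ 4 * u z / ρ := by positivity
        have hU : 4 * u z / ρ ≤ 2 * π / ρ := div_le_div_of_nonneg_right (by linarith) hρ.le
        set U := 4 * u z / ρ
        have hUsq : U ^ 2 ≤ (2 * π / ρ) ^ 2 := pow_le_pow_left₀ hU0 hU 2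
        have hUP : U ^ 2 * (P ^ 2 + Q ^ 2) ≤ U ^ 2 := by nlinarith [sq_nonneg U]
        nlinarith [sq_nonneg (A + U * P), sq_nonneg (B + U * Q)]
      have e4 : c * (1 / ε * (a z * (1 - Real.cos (u z)))) ≤ c * (u z * (ε * lap u z)) :=
        mul_le_mul_of_nonneg_left e1 hcc
      nlinarith [mul_le_mul_of_nonneg_left e2 hε.le]
    · rw [Set.indicator_of_notMem hz]
      have h1 : ρ ≤ ‖z - x‖ := by rwa [mem_ball, dist_eq_norm, not_lt] at hz
      rw [dx_cut, dy_cut, dps_eq_zero' hρ h1, cut_eq_zero hρ h1]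
      simp
  calc J ε a u x ρ = ∫ z, cut x ρ z * ed ε a u z := rfl
    _ ≤ ∫ z, (ε * ((dx (cut x ρ) z * dx u z + dy (cut x ρ) z * dy u z) * u z +
      cut x ρ z * (dx u z ^ 2 + dy u z ^ 2 + u z * lap u z)) +
      (ball x ρ).indicator (fun _ : ℂ => ε / 2 * (2 * π / ρ) ^ 2) z) :=
        integral_mono hJ ((hI.const_mul ε).add hbd) hpt
    _ = 0 + (ε / 2 * (2 * π / ρ) ^ 2) * (π * ρ ^ 2) := by
        rw [integral_add (hI.const_mul ε) hbd, integral_const_mul, hI0, mul_zero,
          integral_indicator measurableSet_ball, setIntegral_const, smul_eq_mul]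
        congr 1
        rw [mul_comm]
        congr 1
        rw [measureReal_def, Complex.volume_ball, ENNReal.toReal_mul, ENNReal.toReal_pow,
          ENNReal.toReal_ofReal hρ.le]
        simp [mul_comm]
    _ = 2 * π ^ 3 * ε := by
        field_simp
        ring

theorem well {ε : ℝ} {a u : ℂ → ℝ} {x : ℂ} {ρ : ℝ} (hε : 0 < ε) (ha : ContDiffOn ℝ ∞ a (ball 0 3))
    (hpos : ∀ z ∈ ball (0 : ℂ) 3, 0 < a z) (hu : LSol (ball 0 3) ε a u) (hρ : 0 < ρ) (hx : ‖x‖ + ρ < 2)
    (hc : ∀ z ∈ ball x ρ, 0 < Real.cos (u z)) : J ε a u x ρ ≤ 2 * π ^ 3 * ε := by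
  have hsub : ball x ρ ⊆ ball (0 : ℂ) 3 := by
    intro z hz
    rw [mem_ball, dist_eq_norm] at hz
    rw [mem_ball, dist_zero_right]
    calc ‖z‖ = ‖(z - x) + x‖ := by ring_nf
      _ ≤ ‖z - x‖ + ‖x‖ := norm_add_le _ _
      _ < 3 := by linarith
  have hdich : ∀ z ∈ ball x ρ, u z < π / 2 ∨ 3 * π / 2 < u z := by
    intro z hz
    by_contra hcon
    push Not at hcon
    have := Real.cos_nonpos_of_pi_div_two_le_of_le hcon.1 (by linarith [hcon.2])
    linarith [hc z hz]
  by_cases h1 : ∀ z ∈ ball x ρ, u z < π / 2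
  · exact case1 hε ha hpos hu hρ hx h1
  · push Not at h1
    obtain ⟨z0, hz0, hz0'⟩ := h1
    have h2 : ∀ z ∈ ball x ρ, 3 * π / 2 < u z := by
      intro z hz
      rcases hdich z hz with h | h
      · exfalso
        have hoc : (u '' ball x ρ).OrdConnected := by
          apply IsPreconnected.ordConnected
          exact (convex_ball x ρ).isPreconnected.image u (hu.smooth.continuousOn.mono hsub)
        have hz0'' : 3 * π / 2 < u z0 := (hdich z0 hz0).resolve_left (not_lt.2 hz0')
        have hpi : π ∈ u '' ball x ρ := by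
          apply hoc.out (Set.mem_image_of_mem u hz) (Set.mem_image_of_mem u hz0)
          constructor <;> linarith [Real.pi_pos]
        obtain ⟨w, hw, hwpi⟩ := hpi
        have := hc w hw
        rw [hwpi, Real.cos_pi] at this
        linarith
      · exact h
    -- the reflected solution
    have hdx : ∀ z, dx (fun y => 2 * π - u y) z = - dx u z := by
      intro z
      simp only [dx]
      rw [fderiv_const_sub]
      rfl
    have hdy : ∀ z, dy (fun y => 2 * π - u y) z = - dy u z := by
      intro z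
      simp only [dy]
      rw [fderiv_const_sub]
      rfl
    have hlap : ∀ z, lap (fun y => 2 * π - u y) z = - lap u z := by
      intro z
      have e1 : dx (fun y => 2 * π - u y) = fun y => - dx u y := funext hdx
      have e2 : dy (fun y => 2 * π - u y) = fun y => - dy u y := funext hdy
      have e3 : dx (fun y => - dx u y) z = - dx (dx u) z := by
        unfold dx
        rw [fderiv_fun_neg]
        rfl
      have e4 : dy (fun y => - dy u y) z = - dy (dy u) z := by
        unfold dy
        rw [fderiv_fun_neg]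
        rfl
      simp only [lap, e1, e2, e3, e4]
      ring
    have hv : LSol (ball 0 3) ε a (fun y => 2 * π - u y) := by
      refine ⟨contDiffOn_const.sub hu.smooth, fun z hz => ?_, fun z hz => ?_, fun z hz => ?_⟩
      · rw [hlap, Real.sin_two_pi_sub]
        have := hu.eq z hz
        linarith
      · linarith [hu.le z hz]
      · linarith [hu.nonneg z hz]
    have h3 := case1 hε ha hpos hv hρ hx (fun z hz => by linarith [h2 z hz])
    have h4 : J ε a (fun y => 2 * π - u y) x ρ = J ε a u x ρ := by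
      unfold J
      congr 1
      funext z
      congr 1
      simp only [ed, norm_gr_sq, hdx, hdy, Real.cos_two_pi_sub]
      ring
    rwa [h4] at h3

end Pool.Agent.Helper59.CL.Well
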