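import Pool.Agent.Helper59.CL.DensUp
import Pool.Agent.Helper59.CL.Low
import Pool.Agent.Helper59.CL.Well

/-!
# Project CL, block D3: lower density bound of the limit measure (all `R < 2`)

Proof of `step`.  Let `Consts α Λ`, `η = π/(4Λ)`, `c1 = (9π/256) α η > 0` (`Low.low` with `K1 = Λ`), `K` the constant of
`Upper.mono_seq`, `r0 ≤ (2 - R)/4`.  Let `‖x‖ ≤ R`, `0 < r < r0`, and suppose `J_j x r ≤ c0 r` for some `j` with
`ε_j η < r/4`, where `c0 > 0` and `r0` are chosen with `K * (64 c0 / 9) + K r0 < c1`.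
Suppose there were `y ∈ ball x (r/4)` with `cos (u_j y) ≤ 0`.  Then `J_j y (r/4) ≤ ∫_{ball y (r/4)} ed ≤ ∫_{ball x (r/2)} ed
≤ (16/9) J_j x r ≤ (16/9) c0 r`, so with `s = ε_j η ≤ r/4`
`c1 ≤ J_j y s / s ≤ K (J_j y (r/4) * 4 / r) + K r/4 ≤ K (64 c0/9) + K r0 < c1`, a contradiction.
So `cos (u_j) > 0` on `ball x (r/4)` and `Well.well` gives `J_j x (r/4) ≤ 2 π^3 ε_j`.

Proof of `dens`.  Upper bound: `DensUp` (`r0 ≤ (2 - R)/4`).  Lower bound: let `‖x‖ ≤ R`, `x` in the support, `0 < r < r0`,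
and suppose `μ (ball x r) < ofReal (c0 r)`.  `cut x r ≤ 1_{ball x r}`, so
`lim J_j x r = ∫ cut x r dμ ≤ μ (ball x r) < c0 r`, hence `J_j x r ≤ c0 r` for large `j`, and `ε_j → 0`.  By `step`
`∫ cut x (r/4) dμ = lim J_j x (r/4) = 0`, so `μ (ball x (r/8)) = 0` (`le_cut`), contradiction.
-/

namespace Pool.Agent.Helper59.CL.DensLow

open MeasureTheory Filter Topology Metric
open Pool.Agent.Helper53.CL Pool.Agent.Helper59.CL
open scoped ContDiff Real

/-- comparison of the weighted energies of two discs -/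
theorem J_le_J {ε : ℝ} {a u : ℂ → ℝ} {x y : ℂ} {r : ℝ} (hε : 0 < ε) (ha : ContDiffOn ℝ ∞ a (ball 0 3))
    (hpos : ∀ z ∈ ball (0 : ℂ) 3, 0 < a z) (hu : LSol (ball 0 3) ε a u) (hr : 0 < r) (hx : ‖x‖ + r < 2)
    (hy : y ∈ ball x (r / 4)) : J ε a u y (r / 4) ≤ 16 / 9 * J ε a u x r := by
  rw [mem_ball, dist_eq_norm] at hy
  have hyn : ‖y‖ ≤ ‖x‖ + r / 4 := by
    have h1 : ‖y‖ ≤ ‖y - x‖ + ‖x‖ := by
      calc ‖y‖ = ‖(y - x) + x‖ := by ring_nf
        _ ≤ ‖y - x‖ + ‖x‖ := norm_add_le _ _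
    linarith
  have hce := Well.continuousOn_ed (ε := ε) ha hu.smooth
  have i1 : Integrable (fun z => cut y (r / 4) z * ed ε a u z) :=
    Div.integrable_cut_mul hce (by positivity) (by linarith)
  have i2 : Integrable (fun z => cut x r z * ed ε a u z) :=
    Div.integrable_cut_mul hce hr (by linarith)
  unfold J
  rw [← integral_const_mul]
  apply integral_mono i1 (i2.const_mul _)
  intro z
  simp only
  by_cases hz : ‖z - x‖ < r
  · have hzn : z ∈ ball (0 : ℂ) 3 := by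
      rw [mem_ball, dist_zero_right]
      calc ‖z‖ = ‖(z - x) + x‖ := by ring_nf
        _ ≤ ‖z - x‖ + ‖x‖ := norm_add_le _ _
        _ < 3 := by linarith
    have he : 0 ≤ ed ε a u z := ed_nonneg hε (hpos z hzn).le
    have hcc : cut y (r / 4) z ≤ 16 / 9 * cut x r z := by
      by_cases hzy : ‖z - y‖ < r / 4
      · have h1 : ‖z - x‖ ≤ r / 2 := by
          calc ‖z - x‖ = ‖(z - y) + (y - x)‖ := by ring_nf
            _ ≤ ‖z - y‖ + ‖y - x‖ := norm_add_le _ _
            _ ≤ r / 2 := by linarith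
        have h2 := le_cut hr h1
        have h3 := cut_le_one y (r / 4) z
        linarith
      · rw [cut_eq_zero (by positivity) (not_lt.1 hzy)]
        have := cut_nonneg x r z
        positivity
    calc cut y (r / 4) z * ed ε a u z ≤ (16 / 9 * cut x r z) * ed ε a u z :=
          mul_le_mul_of_nonneg_right hcc he
      _ = 16 / 9 * (cut x r z * ed ε a u z) := by ring
  · have hzy : r / 4 ≤ ‖z - y‖ := by
      by_contra hcon
      apply hz
      calc ‖z - x‖ = ‖(z - y) + (y - x)‖ := by ring_nf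
        _ ≤ ‖z - y‖ + ‖y - x‖ := norm_add_le _ _
        _ < r := by linarith
    rw [cut_eq_zero (by positivity) hzy, cut_eq_zero hr (not_lt.1 hz)]
    simp

theorem step {a : ℂ → ℝ} {aj : ℕ → ℂ → ℝ} {ε : ℕ → ℝ} {u : ℕ → ℂ → ℝ} (h : LocSeq a aj ε u) {R : ℝ} (hR : R < 2) :
    ∃ c0 r0 : ℝ, 0 < c0 ∧ 0 < r0 ∧ r0 ≤ (2 - R) / 4 ∧ ∀ x : ℂ, ‖x‖ ≤ R → ∀ r ∈ Set.Ioo 0 r0, ∀ᶠ j in atTop,
      J (ε j) (aj j) (u j) x r ≤ c0 * r → J (ε j) (aj j) (u j) x (r / 4) ≤ 2 * π ^ 3 * ε j := by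
  obtain ⟨α, Λ, hC⟩ := SeqB.exists_consts h
  obtain ⟨K, hK, hmono⟩ := Upper.mono_seq h
  have hα := hC.α_pos
  have hΛ : 0 < Λ := lt_of_lt_of_le one_pos hC.Λ_pos
  have hπ := Real.pi_pos
  obtain ⟨η, hη⟩ : ∃ η, η = π / (4 * Λ) := ⟨_, rfl⟩
  have hη0 : 0 < η := by rw [hη]; positivity
  obtain ⟨c1, hc1⟩ : ∃ c1, c1 = 9 * π / 256 * α * η := ⟨_, rfl⟩
  have hc10 : 0 < c1 := by rw [hc1]; positivity
  refine ⟨9 * c1 / (256 * K), min ((2 - R) / 4) (c1 / (4 * K)), by positivity,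
    lt_min (by linarith) (by positivity), min_le_left _ _, ?_⟩
  intro x hx r hr
  have hr0 : 0 < r := hr.1
  have hr1 : r < (2 - R) / 4 := lt_of_lt_of_le hr.2 (min_le_left _ _)
  have hr2 : r < c1 / (4 * K) := lt_of_lt_of_le hr.2 (min_le_right _ _)
  have hlim : Tendsto (fun j => ε j * η) atTop (𝓝 0) := by
    have := h.eps_lim.mul_const η
    rwa [zero_mul] at this
  filter_upwards [hlim.eventually_lt_const (by positivity : (0 : ℝ) < r / 4)] with j hj hJ
  have hε := h.eps_pos j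
  refine Well.well hε (h.aj_smooth j) (h.aj_pos j) (h.sol j) (by positivity) (by linarith) ?_
  intro y hy
  by_contra hcon
  rw [not_lt] at hcon
  have hyn : ‖y‖ ≤ ‖x‖ + r / 4 := by
    rw [mem_ball, dist_eq_norm] at hy
    have h1 : ‖y‖ ≤ ‖y - x‖ + ‖x‖ := by
      calc ‖y‖ = ‖(y - x) + x‖ := by ring_nf
        _ ≤ ‖y - x‖ + ‖x‖ := norm_add_le _ _
    linarith
  have e1 := Low.low (y := y) hε hα hΛ (h.aj_smooth j) (h.sol j) (hC.le_a j) (hC.gr_u j)
    (by rw [← hη]; linarith) hcon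
  rw [← hη, ← hc1] at e1
  have hs0 : 0 < ε j * η := by positivity
  have e2 := hmono j y (ε j * η) (r / 4) hs0 hj.le (by linarith)
  have e3 := J_le_J hε (h.aj_smooth j) (h.aj_pos j) (h.sol j) hr0 (by linarith) hy
  have e4 : c1 ≤ J (ε j) (aj j) (u j) y (ε j * η) / (ε j * η) := by
    rw [le_div_iff₀ hs0]
    exact e1
  have e5 : J (ε j) (aj j) (u j) y (r / 4) / (r / 4) ≤ 64 / 9 * (9 * c1 / (256 * K)) := by
    rw [div_le_iff₀ (by positivity)]
    have : 64 / 9 * (9 * c1 / (256 * K)) * (r / 4) = 16 / 9 * (9 * c1 / (256 * K) * r) := by ring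
    rw [this]
    linarith
  have e6 : K * (J (ε j) (aj j) (u j) y (r / 4) / (r / 4)) ≤ c1 / 4 := by
    have := mul_le_mul_of_nonneg_left e5 hK.le
    have e7 : K * (64 / 9 * (9 * c1 / (256 * K))) = c1 / 4 := by
      field_simp
      ring
    linarith
  have e8 : K * (r / 4) ≤ c1 / 16 := by
    rw [lt_div_iff₀ (by positivity)] at hr2
    linarith
  linarith

theorem dens {a : ℂ → ℝ} {aj : ℕ → ℂ → ℝ} {ε : ℕ → ℝ} {u : ℕ → ℂ → ℝ} {μ : Measure ℂ}
    (h : LocSeq a aj ε u) (hμ : EConv aj ε u μ) (hfin : IsFiniteMeasure μ) {R : ℝ} (hR : R < 2) :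
    ∃ c K r0 : ℝ, 0 < c ∧ 0 < r0 ∧
      (∀ x ∈ closedBall (0 : ℂ) R, ∀ r ∈ Set.Ioo 0 r0, μ (ball x r) ≤ ENNReal.ofReal (K * r)) ∧
      (∀ x ∈ closedBall (0 : ℂ) R, (∀ r > 0, 0 < μ (ball x r)) → ∀ r ∈ Set.Ioo 0 r0,
        ENNReal.ofReal (c * r) ≤ μ (ball x r)) := by
  obtain ⟨c0, r0, hc0, hr0, hrR, hstep⟩ := step h hR
  obtain ⟨K, hK, hup⟩ := DensUp.dens_upper h hμ hfin hR
  refine ⟨c0, K, r0, hc0, hr0, ?_, ?_⟩
  · intro x hx r hr
    rw [mem_closedBall_zero_iff] at hx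
    exact hup x hx r ⟨hr.1, lt_of_lt_of_le hr.2 hrR⟩
  · intro x hx hsupp r hr
    rw [mem_closedBall_zero_iff] at hx
    by_contra hcon
    rw [not_le] at hcon
    have hrp : 0 < r := hr.1
    have hr1 : r < (2 - R) / 4 := lt_of_lt_of_le hr.2 hrR
    have hint : ∀ ρ : ℝ, 0 < ρ → Integrable (cut x ρ) μ := by
      intro ρ hρ
      exact (continuous_cut x ρ).integrable_of_hasCompactSupport (hasCompactSupport_cut hρ)
    have hT : ∀ ρ : ℝ, 0 < ρ → ρ ≤ r → Tendsto (fun j => J (ε j) (aj j) (u j) x ρ) atTop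
        (𝓝 (∫ z, cut x ρ z ∂μ)) := by
      intro ρ hρ hρr
      refine hμ (cut x ρ) (continuous_cut x ρ) (hasCompactSupport_cut hρ) ?_
      refine (tsupport_cut hρ).trans ?_
      intro z hz
      rw [mem_closedBall, dist_eq_norm] at hz
      rw [mem_ball, dist_zero_right]
      calc ‖z‖ = ‖(z - x) + x‖ := by ring_nf
        _ ≤ ‖z - x‖ + ‖x‖ := norm_add_le _ _
        _ < 2 := by linarith
    -- the upper estimate of the limit
    have h1 : ∫ z, cut x r z ∂μ ≤ μ.real (ball x r) := by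
      have e1 : ∫ z, (ball x r).indicator (fun _ => (1 : ℝ)) z ∂μ = μ.real (ball x r) := by
        rw [integral_indicator_const _ measurableSet_ball]
        simp
      rw [← e1]
      apply integral_mono (hint r hrp)
      · exact (integrable_const (1 : ℝ)).indicator measurableSet_ball
      · intro z
        by_cases hz : z ∈ ball x r
        · simp only [Set.indicator_of_mem hz]
          exact cut_le_one x r z
        · simp only [Set.indicator_of_notMem hz]
          rw [mem_ball, dist_eq_norm, not_lt] at hz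
          rw [cut_eq_zero hrp hz]
    have h2 : μ.real (ball x r) < c0 * r := by
      rw [Measure.real]
      have := (ENNReal.toReal_lt_toReal (measure_ne_top μ _) ENNReal.ofReal_ne_top).2 hcon
      rwa [ENNReal.toReal_ofReal (by positivity)] at this
    have h3 := (hT r hrp le_rfl).eventually_lt_const (lt_of_le_of_lt h1 h2)
    have h4 : ∀ᶠ j in atTop, J (ε j) (aj j) (u j) x (r / 4) ≤ 2 * π ^ 3 * ε j := by
      filter_upwards [h3, hstep x hx r hr] with j hj1 hj2
      exact hj2 hj1.le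
    have h5 : ∫ z, cut x (r / 4) z ∂μ ≤ 0 := by
      have e1 := hT (r / 4) (by positivity) (by linarith)
      have e2 : Tendsto (fun j => 2 * π ^ 3 * ε j) atTop (𝓝 0) := by
        have := h.eps_lim.const_mul (2 * π ^ 3)
        rwa [mul_zero] at this
      exact le_of_tendsto_of_tendsto e1 e2 h4
    have h6 : 9 / 16 * μ.real (ball x (r / 8)) ≤ ∫ z, cut x (r / 4) z ∂μ := by
      have e1 : ∫ z, (ball x (r / 8)).indicator (fun _ => (9 / 16 : ℝ)) z ∂μ =
          9 / 16 * μ.real (ball x (r / 8)) := by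
        rw [integral_indicator_const _ measurableSet_ball, smul_eq_mul, mul_comm]
      rw [← e1]
      apply integral_mono
      · exact (integrable_const (9 / 16 : ℝ)).indicator measurableSet_ball
      · exact hint (r / 4) (by positivity)
      · intro z
        by_cases hz : z ∈ ball x (r / 8)
        · simp only [Set.indicator_of_mem hz]
          rw [mem_ball, dist_eq_norm] at hz
          exact le_cut (by positivity) (by linarith)
        · simp only [Set.indicator_of_notMem hz]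
          exact cut_nonneg _ _ _
    have h7 : μ.real (ball x (r / 8)) = 0 := by
      have : 0 ≤ μ.real (ball x (r / 8)) := measureReal_nonneg
      linarith
    have h8 : μ (ball x (r / 8)) = 0 := by
      rwa [measureReal_eq_zero_iff (measure_ne_top μ _)] at h7
    have h9 := hsupp (r / 8) (by positivity)
    rw [h8] at h9
    exact lt_irrefl _ h9

end Pool.Agent.Helper59.CL.DensLow
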