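import Pool.Agent.Helper59.CL.PDef

/-!
# Project CL, block D1: uniform bounds of the weights

Proof of `abound`.  For each `i` put `B = b ∘ (C.φ i).symm`, smooth on `ball 0 3`.  `C.a (exp (t b)) i z = ρ z * exp (t * B z)` and on `ball 0 3`
`lap` of this function is `exp (t B) (lap ρ + 2 t (dx ρ dx B + dy ρ dy B) + t^2 ρ (dx B ^ 2 + dy B ^ 2) + t ρ lap B)`,
a continuous function of `(t, z)` on the compact set `[0,1] × closedBall 0 2`; hence it is bounded.  The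
function `(t, z) ↦ ρ z * exp (t * B z)` is continuous and positive on the same compact set.  (Alternative for the bound
of `lap`: the function `F (t, z) = ρ z * exp (t * B z)` is smooth on `ℝ × ball 0 3`, its second partial derivatives
in `z` are continuous.)  Take the minimum / maximum over `i : Fin C.n` (for `C.n = 0` everything is vacuous).
-/

namespace Pool.Agent.Helper59.CL.ABound

open MeasureTheory Filter Topology Metric
open Pool.Agent.Helper53.CL Pool.Agent.Helper59.CL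
open scoped ContDiff Real

variable {S : Type*} [TopologicalSpace S] [MeasurableSpace S]

/-- The derivative in the direction `(0, v)`. -/
private noncomputable def DD (v : ℂ) (F : ℝ × ℂ → ℝ) (p : ℝ × ℂ) : ℝ := fderiv ℝ F p (0, v)

private theorem isOpenU : IsOpen ((Set.univ : Set ℝ) ×ˢ ball (0 : ℂ) 3) :=
  isOpen_univ.prod isOpen_ball

private theorem DD_smooth {F : ℝ × ℂ → ℝ}
    (hF : ContDiffOn ℝ ∞ F ((Set.univ : Set ℝ) ×ˢ ball (0 : ℂ) 3)) (v : ℂ) :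
    ContDiffOn ℝ ∞ (DD v F) ((Set.univ : Set ℝ) ×ˢ ball (0 : ℂ) 3) :=
  (hF.fderiv_of_isOpen isOpenU (m := ∞) (by simp)).clm_apply contDiffOn_const

private theorem DD_one {F : ℝ × ℂ → ℝ}
    (hF : ContDiffOn ℝ ∞ F ((Set.univ : Set ℝ) ×ˢ ball (0 : ℂ) 3)) (t : ℝ) {z : ℂ}
    (hz : z ∈ ball (0 : ℂ) 3) (v : ℂ) : fderiv ℝ (fun y => F (t, y)) z v = DD v F (t, z) := by
  have hn : ((Set.univ : Set ℝ) ×ˢ ball (0 : ℂ) 3) ∈ 𝓝 ((t, z) : ℝ × ℂ) :=
    isOpenU.mem_nhds ⟨Set.mem_univ _, hz⟩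
  have h1 : HasFDerivAt F (fderiv ℝ F (t, z)) (t, z) :=
    ((hF.contDiffAt hn).differentiableAt (by simp)).hasFDerivAt
  have h2 : HasFDerivAt (fun y : ℂ => F (t, y))
      (fderiv ℝ F (t, z) ∘L ContinuousLinearMap.inr ℝ ℝ ℂ) z :=
    HasFDerivAt.comp z h1 (hasFDerivAt_prodMk_right t z)
  rw [h2.fderiv]
  rfl

private theorem DD_two {F : ℝ × ℂ → ℝ}
    (hF : ContDiffOn ℝ ∞ F ((Set.univ : Set ℝ) ×ˢ ball (0 : ℂ) 3)) (t : ℝ) {z : ℂ}
    (hz : z ∈ ball (0 : ℂ) 3) (v : ℂ) :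
    fderiv ℝ (fun w => fderiv ℝ (fun y => F (t, y)) w v) z v = DD v (DD v F) (t, z) := by
  have h1 : (fun w => fderiv ℝ (fun y => F (t, y)) w v) =ᶠ[𝓝 z] fun w => DD v F (t, w) := by
    filter_upwards [isOpen_ball.mem_nhds hz] with w hw
    exact DD_one hF t hw v
  rw [h1.fderiv_eq]
  exact DD_one (DD_smooth hF v) t hz v

theorem a_smooth (C : CSurf S) (b : S → ℝ) (hb : C.IsSmooth b) (t : ℝ) (i : Fin C.n) :
    ContDiffOn ℝ ∞ (C.a (fun x => Real.exp (t * b x)) i) (ball 0 3) := by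
  unfold CSurf.a
  exact (C.ρ_smooth i).mul (Real.contDiff_exp.comp_contDiffOn (contDiffOn_const.mul (hb i)))

theorem abound (C : CSurf S) (b : S → ℝ) (hb : C.IsSmooth b) :
    ∃ α Λ : ℝ, 0 < α ∧ ∀ t ∈ Set.Icc (0 : ℝ) 1, ∀ i, ∀ z ∈ closedBall (0 : ℂ) 2,
      α ≤ C.a (fun x => Real.exp (t * b x)) i z ∧ C.a (fun x => Real.exp (t * b x)) i z ≤ Λ ∧
        |lap (C.a (fun x => Real.exp (t * b x)) i) z| ≤ Λ := by
  have hloc : ∀ i : Fin C.n, ∃ α Λ : ℝ, 0 < α ∧ ∀ t ∈ Set.Icc (0 : ℝ) 1,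
      ∀ z ∈ closedBall (0 : ℂ) 2,
      α ≤ C.a (fun x => Real.exp (t * b x)) i z ∧ C.a (fun x => Real.exp (t * b x)) i z ≤ Λ ∧
        |lap (C.a (fun x => Real.exp (t * b x)) i) z| ≤ Λ := by
    intro i
    set F : ℝ × ℂ → ℝ := fun p => C.ρ i p.2 * Real.exp (p.1 * (b ∘ (C.φ i).symm) p.2) with hF
    have hmaps : Set.MapsTo (Prod.snd : ℝ × ℂ → ℂ) ((Set.univ : Set ℝ) ×ˢ ball (0 : ℂ) 3)
        (ball 0 3) := fun p hp => hp.2
    have hFs : ContDiffOn ℝ ∞ F ((Set.univ : Set ℝ) ×ˢ ball (0 : ℂ) 3) := by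
      refine ((C.ρ_smooth i).comp contDiffOn_snd hmaps).mul ?_
      refine Real.contDiff_exp.comp_contDiffOn ?_
      exact contDiffOn_fst.mul ((hb i).comp contDiffOn_snd hmaps)
    have hK : IsCompact (Set.Icc (0 : ℝ) 1 ×ˢ closedBall (0 : ℂ) 2) :=
      isCompact_Icc.prod (isCompact_closedBall 0 2)
    have hKU : Set.Icc (0 : ℝ) 1 ×ˢ closedBall (0 : ℂ) 2 ⊆
        (Set.univ : Set ℝ) ×ˢ ball (0 : ℂ) 3 := by
      intro p hp
      exact ⟨Set.mem_univ _, closedBall_subset_ball (by norm_num) hp.2⟩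
    have hne : (Set.Icc (0 : ℝ) 1 ×ˢ closedBall (0 : ℂ) 2).Nonempty :=
      ⟨(0, 0), ⟨⟨le_rfl, zero_le_one⟩, mem_closedBall_self (by norm_num)⟩⟩
    have hpos : ∀ p ∈ (Set.univ : Set ℝ) ×ˢ ball (0 : ℂ) 3, 0 < F p := by
      intro p hp
      exact mul_pos (C.ρ_pos i p.2 hp.2) (Real.exp_pos _)
    obtain ⟨p0, hp0, hmin⟩ := hK.exists_isMinOn hne (hFs.continuousOn.mono hKU)
    obtain ⟨Λ1, hΛ1⟩ := hK.exists_bound_of_continuousOn (hFs.continuousOn.mono hKU)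
    have hDD : ContDiffOn ℝ ∞ (fun p => DD 1 (DD 1 F) p + DD Complex.I (DD Complex.I F) p)
        ((Set.univ : Set ℝ) ×ˢ ball (0 : ℂ) 3) :=
      (DD_smooth (DD_smooth hFs 1) 1).add (DD_smooth (DD_smooth hFs Complex.I) Complex.I)
    obtain ⟨Λ2, hΛ2⟩ := hK.exists_bound_of_continuousOn (hDD.continuousOn.mono hKU)
    refine ⟨F p0, max Λ1 Λ2, hpos p0 (hKU hp0), ?_⟩
    intro t ht z hz
    have hmem : ((t, z) : ℝ × ℂ) ∈ Set.Icc (0 : ℝ) 1 ×ˢ closedBall (0 : ℂ) 2 := ⟨ht, hz⟩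
    have hz3 : z ∈ ball (0 : ℂ) 3 := closedBall_subset_ball (by norm_num) hz
    have e1 : ∀ y, C.a (fun x => Real.exp (t * b x)) i y = F (t, y) := fun y => rfl
    have e2 : C.a (fun x => Real.exp (t * b x)) i = fun y => F (t, y) := funext e1
    refine ⟨?_, ?_, ?_⟩
    · rw [e1]
      exact hmin hmem
    · rw [e1]
      have := hΛ1 _ hmem
      rw [Real.norm_eq_abs] at this
      exact (le_abs_self _).trans (this.trans (le_max_left _ _))
    · rw [e2]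
      have h3 : lap (fun y => F (t, y)) z = DD 1 (DD 1 F) (t, z) +
          DD Complex.I (DD Complex.I F) (t, z) := by
        unfold lap dx dy
        rw [DD_two hFs t hz3 1, DD_two hFs t hz3 Complex.I]
      rw [h3]
      have := hΛ2 _ hmem
      rw [Real.norm_eq_abs] at this
      exact this.trans (le_max_right _ _)
  choose α Λ hα h using hloc
  obtain ⟨M, hM⟩ := (Set.finite_range fun i => (α i)⁻¹).bddAbove
  obtain ⟨L, hL⟩ := (Set.finite_range Λ).bddAbove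
  refine ⟨(max M 1)⁻¹, L, by positivity, ?_⟩
  intro t ht i z hz
  obtain ⟨h1, h2, h3⟩ := h i t ht z hz
  have hLi : Λ i ≤ L := hL ⟨i, rfl⟩
  have hMi : (α i)⁻¹ ≤ max M 1 := (hM ⟨i, rfl⟩).trans (le_max_left _ _)
  refine ⟨?_, h2.trans hLi, h3.trans hLi⟩
  refine le_trans ?_ h1
  rw [inv_le_comm₀ (by positivity) (hα i)]
  exact hMi

end Pool.Agent.Helper59.CL.ABound
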