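import Pool.Agent.Helper59.CL.PDef

/-!
# Project CL, block D1: conformal invariance of the gradient

Proof of `conf`.  Let `τ = φ_j ∘ φ_i.symm`, `z = φ_i x`, `λ = ρ_i z / ρ_j (τ z) > 0`, `L = fderiv τ z`.  `trans_conf` gives
`‖L v‖^2 = λ ‖v‖^2` for all `v`.  Near `z` (in the open source of `φ_i.symm.trans φ_j`)
`u ∘ φ_i.symm = (u ∘ φ_j.symm) ∘ τ`, so `fderiv (u ∘ φ_i.symm) z v = D (L v)` with `D = fderiv (u ∘ φ_j.symm) (τ z)`
(both maps are differentiable: `IsSmooth`, `trans_smooth`).  Write `D w = re w * dx + im w * dy` (real inner product with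
`gr (u ∘ φ_j.symm) (τ z)`).  The vectors `L 1`, `L I` are orthogonal with norm squared `λ`
(polarisation of `‖L v‖^2 = λ ‖v‖^2` with `v = 1 + I`), so `(D (L 1))^2 + (D (L I))^2 = λ (dx^2 + dy^2)`, that is
`‖gr (u ∘ φ_i.symm) z‖^2 = λ ‖gr (u ∘ φ_j.symm) (τ z)‖^2` (`norm_gr_sq`).
For `conf_Pf`: the function `Pf` only depends on `|gr|^2 / a` and on `u x`, and `a = ρ w` (`CSurf.a`).
-/

namespace Pool.Agent.Helper59.CL.Conf

open MeasureTheory Filter Topology Metric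
open Pool.Agent.Helper53.CL Pool.Agent.Helper59.CL
open scoped ContDiff Real

variable {S : Type*} [TopologicalSpace S] [MeasurableSpace S]

private theorem fderiv_apply_eq (u : ℂ → ℝ) (z v : ℂ) :
    fderiv ℝ u z v = v.re * dx u z + v.im * dy u z := by
  have h2 : v = v.re • (1 : ℂ) + v.im • Complex.I := by
    apply Complex.ext <;> simp
  have h3 : fderiv ℝ u z v = fderiv ℝ u z (v.re • (1 : ℂ) + v.im • Complex.I) := by rw [← h2]
  rw [h3, map_add, map_smul, map_smul]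
  rfl

private theorem orth_alg {a b c d l p q : ℝ} (hl : l ≠ 0) (h1 : a ^ 2 + b ^ 2 = l)
    (h2 : c ^ 2 + d ^ 2 = l) (h3 : a * c + b * d = 0) :
    (a * p + b * q) ^ 2 + (c * p + d * q) ^ 2 = l * (p ^ 2 + q ^ 2) := by
  have e1 : l * (l - (a ^ 2 + c ^ 2)) = 0 := by
    have h4 : a ^ 2 * c ^ 2 = b ^ 2 * d ^ 2 := by
      have h5 : a * c = -(b * d) := by linarith
      calc a ^ 2 * c ^ 2 = (a * c) ^ 2 := by ring
        _ = b ^ 2 * d ^ 2 := by rw [h5]; ring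
    have h6 : b ^ 2 = l - a ^ 2 := by linarith
    have h7 : d ^ 2 = l - c ^ 2 := by linarith
    rw [h6, h7] at h4
    nlinarith
  have e2 : a ^ 2 + c ^ 2 = l := by
    rcases mul_eq_zero.1 e1 with h | h
    · exact absurd h hl
    · linarith
  have e3 : b ^ 2 + d ^ 2 = l := by linarith
  have e4 : a * (a * b + c * d) = 0 := by
    have h5 : a ^ 2 = d ^ 2 := by linarith
    calc a * (a * b + c * d) = a ^ 2 * b + (a * c + b * d) * d - b * d ^ 2 := by ring
      _ = 0 := by rw [h3, h5]; ring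
  have e5 : b * (a * b + c * d) = 0 := by
    have h5 : b ^ 2 = c ^ 2 := by linarith
    calc b * (a * b + c * d) = a * b ^ 2 + (a * c + b * d) * c - a * c ^ 2 := by ring
      _ = 0 := by rw [h3, h5]; ring
  have e6 : l * (a * b + c * d) = 0 := by
    rw [← h1]
    calc (a ^ 2 + b ^ 2) * (a * b + c * d) = a * (a * (a * b + c * d)) + b * (b * (a * b + c * d)) := by ring
      _ = 0 := by rw [e4, e5]; ring
  have e7 : a * b + c * d = 0 := by
    rcases mul_eq_zero.1 e6 with h | h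
    · exact absurd h hl
    · exact h
  calc (a * p + b * q) ^ 2 + (c * p + d * q) ^ 2
      = (a ^ 2 + c ^ 2) * p ^ 2 + 2 * (a * b + c * d) * p * q + (b ^ 2 + d ^ 2) * q ^ 2 := by ring
    _ = l * (p ^ 2 + q ^ 2) := by rw [e2, e7, e3]; ring

theorem conf (C : CSurf S) (u : S → ℝ) (hu : C.IsSmooth u) (i j : Fin C.n) (x : S)
    (hi : x ∈ (C.φ i).source) (hj : x ∈ (C.φ j).source) :
    ‖gr (u ∘ (C.φ i).symm) (C.φ i x)‖ ^ 2 / C.ρ i (C.φ i x) =
      ‖gr (u ∘ (C.φ j).symm) (C.φ j x)‖ ^ 2 / C.ρ j (C.φ j x) := by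
  have hzi : C.φ i x ∈ ball (0 : ℂ) 3 := by
    rw [← C.target i]
    exact (C.φ i).map_source hi
  have hzj : C.φ j x ∈ ball (0 : ℂ) 3 := by
    rw [← C.target j]
    exact (C.φ j).map_source hj
  have hpi := C.ρ_pos i _ hzi
  have hpj := C.ρ_pos j _ hzj
  have hsrc : C.φ i x ∈ ((C.φ i).symm.trans (C.φ j)).source := by
    rw [OpenPartialHomeomorph.trans_source]
    refine ⟨?_, ?_⟩
    · rw [OpenPartialHomeomorph.symm_source]
      exact (C.φ i).map_source hi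
    · rw [Set.mem_preimage, (C.φ i).left_inv hi]
      exact hj
  have hnh := ((C.φ i).symm.trans (C.φ j)).open_source.mem_nhds hsrc
  have hτ : DifferentiableAt ℝ (C.φ j ∘ (C.φ i).symm) (C.φ i x) :=
    ((C.trans_smooth i j).contDiffAt hnh).differentiableAt (by simp)
  have hg : DifferentiableAt ℝ (u ∘ (C.φ j).symm) (C.φ j x) :=
    ((hu j).contDiffAt (isOpen_ball.mem_nhds hzj)).differentiableAt (by simp)
  have hτx : (C.φ j ∘ (C.φ i).symm) (C.φ i x) = C.φ j x := by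
    rw [Function.comp_apply, (C.φ i).left_inv hi]
  have heq : u ∘ (C.φ i).symm =ᶠ[𝓝 (C.φ i x)] (u ∘ (C.φ j).symm) ∘ (C.φ j ∘ (C.φ i).symm) := by
    filter_upwards [hnh] with y hy
    rw [OpenPartialHomeomorph.trans_source] at hy
    simp only [Function.comp_apply]
    rw [(C.φ j).left_inv hy.2]
  have hfd : ∀ v, fderiv ℝ (u ∘ (C.φ i).symm) (C.φ i x) v =
      fderiv ℝ (u ∘ (C.φ j).symm) (C.φ j x) (fderiv ℝ (C.φ j ∘ (C.φ i).symm) (C.φ i x) v) := by
    intro v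
    rw [heq.fderiv_eq]
    have hg' : DifferentiableAt ℝ (u ∘ (C.φ j).symm) ((C.φ j ∘ (C.φ i).symm) (C.φ i x)) := by
      rw [hτx]
      exact hg
    rw [fderiv_comp _ hg' hτ, hτx]
    rfl
  have hconf := C.trans_conf i j x hi hj
  obtain ⟨L, hL⟩ : ∃ L, L = fderiv ℝ (C.φ j ∘ (C.φ i).symm) (C.φ i x) := ⟨_, rfl⟩
  rw [← hL] at hfd hconf
  have c1 := hconf 1
  have c2 := hconf Complex.I
  have c3 := hconf (1 + Complex.I)
  rw [map_add] at c3
  rw [norm_sq_eq, norm_sq_eq] at c1 c2 c3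
  simp only [Complex.add_re, Complex.add_im, Complex.one_re, Complex.one_im, Complex.I_re, Complex.I_im]
    at c1 c2 c3
  rw [norm_gr_sq, norm_gr_sq]
  have d1 : dx (u ∘ (C.φ i).symm) (C.φ i x) = (L 1).re * dx (u ∘ (C.φ j).symm) (C.φ j x) +
      (L 1).im * dy (u ∘ (C.φ j).symm) (C.φ j x) := by
    rw [← fderiv_apply_eq, ← hfd]
    rfl
  have d2 : dy (u ∘ (C.φ i).symm) (C.φ i x) = (L Complex.I).re * dx (u ∘ (C.φ j).symm) (C.φ j x) +
      (L Complex.I).im * dy (u ∘ (C.φ j).symm) (C.φ j x) := by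
    rw [← fderiv_apply_eq, ← hfd]
    rfl
  rw [d1, d2]
  have hl : C.ρ i (C.φ i x) / C.ρ j (C.φ j x) ≠ 0 := (div_pos hpi hpj).ne'
  have a1 : (L 1).re ^ 2 + (L 1).im ^ 2 = C.ρ i (C.φ i x) / C.ρ j (C.φ j x) := by
    rw [eq_div_iff hpj.ne']
    linarith
  have a2 : (L Complex.I).re ^ 2 + (L Complex.I).im ^ 2 = C.ρ i (C.φ i x) / C.ρ j (C.φ j x) := by
    rw [eq_div_iff hpj.ne']
    linarith
  have a3 : (L 1).re * (L Complex.I).re + (L 1).im * (L Complex.I).im = 0 := by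
    have h5 : C.ρ j (C.φ j x) * ((L 1).re * (L Complex.I).re + (L 1).im * (L Complex.I).im) = 0 := by
      nlinarith
    rcases mul_eq_zero.1 h5 with h | h
    · exact absurd h hpj.ne'
    · exact h
  rw [orth_alg hl a1 a2 a3]
  field_simp

theorem conf_Pf (C : CSurf S) (w u : S → ℝ) (hu : C.IsSmooth u) (hw : ∀ x, 0 < w x) (ε δ : ℝ) (i j : Fin C.n)
    (x : S) (hi : x ∈ (C.φ i).source) (hj : x ∈ (C.φ j).source) :
    Pf ε δ (C.a w i) (u ∘ (C.φ i).symm) (C.φ i x) = Pf ε δ (C.a w j) (u ∘ (C.φ j).symm) (C.φ j x) := by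
  have h := conf C u hu i j x hi hj
  rw [norm_gr_sq, norm_gr_sq] at h
  have e1 : (u ∘ (C.φ i).symm) (C.φ i x) = u x := by
    rw [Function.comp_apply, (C.φ i).left_inv hi]
  have e2 : (u ∘ (C.φ j).symm) (C.φ j x) = u x := by
    rw [Function.comp_apply, (C.φ j).left_inv hj]
  have e3 : C.a w i (C.φ i x) = C.ρ i (C.φ i x) * w x := by
    rw [CSurf.a, (C.φ i).left_inv hi]
  have e4 : C.a w j (C.φ j x) = C.ρ j (C.φ j x) * w x := by
    rw [CSurf.a, (C.φ j).left_inv hj]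
  unfold Pf
  rw [e1, e2, e3, e4]
  have h5 : ∀ A R : ℝ, ε ^ 2 * A / (2 * (R * w x)) = ε ^ 2 / (2 * w x) * (A / R) := by
    intro A R
    rw [div_mul_div_comm]
    congr 1
    ring
  rw [h5, h5, h]

end Pool.Agent.Helper59.CL.Conf
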