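import Pool.Agent.Helper59.CL.PCalc1

/-!
# Project CL, block D1: the Laplacian of the Modica function

Proof.  The formulas of `PCalc1` hold in a neighbourhood of `z` (all hypotheses are open conditions), so
`dx (dx (Pf ..)) z` is the `dx` derivative at `z` of the right side of `dx_Pf`, and similarly for `dy`.
Add, use `dy (dx u) = dx (dy u)` (also one derivative higher, near `z`) and
`dx (lap u) z = (dx a z * sin (u z) + a z * cos (u z) * dx u z) / ε^2` (from `heq`, and the same for `dy`); the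
third derivatives only enter in the combination `dx u * dx (lap u) + dy u * dy (lap u)`.
-/

namespace Pool.Agent.Helper59.CL.PCalc2

open MeasureTheory Filter Topology Metric
open Pool.Agent.Helper53.CL Pool.Agent.Helper59.CL
open scoped ContDiff Real

theorem line_deriv {f : ℂ → ℝ} {z : ℂ} (hf : DifferentiableAt ℝ f z) (v : ℂ) :
    HasDerivAt (fun t : ℝ => f (z + t • v)) (fderiv ℝ f z v) 0 := by
  have h1 : HasDerivAt (fun t : ℝ => z + t • v) v 0 := by
    simpa using ((hasDerivAt_id (0 : ℝ)).smul_const v).const_add z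
  have h2 : HasFDerivAt f (fderiv ℝ f z) (z + (0 : ℝ) • v) := by
    simpa using hf.hasFDerivAt
  exact h2.comp_hasDerivAt (0 : ℝ) h1

theorem smooth_near {f : ℂ → ℝ} {z : ℂ} (hf : ContDiffAt ℝ ∞ f z) :
    ∀ᶠ y in 𝓝 z, ContDiffAt ℝ 2 f y := by
  have h : ContDiffAt ℝ 2 f z := hf.of_le (by simpa using (WithTop.coe_le_coe.2 (le_top : (2 : ℕ∞) ≤ ⊤)))
  exact h.eventually (by simp)

theorem dx_dy' {f : ℂ → ℝ} {z : ℂ} (hf : ContDiffAt ℝ 2 f z) : dy (dx f) z = dx (dy f) z := by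
  have h1 : DifferentiableAt ℝ (fderiv ℝ f) z :=
    (hf.fderiv_right (m := 1) (by norm_num)).differentiableAt (by norm_num)
  have h2 := hf.isSymmSndFDerivAt (by simp)
  have h3 : dy (dx f) z = fderiv ℝ (fderiv ℝ f) z Complex.I 1 := by
    unfold dx dy
    rw [fderiv_clm_apply h1 (differentiableAt_const _)]
    simp
  have h4 : dx (dy f) z = fderiv ℝ (fderiv ℝ f) z 1 Complex.I := by
    unfold dx dy
    rw [fderiv_clm_apply h1 (differentiableAt_const _)]
    simp
  rw [h3, h4]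
  exact h2.eq _ _

theorem differentiableAt_dxdy {f : ℂ → ℝ} {z : ℂ} (hf : ContDiffAt ℝ 2 f z) :
    DifferentiableAt ℝ (dx f) z ∧ DifferentiableAt ℝ (dy f) z := by
  have h1 : DifferentiableAt ℝ (fderiv ℝ f) z :=
    (hf.fderiv_right (m := 1) (by norm_num)).differentiableAt (by norm_num)
  exact ⟨h1.clm_apply (differentiableAt_const _), h1.clm_apply (differentiableAt_const _)⟩

theorem tendsto_line (z v : ℂ) : Tendsto (fun t : ℝ => z + t • v) (𝓝 0) (𝓝 z) := by
  have h : Continuous (fun t : ℝ => z + t • v) := by fun_prop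
  simpa using h.tendsto 0

theorem first_formula {ε δ : ℝ} {z v : ℂ} {a u : ℂ → ℝ} (ha : DifferentiableAt ℝ a z)
    (hu : DifferentiableAt ℝ u z) (hU : DifferentiableAt ℝ (dx u) z) (hV : DifferentiableAt ℝ (dy u) z)
    (hz : a z ≠ 0) :
    fderiv ℝ (Pf ε δ a u) z v =
      ε ^ 2 * (dx u z * fderiv ℝ (dx u) z v + dy u z * fderiv ℝ (dy u) z v) / a z -
      ε ^ 2 * (dx u z ^ 2 + dy u z ^ 2) * fderiv ℝ a z v / (2 * a z ^ 2) -
      (Real.sin (u z) + δ * (Real.cos (u z / 2) / 2)) * fderiv ℝ u z v := by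
  have hW : DifferentiableAt ℝ (Pf ε δ a u) z := by
    have h4 : DifferentiableAt ℝ (fun y => (2 * a y)⁻¹) z :=
      (hasDerivAt_inv (mul_ne_zero two_ne_zero hz)).differentiableAt.comp z (ha.const_mul 2)
    have h5 : DifferentiableAt ℝ (fun y => Real.sin (u y * (1 / 2))) z :=
      (hu.mul_const (1 / 2)).sin
    have h6 : Pf ε δ a u = fun y => ε ^ 2 * (dx u y ^ 2 + dy u y ^ 2) * (2 * a y)⁻¹ - (1 - Real.cos (u y)) -
        δ * (1 + Real.sin (u y * (1 / 2))) := by
      funext y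
      unfold Pf
      rw [div_eq_mul_inv (u y) 2, div_eq_mul_inv _ (2 * a y), one_div]
    rw [h6]
    have h7 := (((hU.pow 2).add (hV.pow 2)).const_mul (ε ^ 2)).mul h4
    exact (h7.sub ((hu.cos).const_sub 1)).sub ((h5.const_add 1).const_mul δ)
  have eW := line_deriv hW v
  have ea := line_deriv ha v
  have eu := line_deriv hu v
  have eU := line_deriv hU v
  have eV := line_deriv hV v
  have hz0 : a (z + (0 : ℝ) • v) ≠ 0 := by simpa using hz
  have h1 := ((((eU.pow 2).add (eV.pow 2)).const_mul (ε ^ 2)).div (ea.const_mul 2)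
    (mul_ne_zero two_ne_zero hz0)).sub ((eu.cos).const_sub 1)
  have h2 := h1.sub ((((eu.div_const 2).sin).const_add 1).const_mul δ)
  have h7 := eW.unique h2
  rw [h7]
  simp only [zero_smul, add_zero, Pi.add_apply, Pi.pow_apply]
  field_simp
  ring

/-- derivative of the common shape of the two formulas -/
theorem dir_formula {ε δ : ℝ} {z v : ℂ} {W a u U V A B X T : ℂ → ℝ}
    (hW : DifferentiableAt ℝ W z)
    (ha : DifferentiableAt ℝ a z) (hu : DifferentiableAt ℝ u z) (hU : DifferentiableAt ℝ U z)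
    (hV : DifferentiableAt ℝ V z) (hA : DifferentiableAt ℝ A z) (hB : DifferentiableAt ℝ B z)
    (hX : DifferentiableAt ℝ X z) (hT : DifferentiableAt ℝ T z) (hz : a z ≠ 0)
    (heq : ∀ᶠ y in 𝓝 z, W y = ε ^ 2 * (U y * A y + V y * B y) / a y -
      ε ^ 2 * (U y ^ 2 + V y ^ 2) * X y / (2 * a y ^ 2) -
      (Real.sin (u y) + δ * (Real.cos (u y / 2) / 2)) * T y) :
    fderiv ℝ W z v =
      ε ^ 2 * (fderiv ℝ U z v * A z + U z * fderiv ℝ A z v + (fderiv ℝ V z v * B z + V z * fderiv ℝ B z v)) / a z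
      - ε ^ 2 * (U z * A z + V z * B z) * fderiv ℝ a z v / a z ^ 2
      - (ε ^ 2 * (2 * U z * fderiv ℝ U z v + 2 * V z * fderiv ℝ V z v) * X z
          + ε ^ 2 * (U z ^ 2 + V z ^ 2) * fderiv ℝ X z v) / (2 * a z ^ 2)
      + ε ^ 2 * (U z ^ 2 + V z ^ 2) * X z * fderiv ℝ a z v / a z ^ 3
      - ((Real.cos (u z) * fderiv ℝ u z v + δ * (-Real.sin (u z / 2) * (fderiv ℝ u z v / 2) / 2)) * T z
          + (Real.sin (u z) + δ * (Real.cos (u z / 2) / 2)) * fderiv ℝ T z v) := by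
  have eW := line_deriv hW v
  have ea := line_deriv ha v
  have eu := line_deriv hu v
  have eU := line_deriv hU v
  have eV := line_deriv hV v
  have eA := line_deriv hA v
  have eB := line_deriv hB v
  have eX := line_deriv hX v
  have eT := line_deriv hT v
  have hz0 : a (z + (0 : ℝ) • v) ≠ 0 := by simpa using hz
  have h1 := (((eU.mul eA).add (eV.mul eB)).const_mul (ε ^ 2)).div ea hz0
  have h2 := ((((eU.pow 2).add (eV.pow 2)).const_mul (ε ^ 2)).mul eX).div ((ea.pow 2).const_mul 2)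
    (mul_ne_zero two_ne_zero (pow_ne_zero 2 hz0))
  have h3 := ((eu.sin).add ((((eu.div_const 2).cos).div_const 2).const_mul δ)).mul eT
  have h4 := (h1.sub h2).sub h3
  have h5 : (fun t : ℝ => W (z + t • v)) =ᶠ[𝓝 0] fun t : ℝ =>
      ε ^ 2 * (U (z + t • v) * A (z + t • v) + V (z + t • v) * B (z + t • v)) / a (z + t • v) -
      ε ^ 2 * (U (z + t • v) ^ 2 + V (z + t • v) ^ 2) * X (z + t • v) / (2 * a (z + t • v) ^ 2) -
      (Real.sin (u (z + t • v)) + δ * (Real.cos (u (z + t • v) / 2) / 2)) * T (z + t • v) :=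
    (tendsto_line z v).eventually heq
  have h6 := eW.congr_of_eventuallyEq h5.symm
  have h7 := h6.unique h4
  rw [h7]
  simp only [zero_smul, add_zero, Pi.add_apply, Pi.mul_apply, Pi.pow_apply]
  field_simp
  ring

theorem lap_Pf {ε δ : ℝ} {a u : ℂ → ℝ} {z : ℂ} (hε : 0 < ε) (ha : ContDiffAt ℝ ∞ a z)
    (hu : ContDiffAt ℝ ∞ u z) (hz : 0 < a z) (heq : ∀ᶠ y in 𝓝 z, ε ^ 2 * lap u y = a y * Real.sin (u y)) :
    lap (Pf ε δ a u) z =
      ε ^ 2 / a z * (dx (dx u) z ^ 2 + 2 * dx (dy u) z ^ 2 + dy (dy u) z ^ 2) +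
        1 / a z * (dx u z * dx a z + dy u z * dy a z) * Real.sin (u z) +
        Real.cos (u z) * (dx u z ^ 2 + dy u z ^ 2) -
        2 * ε ^ 2 / a z ^ 2 * ((dx u z * dx (dx u) z + dy u z * dx (dy u) z) * dx a z +
          (dx u z * dx (dy u) z + dy u z * dy (dy u) z) * dy a z) -
        ε ^ 2 * (dx u z ^ 2 + dy u z ^ 2) / (2 * a z ^ 2) * lap a z +
        ε ^ 2 * (dx u z ^ 2 + dy u z ^ 2) / a z ^ 3 * (dx a z ^ 2 + dy a z ^ 2) -
        (Real.cos (u z) + δ * (-Real.sin (u z / 2) / 4)) * (dx u z ^ 2 + dy u z ^ 2) -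
        (Real.sin (u z) + δ * (Real.cos (u z / 2) / 2)) * (a z * Real.sin (u z) / ε ^ 2) := by
  have hne : a z ≠ 0 := hz.ne'
  have hεne : ε ≠ 0 := hε.ne'
  have ev1 : ∀ᶠ y in 𝓝 z, ContDiffAt ℝ 2 a y ∧ ContDiffAt ℝ 2 u y ∧ a y ≠ 0 :=
    (smooth_near ha).and ((smooth_near hu).and (ha.continuousAt.eventually_ne hne))
  have hD {f : ℂ → ℝ} (hf : ContDiffAt ℝ ∞ f z) : DifferentiableAt ℝ f z := hf.differentiableAt (by simp)
  have hP := PCalc1.contDiffAt_Pf (ε := ε) (δ := δ) ha hu hne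
  have hux := (PCalc1.contDiffAt_dx hu).1
  have huy := (PCalc1.contDiffAt_dx hu).2
  have hax := (PCalc1.contDiffAt_dx ha).1
  have hay := (PCalc1.contDiffAt_dx ha).2
  have huxx := (PCalc1.contDiffAt_dx hux).1
  have huxy := (PCalc1.contDiffAt_dx huy).1
  have huyy := (PCalc1.contDiffAt_dx huy).2
  have hPx := (PCalc1.contDiffAt_dx hP).1
  have hPy := (PCalc1.contDiffAt_dx hP).2
  have e1 : ∀ᶠ y in 𝓝 z, dx (Pf ε δ a u) y = ε ^ 2 * (dx u y * dx (dx u) y + dy u y * dx (dy u) y) / a y -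
      ε ^ 2 * (dx u y ^ 2 + dy u y ^ 2) * dx a y / (2 * a y ^ 2) -
      (Real.sin (u y) + δ * (Real.cos (u y / 2) / 2)) * dx u y := by
    filter_upwards [ev1] with y hy
    exact first_formula (v := 1) (hy.1.differentiableAt (by norm_num)) (hy.2.1.differentiableAt (by norm_num))
      (differentiableAt_dxdy hy.2.1).1 (differentiableAt_dxdy hy.2.1).2 hy.2.2
  have e2 : ∀ᶠ y in 𝓝 z, dy (Pf ε δ a u) y = ε ^ 2 * (dx u y * dx (dy u) y + dy u y * dy (dy u) y) / a y -
      ε ^ 2 * (dx u y ^ 2 + dy u y ^ 2) * dy a y / (2 * a y ^ 2) -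
      (Real.sin (u y) + δ * (Real.cos (u y / 2) / 2)) * dy u y := by
    filter_upwards [ev1] with y hy
    have h := first_formula (ε := ε) (δ := δ) (v := Complex.I) (hy.1.differentiableAt (by norm_num))
      (hy.2.1.differentiableAt (by norm_num)) (differentiableAt_dxdy hy.2.1).1 (differentiableAt_dxdy hy.2.1).2
      hy.2.2
    have h' : fderiv ℝ (dx u) y Complex.I = dx (dy u) y := dx_dy' hy.2.1
    rw [h'] at h
    exact h
  have f1 := dir_formula (v := 1) (hD hPx) (hD ha) (hD hu) (hD hux) (hD huy) (hD huxx) (hD huxy) (hD hax)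
    (hD hux) hne e1
  have f2 := dir_formula (v := Complex.I) (hD hPy) (hD ha) (hD hu) (hD hux) (hD huy) (hD huxy) (hD huyy) (hD hay)
    (hD huy) hne e2
  -- third derivatives
  have sym0 : dy (dx u) z = dx (dy u) z := PCalc1.dx_dy hu
  have sym1 : dy (dx (dy u)) z = dx (dy (dy u)) z := PCalc1.dx_dy huy
  have sym2 : dy (dx (dx u)) z = dx (dx (dy u)) z := by
    rw [PCalc1.dx_dy hux]
    have : dy (dx u) =ᶠ[𝓝 z] dx (dy u) := by
      filter_upwards [ev1] with y hy
      exact dx_dy' hy.2.1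
    unfold dx at this ⊢
    rw [this.fderiv_eq]
  have elap : ∀ᶠ y in 𝓝 z, dx (dx u) y + dy (dy u) y = a y * Real.sin (u y) / ε ^ 2 := by
    filter_upwards [heq] with y hy
    rw [eq_div_iff (pow_ne_zero 2 hεne)]
    have : lap u y = dx (dx u) y + dy (dy u) y := rfl
    rw [← this]
    linarith
  have lapd (v : ℂ) : fderiv ℝ (dx (dx u)) z v + fderiv ℝ (dy (dy u)) z v =
      (fderiv ℝ a z v * Real.sin (u z) + a z * (Real.cos (u z) * fderiv ℝ u z v)) / ε ^ 2 := by
    have g1 := (line_deriv (hD huxx) v).add (line_deriv (hD huyy) v)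
    have g2 := ((line_deriv (hD ha) v).mul (line_deriv (hD hu) v).sin).div_const (ε ^ 2)
    have g3 : (fun t : ℝ => dx (dx u) (z + t • v) + dy (dy u) (z + t • v)) =ᶠ[𝓝 0] fun t : ℝ =>
        a (z + t • v) * Real.sin (u (z + t • v)) / ε ^ 2 := (tendsto_line z v).eventually elap
    have g4 := (g1.congr_of_eventuallyEq g3.symm).unique g2
    simpa using g4
  have l1 : dx (dx (dx u)) z + dy (dx (dy u)) z =
      (dx a z * Real.sin (u z) + a z * (Real.cos (u z) * dx u z)) / ε ^ 2 := by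
    rw [sym1]; exact lapd 1
  have l2 : dx (dx (dy u)) z + dy (dy (dy u)) z =
      (dy a z * Real.sin (u z) + a z * (Real.cos (u z) * dy u z)) / ε ^ 2 := by
    rw [← sym2]; exact lapd Complex.I
  have l3 : dx (dx u) z + dy (dy u) z = a z * Real.sin (u z) / ε ^ 2 := elap.self_of_nhds
  have F1 : dx (dx (Pf ε δ a u)) z = _ := f1
  have F2 : dy (dy (Pf ε δ a u)) z = _ := f2
  change dx (dx (Pf ε δ a u)) z + dy (dy (Pf ε δ a u)) z = _
  rw [F1, F2]
  change ε ^ 2 * (dx (dx u) z * dx (dx u) z + dx u z * dx (dx (dx u)) z +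
        (dx (dy u) z * dx (dy u) z + dy u z * dx (dx (dy u)) z)) / a z
      - ε ^ 2 * (dx u z * dx (dx u) z + dy u z * dx (dy u) z) * dx a z / a z ^ 2
      - (ε ^ 2 * (2 * dx u z * dx (dx u) z + 2 * dy u z * dx (dy u) z) * dx a z
          + ε ^ 2 * (dx u z ^ 2 + dy u z ^ 2) * dx (dx a) z) / (2 * a z ^ 2)
      + ε ^ 2 * (dx u z ^ 2 + dy u z ^ 2) * dx a z * dx a z / a z ^ 3
      - ((Real.cos (u z) * dx u z + δ * (-Real.sin (u z / 2) * (dx u z / 2) / 2)) * dx u z
          + (Real.sin (u z) + δ * (Real.cos (u z / 2) / 2)) * dx (dx u) z)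
      + (ε ^ 2 * (dy (dx u) z * dx (dy u) z + dx u z * dy (dx (dy u)) z +
        (dy (dy u) z * dy (dy u) z + dy u z * dy (dy (dy u)) z)) / a z
      - ε ^ 2 * (dx u z * dx (dy u) z + dy u z * dy (dy u) z) * dy a z / a z ^ 2
      - (ε ^ 2 * (2 * dx u z * dy (dx u) z + 2 * dy u z * dy (dy u) z) * dy a z
          + ε ^ 2 * (dx u z ^ 2 + dy u z ^ 2) * dy (dy a) z) / (2 * a z ^ 2)
      + ε ^ 2 * (dx u z ^ 2 + dy u z ^ 2) * dy a z * dy a z / a z ^ 3
      - ((Real.cos (u z) * dy u z + δ * (-Real.sin (u z / 2) * (dy u z / 2) / 2)) * dy u z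
          + (Real.sin (u z) + δ * (Real.cos (u z / 2) / 2)) * dy (dy u) z)) = _
  rw [sym0]
  have hlapa : lap a z = dx (dx a) z + dy (dy a) z := rfl
  rw [hlapa, ← l3]
  have m1 : dx (dx (dx u)) z = (dx a z * Real.sin (u z) + a z * (Real.cos (u z) * dx u z)) / ε ^ 2
      - dy (dx (dy u)) z := by linarith
  have m2 : dy (dy (dy u)) z = (dy a z * Real.sin (u z) + a z * (Real.cos (u z) * dy u z)) / ε ^ 2
      - dx (dx (dy u)) z := by linarith
  rw [m1, m2]
  field_simp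
  ring

end Pool.Agent.Helper59.CL.PCalc2
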