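import Pool.Agent.Helper59.CL.PAlg
import Pool.Agent.Helper59.CL.PCalc2

/-!
# Project CL, block D1: the Laplacian of the Modica function at a critical point where it is positive

Proof.  Put `q = dx u z ^ 2 + dy u z ^ 2`, `S = sin (u z / 2)`, `c = cos (u z / 2)`, `0 ≤ S ≤ 1` (as `0 ≤ u z / 2 ≤ π`).
`Pf > 0` gives `ε^2 q / (2 a) > (1 - cos u) + δ (1 + S) = 2 S^2 + δ (1 + S)` (in particular `q > 0`).
By `PCalc1.dx_Pf`, `PCalc1.dy_Pf`, `PCalc2.lap_Pf` and `PAlg.alg` (with `s = sin (u z) = 2 S c`, `g = c / 2`,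
`g2 = - S / 4`, `c := cos (u z)`):
`lap Pf = a/ε^2 (δ g s + 2 δ^2 g^2) - δ g2 q + ε^2 q ((ax^2+ay^2)/(2 a^3) - lap a/(2 a^2))`.
Here `δ g s = δ S c^2 = δ S (1 - S^2)`, `2 δ^2 g^2 = (δ^2/2) (1 - S^2)`, `- δ g2 q = (δ/4) S q ≥ (a/ε^2) (δ/2) S (2 S^2 + δ)`
(use `q ≥ (2 a/ε^2)(2 S^2 + δ)`).  Sum of these three is at least
`(a/ε^2) (δ S + δ^2/2 + (δ^2/2)(S - S^2)) ≥ (a/ε^2) δ^2/2`.
The remaining term is at least `- ε^2 q |lap a| / (2 a^2) ≥ - K1^2 |lap a| / (2 a^2)`, `ε^2 q = (ε ‖gr u z‖)^2`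
(`norm_gr_sq`).
-/

namespace Pool.Agent.Helper59.CL.PKey

open MeasureTheory Filter Topology Metric
open Pool.Agent.Helper53.CL Pool.Agent.Helper59.CL
open scoped ContDiff Real

/-- the real inequality -/
private theorem key_real {ε δ K a q S c2 L X : ℝ} (hε : 0 < ε) (hδ : 0 < δ) (ha : 0 < a) (hS0 : 0 ≤ S)
    (hS1 : S ≤ 1) (hc : c2 ^ 2 = 1 - S ^ 2) (hq : 2 * a / ε ^ 2 * (2 * S ^ 2 + δ) ≤ q)
    (hX : 0 ≤ X) (hK : ε ^ 2 * q ≤ K) (hq0 : 0 ≤ q) :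
    a * δ ^ 2 / (2 * ε ^ 2) - K * |L| / (2 * a ^ 2) ≤
      a / ε ^ 2 * (δ * (c2 / 2) * (2 * S * c2) + 2 * δ ^ 2 * (c2 / 2) ^ 2) - δ * (-S / 4) * q +
        ε ^ 2 * q * (X - L / (2 * a ^ 2)) := by
  have h1 : a / ε ^ 2 * (δ * (c2 / 2) * (2 * S * c2) + 2 * δ ^ 2 * (c2 / 2) ^ 2) =
      a / ε ^ 2 * (δ * S * (1 - S ^ 2) + δ ^ 2 / 2 * (1 - S ^ 2)) := by
    rw [← hc]
    ring
  have h2 : a / ε ^ 2 * (δ * S ^ 3 + δ ^ 2 * S / 2) ≤ -(δ * (-S / 4) * q) := by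
    have h3 := mul_le_mul_of_nonneg_left hq (by positivity : 0 ≤ δ * S / 4)
    have h4 : δ * S / 4 * (2 * a / ε ^ 2 * (2 * S ^ 2 + δ)) = a / ε ^ 2 * (δ * S ^ 3 + δ ^ 2 * S / 2) := by
      ring
    rw [h4] at h3
    linarith
  have h5 : a * δ ^ 2 / (2 * ε ^ 2) ≤ a / ε ^ 2 * (δ * S * (1 - S ^ 2) + δ ^ 2 / 2 * (1 - S ^ 2)) +
      a / ε ^ 2 * (δ * S ^ 3 + δ ^ 2 * S / 2) := by
    have h6 : a * δ ^ 2 / (2 * ε ^ 2) = a / ε ^ 2 * (δ ^ 2 / 2) := by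
      field_simp
    rw [h6, ← mul_add]
    apply mul_le_mul_of_nonneg_left _ (by positivity)
    have h7 : 0 ≤ δ * S := by positivity
    have h8 : 0 ≤ δ ^ 2 / 2 * (S * (1 - S)) :=
      mul_nonneg (by positivity) (mul_nonneg hS0 (by linarith))
    nlinarith
  have h9 : -(K * |L| / (2 * a ^ 2)) ≤ ε ^ 2 * q * (X - L / (2 * a ^ 2)) := by
    have h10 : 0 ≤ ε ^ 2 * q := by positivity
    have h11 : ε ^ 2 * q * (L / (2 * a ^ 2)) ≤ K * |L| / (2 * a ^ 2) := by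
      calc ε ^ 2 * q * (L / (2 * a ^ 2)) ≤ ε ^ 2 * q * (|L| / (2 * a ^ 2)) := by
            apply mul_le_mul_of_nonneg_left _ h10
            exact div_le_div_of_nonneg_right (le_abs_self L) (by positivity)
        _ ≤ K * (|L| / (2 * a ^ 2)) := mul_le_mul_of_nonneg_right hK (by positivity)
        _ = K * |L| / (2 * a ^ 2) := by ring
    have h12 : 0 ≤ ε ^ 2 * q * X := mul_nonneg h10 hX
    nlinarith
  rw [h1]
  linarith

theorem key {ε δ K1 : ℝ} {a u : ℂ → ℝ} {z : ℂ} (hε : 0 < ε) (hδ : 0 < δ) (ha : ContDiffAt ℝ ∞ a z)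
    (hu : ContDiffAt ℝ ∞ u z) (hz : 0 < a z) (heq : ∀ᶠ y in 𝓝 z, ε ^ 2 * lap u y = a y * Real.sin (u y))
    (h0 : 0 ≤ u z) (h1 : u z ≤ 2 * π) (hx : dx (Pf ε δ a u) z = 0) (hy : dy (Pf ε δ a u) z = 0)
    (hP : 0 < Pf ε δ a u z) (hK : ε * ‖gr u z‖ ≤ K1) :
    a z * δ ^ 2 / (2 * ε ^ 2) - K1 ^ 2 * |lap a z| / (2 * a z ^ 2) ≤ lap (Pf ε δ a u) z := by
  have E1 := PCalc1.dx_Pf (ε := ε) (δ := δ) ha hu hz.ne'
  have E2 := PCalc1.dy_Pf (ε := ε) (δ := δ) ha hu hz.ne'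
  rw [hx] at E1
  rw [hy] at E2
  have E3 : ε ^ 2 * (dx (dx u) z + dy (dy u) z) = a z * Real.sin (u z) := heq.self_of_nhds
  have hS0 : 0 ≤ Real.sin (u z / 2) :=
    Real.sin_nonneg_of_nonneg_of_le_pi (by linarith) (by linarith)
  have hS1 : Real.sin (u z / 2) ≤ 1 := Real.sin_le_one _
  have hc : Real.cos (u z / 2) ^ 2 = 1 - Real.sin (u z / 2) ^ 2 := Real.cos_sq' _
  have hcu : Real.cos (u z) = 1 - 2 * Real.sin (u z / 2) ^ 2 := by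
    have h2 : u z = 2 * (u z / 2) := by ring
    rw [h2, Real.cos_two_mul, hc, ← h2]
    ring
  have hsu : Real.sin (u z) = 2 * Real.sin (u z / 2) * Real.cos (u z / 2) := by
    have h2 : u z = 2 * (u z / 2) := by ring
    conv_lhs => rw [h2]
    rw [Real.sin_two_mul]
  have hq : 2 * a z / ε ^ 2 * (2 * Real.sin (u z / 2) ^ 2 + δ) < dx u z ^ 2 + dy u z ^ 2 := by
    unfold Pf at hP
    rw [hcu] at hP
    have h3 : 2 * Real.sin (u z / 2) ^ 2 + δ < ε ^ 2 * (dx u z ^ 2 + dy u z ^ 2) / (2 * a z) := by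
      nlinarith [mul_nonneg hδ.le hS0]
    have h4 := mul_lt_mul_of_pos_left h3 (by positivity : 0 < 2 * a z / ε ^ 2)
    have h5 : 2 * a z / ε ^ 2 * (ε ^ 2 * (dx u z ^ 2 + dy u z ^ 2) / (2 * a z)) =
        dx u z ^ 2 + dy u z ^ 2 := by
      field_simp
    rwa [h5] at h4
  have hq0 : 0 < dx u z ^ 2 + dy u z ^ 2 := lt_of_le_of_lt (by positivity) hq
  have hKK : ε ^ 2 * (dx u z ^ 2 + dy u z ^ 2) ≤ K1 ^ 2 := by
    rw [← norm_gr_sq, ← mul_pow]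
    exact pow_le_pow_left₀ (by positivity) hK 2
  have hA := PAlg.alg (ε := ε) (δ := δ) (a := a z) (p := dx u z) (r := dy u z) (A := dx (dx u) z)
    (B := dx (dy u) z) (C := dy (dy u) z) (ax := dx a z) (ay := dy a z) (L := lap a z)
    (s := Real.sin (u z)) (c := Real.cos (u z)) (g := Real.cos (u z / 2) / 2)
    (g2 := -Real.sin (u z / 2) / 4) hε hz hq0 E1.symm E2.symm E3
  rw [PCalc2.lap_Pf hε ha hu hz heq, hA, hsu]
  exact key_real hε hδ hz hS0 hS1 hc hq.le (by positivity) hKK hq0.le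

end Pool.Agent.Helper59.CL.PKey
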