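import Pool.Agent.Helper59.CL.LocMax
import Pool.Agent.Helper59.CL.PKey
import Pool.Agent.Helper59.CL.Conf
import Pool.Agent.Helper59.CL.ABound

/-!
# Project CL, block D1: the Modica bound on the closed surface

Proof.  Let `α, Λ` be as in `ABound.abound` (we may take `Λ ≥ α > 0`), `K1 ≥ 0` the gradient bound (note
`‖gr v z‖ ≤ 2 * ‖fderiv ℝ v z‖`, in fact `≤`, and `‖iteratedFDeriv ℝ 1 v z‖ = ‖fderiv ℝ v z‖`).  Choose `K > 0` with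
`α K^2 / 2 > (2 K1)^2 Λ / (2 α^2)` and put `δ = K ε`.
If `C.n = 0` there is nothing to prove.  Otherwise let `M` be the maximum over `i` and over `z ∈ closedBall 0 1` of
`Pf ε δ a_i u_i z` (`a_i = C.a (exp (t b)) i`, `u_i = u ∘ (C.φ i).symm`; continuous by `PCalc1.contDiffAt_Pf`), attained at `(i, z)`.
Every point `y` of `ball 0 3` near `z` is `φ_i x` with `x = φ_i.symm y`, and `x` lies in some chart `j` with
`φ_j x ∈ ball 0 1` (`C.cover`), so `Pf_i y = Pf_j (φ_j x) ≤ M = Pf_i z` (`Conf.conf_Pf`): `z` is a local maximum of `Pf_i`.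
By `LocMax.lap_nonpos` the gradient is zero and `lap ≤ 0`.  If `M > 0` then `PKey.key` gives
`lap ≥ a δ^2/(2 ε^2) - (2 K1)^2 Λ/(2 a^2) ≥ α K^2/2 - (2 K1)^2 Λ/(2 α^2) > 0`, contradiction.  So `M ≤ 0`, hence
`Pf_i y ≤ 0` for all `i` and `y ∈ ball 0 3` (again by `C.cover` and `Conf.conf_Pf`), and
`disc = (a/ε) (ε^2 |Du|^2/(2a) - (1 - cos u)) ≤ (a/ε) δ (1 + sin (u/2)) ≤ 2 K a ≤ 2 K Λ` on `ball 0 2`
(`δ = K ε`, `a > 0`).  The constant `2 K Λ` does not depend on `t, ε, u, i`.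
-/

namespace Pool.Agent.Helper59.CL.Modica

open MeasureTheory Filter Topology Metric
open Pool.Agent.Helper53.CL Pool.Agent.Helper59.CL
open scoped ContDiff Real

variable {S : Type*} [TopologicalSpace S] [MeasurableSpace S]

private theorem gr_le (v : ℂ → ℝ) (z : ℂ) : ‖gr v z‖ ≤ 2 * ‖iteratedFDeriv ℝ 1 v z‖ := by
  have h0 : ‖iteratedFDeriv ℝ 1 v z‖ = ‖fderiv ℝ v z‖ := norm_iteratedFDeriv_one v
  rw [h0]
  have h1 : |dx v z| ≤ ‖fderiv ℝ v z‖ := by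
    have := (fderiv ℝ v z).le_opNorm 1
    rw [norm_one, mul_one, Real.norm_eq_abs] at this
    exact this
  have h2 : |dy v z| ≤ ‖fderiv ℝ v z‖ := by
    have := (fderiv ℝ v z).le_opNorm Complex.I
    rw [Complex.norm_I, mul_one, Real.norm_eq_abs] at this
    exact this
  have h3 : ‖gr v z‖ ≤ |(gr v z).re| + |(gr v z).im| := Complex.norm_le_abs_re_add_abs_im _
  have h4 : (gr v z).re = dx v z := rfl
  have h5 : (gr v z).im = dy v z := rfl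
  rw [h4, h5] at h3
  linarith

theorem modica (C : CSurf S) (b : S → ℝ) (hb : C.IsSmooth b)
    (h1 : ∃ K, ∀ t ∈ Set.Icc (0 : ℝ) 1, ∀ ε ∈ Set.Ioc (0 : ℝ) 1, ∀ u,
      C.IsSol ε (fun x => Real.exp (t * b x)) u → ∀ i, ∀ z ∈ ball (0 : ℂ) 2,
        ε ^ 1 * ‖iteratedFDeriv ℝ 1 (u ∘ (C.φ i).symm) z‖ ≤ K) :
    ∃ K, ∀ t ∈ Set.Icc (0 : ℝ) 1, ∀ ε ∈ Set.Ioc (0 : ℝ) 1, ∀ u,
      C.IsSol ε (fun x => Real.exp (t * b x)) u → ∀ i, ∀ z ∈ ball (0 : ℂ) 2,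
        disc ε (C.a (fun x => Real.exp (t * b x)) i) (u ∘ (C.φ i).symm) z ≤ K := by
  obtain ⟨K0, hK0⟩ := h1
  obtain ⟨α, Λ, hα, hab⟩ := ABound.abound C b hb
  obtain ⟨K1, hK1d⟩ : ∃ K1, K1 = 2 * |K0| := ⟨_, rfl⟩
  obtain ⟨K, hKd⟩ : ∃ K, K = 1 + K1 ^ 2 * |Λ| / α ^ 3 := ⟨_, rfl⟩
  have hK1n : 0 ≤ K1 := by rw [hK1d]; positivity
  have hfr : 0 ≤ K1 ^ 2 * |Λ| / α ^ 3 := by positivity
  have hK1' : 1 ≤ K := by rw [hKd]; linarith
  have hKpos : 0 < K := by linarith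
  have hKK : K1 ^ 2 * |Λ| / (2 * α ^ 2) < α * K ^ 2 / 2 := by
    have e1 : K1 ^ 2 * |Λ| / (2 * α ^ 2) = α / 2 * (K1 ^ 2 * |Λ| / α ^ 3) := by
      field_simp
    have e2 : K1 ^ 2 * |Λ| / α ^ 3 < K ^ 2 := by
      have : K ≤ K ^ 2 := by nlinarith
      linarith
    rw [e1]
    have : α / 2 * (K1 ^ 2 * |Λ| / α ^ 3) < α / 2 * K ^ 2 :=
      mul_lt_mul_of_pos_left e2 (by positivity)
    linarith
  refine ⟨2 * K * |Λ|, fun t ht ε hε u hsol i₁ z₁ hz₁ => ?_⟩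
  have hε0 : 0 < ε := hε.1
  obtain ⟨δ, hδd⟩ : ∃ δ, δ = K * ε := ⟨_, rfl⟩
  have hδ : 0 < δ := by rw [hδd]; positivity
  obtain ⟨w, hwd⟩ : ∃ w : S → ℝ, w = fun x => Real.exp (t * b x) := ⟨_, rfl⟩
  have hwp : ∀ x, 0 < w x := by
    intro x
    rw [hwd]
    exact Real.exp_pos _
  rw [← hwd] at hsol ⊢
  have habw : ∀ i, ∀ z ∈ closedBall (0 : ℂ) 2, α ≤ C.a w i z ∧ C.a w i z ≤ Λ ∧ |lap (C.a w i) z| ≤ Λ := by
    intro i z hz
    rw [hwd]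
    exact hab t ht i z hz
  have hgrw : ∀ i, ∀ z ∈ ball (0 : ℂ) 2, ε * ‖gr (u ∘ (C.φ i).symm) z‖ ≤ K1 := by
    intro i z hz
    have e1 := hK0 t ht ε hε u (by rw [← hwd]; exact hsol) i z hz
    rw [pow_one] at e1
    have e2 := gr_le (u ∘ (C.φ i).symm) z
    have e3 := le_abs_self K0
    rw [hK1d]
    nlinarith
  have hap : ∀ i, ∀ z ∈ ball (0 : ℂ) 3, 0 < C.a w i z := fun i z hz =>
    mul_pos (C.ρ_pos i z hz) (hwp _)
  have has : ∀ i, ∀ z ∈ ball (0 : ℂ) 3, ContDiffAt ℝ ∞ (C.a w i) z := by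
    intro i z hz
    rw [hwd]
    exact (ABound.a_smooth C b hb t i).contDiffAt (isOpen_ball.mem_nhds hz)
  have hus : ∀ i, ∀ z ∈ ball (0 : ℂ) 3, ContDiffAt ℝ ∞ (u ∘ (C.φ i).symm) z := fun i z hz =>
    (hsol.smooth i).contDiffAt (isOpen_ball.mem_nhds hz)
  have hPs : ∀ i, ∀ z ∈ ball (0 : ℂ) 3,
      ContDiffAt ℝ ∞ (Pf ε δ (C.a w i) (u ∘ (C.φ i).symm)) z := fun i z hz =>
    PCalc1.contDiffAt_Pf (has i z hz) (hus i z hz) (hap i z hz).ne'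
  have h13 : closedBall (0 : ℂ) 1 ⊆ ball 0 3 := closedBall_subset_ball (by norm_num)
  -- the maximum
  have hmax : ∀ i, ∃ z ∈ closedBall (0 : ℂ) 1, ∀ y ∈ closedBall (0 : ℂ) 1,
      Pf ε δ (C.a w i) (u ∘ (C.φ i).symm) y ≤ Pf ε δ (C.a w i) (u ∘ (C.φ i).symm) z := by
    intro i
    obtain ⟨z, hz, hzm⟩ := (isCompact_closedBall (0 : ℂ) 1).exists_isMaxOn
      ⟨0, mem_closedBall_self zero_le_one⟩
      (fun z hz => (hPs i z (h13 hz)).continuousAt.continuousWithinAt)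
    exact ⟨z, hz, fun y hy => hzm hy⟩
  choose zm hzm1 hzm2 using hmax
  have : Nonempty (Fin C.n) := ⟨i₁⟩
  obtain ⟨i₀, hi₀⟩ := Finite.exists_max fun i => Pf ε δ (C.a w i) (u ∘ (C.φ i).symm) (zm i)
  have hglob : ∀ i, ∀ y ∈ ball (0 : ℂ) 3, Pf ε δ (C.a w i) (u ∘ (C.φ i).symm) y ≤
      Pf ε δ (C.a w i₀) (u ∘ (C.φ i₀).symm) (zm i₀) := by
    intro i y hy
    have hyt : y ∈ (C.φ i).target := by
      rw [C.target i]
      exact hy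
    have hxs : (C.φ i).symm y ∈ (C.φ i).source := (C.φ i).map_target hyt
    obtain ⟨j, hj1, hj2⟩ := C.cover ((C.φ i).symm y)
    have h := Conf.conf_Pf C w u hsol.smooth hwp ε δ i j ((C.φ i).symm y) hxs hj1
    rw [(C.φ i).right_inv hyt] at h
    rw [h]
    exact (hzm2 j _ (ball_subset_closedBall hj2)).trans (hi₀ j)
  have hz₀3 : zm i₀ ∈ ball (0 : ℂ) 3 := h13 (hzm1 i₀)
  have hloc : IsLocalMax (Pf ε δ (C.a w i₀) (u ∘ (C.φ i₀).symm)) (zm i₀) := by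
    filter_upwards [isOpen_ball.mem_nhds hz₀3] with y hy
    exact hglob i₀ y hy
  obtain ⟨hx, hy, hl⟩ := LocMax.lap_nonpos ((hPs i₀ _ hz₀3).of_le (by norm_cast)) hloc
  have hz₀2 : zm i₀ ∈ ball (0 : ℂ) 2 := closedBall_subset_ball (by norm_num) (hzm1 i₀)
  have hM : Pf ε δ (C.a w i₀) (u ∘ (C.φ i₀).symm) (zm i₀) ≤ 0 := by
    by_contra hcon
    push Not at hcon
    have heq : ∀ᶠ y in 𝓝 (zm i₀), ε ^ 2 * lap (u ∘ (C.φ i₀).symm) y =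
        C.a w i₀ y * Real.sin ((u ∘ (C.φ i₀).symm) y) := by
      filter_upwards [isOpen_ball.mem_nhds hz₀3] with y hy
      exact hsol.eq i₀ y hy
    have hk := PKey.key hε0 hδ (has i₀ _ hz₀3) (hus i₀ _ hz₀3) (hap i₀ _ hz₀3) heq
      (hsol.nonneg _) (hsol.le _) hx hy hcon (hgrw i₀ _ hz₀2)
    obtain ⟨b1, b2, b3⟩ := habw i₀ (zm i₀) (ball_subset_closedBall hz₀2)
    have e1 : C.a w i₀ (zm i₀) * δ ^ 2 / (2 * ε ^ 2) = C.a w i₀ (zm i₀) * K ^ 2 / 2 := by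
      rw [hδd]
      field_simp
    have e2 : α * K ^ 2 / 2 ≤ C.a w i₀ (zm i₀) * K ^ 2 / 2 := by
      have := mul_le_mul_of_nonneg_right b1 (sq_nonneg K)
      linarith
    have e3 : K1 ^ 2 * |lap (C.a w i₀) (zm i₀)| / (2 * C.a w i₀ (zm i₀) ^ 2) ≤
        K1 ^ 2 * |Λ| / (2 * α ^ 2) := by
      apply div_le_div₀ (by positivity)
      · exact mul_le_mul_of_nonneg_left (b3.trans (le_abs_self _)) (sq_nonneg _)
      · positivity
      · have := pow_le_pow_left₀ hα.le b1 2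
        linarith
    linarith
  -- the bound of the discrepancy
  have hz₁3 : z₁ ∈ ball (0 : ℂ) 3 := ball_subset_ball (by norm_num) hz₁
  have hP := (hglob i₁ z₁ hz₁3).trans hM
  obtain ⟨b1, b2, b3⟩ := habw i₁ z₁ (ball_subset_closedBall hz₁)
  have ha0 := hap i₁ z₁ hz₁3
  unfold Pf at hP
  unfold disc
  rw [norm_gr_sq]
  generalize dx (u ∘ (C.φ i₁).symm) z₁ ^ 2 + dy (u ∘ (C.φ i₁).symm) z₁ ^ 2 = q at hP ⊢
  generalize (u ∘ (C.φ i₁).symm) z₁ = U at hP ⊢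
  generalize C.a w i₁ z₁ = a at *
  have hs := Real.sin_le_one (U / 2)
  have e1 : ε ^ 2 * q / (2 * a) - (1 - Real.cos U) ≤ 2 * δ := by nlinarith
  have e2 : ε / 2 * q - 1 / ε * (a * (1 - Real.cos U)) =
      a / ε * (ε ^ 2 * q / (2 * a) - (1 - Real.cos U)) := by
    field_simp
  rw [e2]
  have e3 : a / ε * (ε ^ 2 * q / (2 * a) - (1 - Real.cos U)) ≤ a / ε * (2 * δ) :=
    mul_le_mul_of_nonneg_left e1 (by positivity)
  have e4 : a / ε * (2 * δ) = 2 * K * a := by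
    rw [hδd]
    field_simp
  have e5 : 2 * K * a ≤ 2 * K * |Λ| :=
    mul_le_mul_of_nonneg_left (b2.trans (le_abs_self _)) (by positivity)
  linarith

end Pool.Agent.Helper59.CL.Modica
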