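import Pool.Agent.Helper59.CL.MonoD
import Pool.Agent.Helper59.CL.DensLow
import Pool.Agent.Helper59.CL.Modica
import Pool.Agent.Helper85.CL.Inputs
import Pool.Agent.Helper53.CL.Iface

/-!
# Project CL, blocks D1 to D3: final statements
-/

namespace Pool.Agent.Helper59.CL.Main

open MeasureTheory Filter Topology Metric
open Pool.Agent.Helper53.CL Pool.Agent.Helper59.CL
open scoped ContDiff Real

/-- Density bounds for the limit measure in every smaller disc. -/
theorem densR : Pool.Agent.Helper85.CL.DensR := by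
  intro a aj ε u μ h hμ hfin R hR
  exact DensLow.dens h hμ hfin hR

/-- Density bounds for the limit measure. -/
theorem dens : Iface.Dens := by
  intro a aj ε u μ h hμ hfin
  obtain ⟨c, K, r0, hc, hr0, h1, h2⟩ := DensLow.dens h hμ hfin (R := 3 / 2) (by norm_num)
  exact ⟨c, K, r0, hc, hr0, fun x hx => h1 x (ball_subset_closedBall hx), fun x hx => h2 x (ball_subset_closedBall hx)⟩

theorem cut_eq (x : ℂ) (r : ℝ) (z : ℂ) : Pool.Agent.Helper85.CL.cut x r z = cut x r z := by
  unfold Pool.Agent.Helper85.CL.cut cut ps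
  rw [max_comm]

/-- Dyadic monotonicity formula with the negative part of the discrepancy. -/
theorem monoD : Pool.Agent.Helper85.CL.MonoD := by
  intro a aj ε u h R hR
  obtain ⟨C, r0, hr0, hR0, hM⟩ := MonoD.monoD h hR
  refine ⟨C, r0, hr0, hR0, fun j x hx s hs => ?_⟩
  simp only [cut_eq]
  exact hM j x (by simpa [mem_closedBall, dist_zero_right] using hx) s hs

/-- The second half of `Iface.Unif`, from the first half (`k = 1`). -/
theorem unif_disc {S : Type*} [TopologicalSpace S] [CompactSpace S] [T2Space S] [MeasurableSpace S] [BorelSpace S]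
    (C : CSurf S) (b : S → ℝ) (hb : C.IsSmooth b)
    (h1 : ∃ K, ∀ t ∈ Set.Icc (0 : ℝ) 1, ∀ ε ∈ Set.Ioc (0 : ℝ) 1, ∀ u,
      C.IsSol ε (fun x => Real.exp (t * b x)) u → ∀ i, ∀ z ∈ ball (0 : ℂ) 2,
        ε ^ 1 * ‖iteratedFDeriv ℝ 1 (u ∘ (C.φ i).symm) z‖ ≤ K) :
    ∃ K, ∀ t ∈ Set.Icc (0 : ℝ) 1, ∀ ε ∈ Set.Ioc (0 : ℝ) 1, ∀ u,
      C.IsSol ε (fun x => Real.exp (t * b x)) u → ∀ i, ∀ z ∈ ball (0 : ℂ) 2,
        disc ε (C.a (fun x => Real.exp (t * b x)) i) (u ∘ (C.φ i).symm) z ≤ K := by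
  exact Modica.modica C b hb h1

end Pool.Agent.Helper59.CL.Main
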