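import Pool.Agent.Helper53.CL.Defs

/-!
# Project CL, block D: the cutoff functions and the weighted energy `J`
-/

namespace Pool.Agent.Helper59.CL

open MeasureTheory Filter Topology Metric
open Pool.Agent.Helper53.CL
open scoped ContDiff Real

/-- The cutoff profile, of class `C^1`. -/
noncomputable def ps (t : ℝ) : ℝ := (max 0 (1 - t)) ^ 2

/-- The derivative of `ps`. -/
noncomputable def dps (t : ℝ) : ℝ := -2 * max 0 (1 - t)

/-- The real inner product of complex numbers. -/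
def ip (v w : ℂ) : ℝ := v.re * w.re + v.im * w.im

/-- The cutoff function with centre `x` and radius `r`. -/
noncomputable def cut (x : ℂ) (r : ℝ) (z : ℂ) : ℝ := ps (‖z - x‖ ^ 2 / r ^ 2)

/-- The weighted energy. -/
noncomputable def J (ε : ℝ) (a u : ℂ → ℝ) (x : ℂ) (r : ℝ) : ℝ := ∫ z, cut x r z * ed ε a u z

theorem ps_nonneg (t : ℝ) : 0 ≤ ps t := sq_nonneg _

theorem ps_le_one {t : ℝ} (ht : 0 ≤ t) : ps t ≤ 1 := by
  unfold ps
  have h1 : max 0 (1 - t) ≤ 1 := max_le zero_le_one (by linarith)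
  have h0 : 0 ≤ max 0 (1 - t) := le_max_left _ _
  nlinarith

theorem ps_eq_zero {t : ℝ} (ht : 1 ≤ t) : ps t = 0 := by
  unfold ps
  rw [max_eq_left (by linarith)]
  simp

theorem dps_eq_zero {t : ℝ} (ht : 1 ≤ t) : dps t = 0 := by
  unfold dps
  rw [max_eq_left (by linarith)]
  simp

theorem le_ps {t : ℝ} (ht : t ≤ 1 / 4) : 9 / 16 ≤ ps t := by
  unfold ps
  rw [max_eq_right (by linarith)]
  nlinarith

theorem dps_nonpos (t : ℝ) : dps t ≤ 0 := by
  unfold dps
  have h0 : 0 ≤ max 0 (1 - t) := le_max_left _ _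
  linarith

theorem dps_sq (t : ℝ) : dps t ^ 2 = 4 * ps t := by
  unfold dps ps
  ring

theorem abs_dps_le {t : ℝ} (ht : 0 ≤ t) : |dps t| ≤ 2 := by
  unfold dps
  have h1 : max 0 (1 - t) ≤ 1 := max_le zero_le_one (by linarith)
  have h0 : 0 ≤ max 0 (1 - t) := le_max_left _ _
  rw [abs_le]
  constructor <;> linarith

theorem continuous_dps : Continuous dps := by
  unfold dps
  fun_prop

theorem hasDerivAt_ps (t : ℝ) : HasDerivAt ps (dps t) t := by
  rcases lt_trichotomy t 1 with h | h | h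
  · have h1 : HasDerivAt (fun s : ℝ => (1 - s) ^ 2) (2 * (1 - t) ^ 1 * (-1)) t :=
      ((hasDerivAt_id t).const_sub 1).pow 2
    have h2 : ps =ᶠ[𝓝 t] fun s => (1 - s) ^ 2 := by
      filter_upwards [gt_mem_nhds h] with s hs
      unfold ps
      rw [max_eq_right (by linarith)]
    have h3 : dps t = 2 * (1 - t) ^ 1 * (-1) := by
      unfold dps
      rw [max_eq_right (by linarith)]
      ring
    rw [h3]
    exact h1.congr_of_eventuallyEq h2
  · subst h
    have h3 : dps 1 = 0 := dps_eq_zero le_rfl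
    rw [h3, hasDerivAt_iff_isLittleO]
    have h4 : (fun x' : ℝ => ps x' - ps 1 - (x' - 1) • (0 : ℝ)) =O[𝓝 1] fun x' => (x' - 1) * (x' - 1) := by
      apply Asymptotics.IsBigO.of_bound 1
      refine Eventually.of_forall fun s => ?_
      rw [ps_eq_zero (le_refl (1 : ℝ))]
      simp only [sub_zero, smul_zero, Real.norm_eq_abs, one_mul]
      rw [abs_of_nonneg (ps_nonneg s), abs_of_nonneg (mul_self_nonneg _)]
      unfold ps
      rcases le_total 0 (1 - s) with h | h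
      · rw [max_eq_right h]
        nlinarith
      · rw [max_eq_left h]
        nlinarith [mul_self_nonneg (s - 1)]
    have h5 : (fun x' : ℝ => (x' - 1) * (x' - 1)) =o[𝓝 1] fun x' => (x' - 1) * (1 : ℝ) := by
      apply Asymptotics.IsBigO.mul_isLittleO (Asymptotics.isBigO_refl _ _)
      rw [Asymptotics.isLittleO_one_iff]
      have : Tendsto (fun x' : ℝ => x' - 1) (𝓝 1) (𝓝 (1 - 1)) := tendsto_id.sub_const 1
      simpa using this
    simpa using h4.trans_isLittleO h5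
  · have h2 : ps =ᶠ[𝓝 t] fun _ => 0 := by
      filter_upwards [lt_mem_nhds h] with s hs
      exact ps_eq_zero hs.le
    rw [dps_eq_zero h.le]
    exact (hasDerivAt_const t (0 : ℝ)).congr_of_eventuallyEq h2

theorem contDiff_ps : ContDiff ℝ 1 ps := by
  rw [contDiff_one_iff_deriv]
  refine ⟨fun t => (hasDerivAt_ps t).differentiableAt, ?_⟩
  have : deriv ps = dps := funext fun t => (hasDerivAt_ps t).deriv
  rw [this]
  exact continuous_dps

theorem norm_sq_eq (z : ℂ) : ‖z‖ ^ 2 = z.re ^ 2 + z.im ^ 2 := by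
  rw [← Complex.normSq_eq_norm_sq, Complex.normSq_apply]
  ring

theorem cut_nonneg (x : ℂ) (r : ℝ) (z : ℂ) : 0 ≤ cut x r z := ps_nonneg _

theorem cut_le_one (x : ℂ) (r : ℝ) (z : ℂ) : cut x r z ≤ 1 := ps_le_one (by positivity)

theorem cut_eq_zero {x : ℂ} {r : ℝ} {z : ℂ} (hr : 0 < r) (h : r ≤ ‖z - x‖) : cut x r z = 0 := by
  apply ps_eq_zero
  rw [le_div_iff₀ (by positivity), one_mul]
  exact pow_le_pow_left₀ hr.le h 2

theorem dps_eq_zero' {x : ℂ} {r : ℝ} {z : ℂ} (hr : 0 < r) (h : r ≤ ‖z - x‖) :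
    dps (‖z - x‖ ^ 2 / r ^ 2) = 0 := by
  apply dps_eq_zero
  rw [le_div_iff₀ (by positivity), one_mul]
  exact pow_le_pow_left₀ hr.le h 2

theorem le_cut {x : ℂ} {r : ℝ} {z : ℂ} (hr : 0 < r) (h : ‖z - x‖ ≤ r / 2) : 9 / 16 ≤ cut x r z := by
  apply le_ps
  rw [div_le_iff₀ (by positivity)]
  have := pow_le_pow_left₀ (norm_nonneg _) h 2
  nlinarith

theorem contDiff_cut (x : ℂ) (r : ℝ) : ContDiff ℝ 1 (cut x r) := by
  have h : ContDiff ℝ 1 (fun z : ℂ => ‖z - x‖ ^ 2 / r ^ 2) :=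
    ((contDiff_id.sub contDiff_const).norm_sq ℝ).div_const _
  exact contDiff_ps.comp h

theorem continuous_cut (x : ℂ) (r : ℝ) : Continuous (cut x r) := (contDiff_cut x r).continuous

theorem hasFDerivAt_normSq (x z : ℂ) :
    HasFDerivAt (fun y : ℂ => ‖y - x‖ ^ 2) (2 • (innerSL ℝ (z - x))) z := by
  have h := (hasFDerivAt_id (𝕜 := ℝ) z).sub_const x
  simpa using h.norm_sq

theorem fderiv_cut (x : ℂ) (r : ℝ) (z v : ℂ) :
    fderiv ℝ (cut x r) z v = 2 * dps (‖z - x‖ ^ 2 / r ^ 2) / r ^ 2 * ip (z - x) v := by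
  have h1 := (hasFDerivAt_normSq x z).mul_const ((r ^ 2)⁻¹)
  have h2 : HasFDerivAt (fun y : ℂ => ps (‖y - x‖ ^ 2 * (r ^ 2)⁻¹)) _ z :=
    (hasDerivAt_ps _).comp_hasFDerivAt z h1
  have h3 : cut x r = fun y : ℂ => ps (‖y - x‖ ^ 2 * (r ^ 2)⁻¹) := by
    funext y
    rw [cut, div_eq_mul_inv]
  rw [h3, h2.fderiv]
  simp only [smul_apply, smul_eq_mul, nsmul_eq_mul]
  have h4 : inner ℝ (z - x) v = ip (z - x) v := by
    rw [Complex.inner, ip]
    simp [Complex.mul_re]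
    ring
  simp only [innerSL_apply_apply, h4]
  simp only [div_eq_mul_inv]
  push_cast
  ring

theorem dx_cut (x : ℂ) (r : ℝ) (z : ℂ) :
    dx (cut x r) z = 2 * dps (‖z - x‖ ^ 2 / r ^ 2) / r ^ 2 * (z - x).re := by
  rw [dx, fderiv_cut]
  simp [ip]

theorem dy_cut (x : ℂ) (r : ℝ) (z : ℂ) :
    dy (cut x r) z = 2 * dps (‖z - x‖ ^ 2 / r ^ 2) / r ^ 2 * (z - x).im := by
  rw [dy, fderiv_cut]
  simp [ip]

theorem tsupport_cut {x : ℂ} {r : ℝ} (hr : 0 < r) : tsupport (cut x r) ⊆ closedBall x r := by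
  apply closure_minimal _ isClosed_closedBall
  intro z hz
  rw [mem_closedBall, dist_eq_norm]
  by_contra h
  exact hz (cut_eq_zero hr (not_le.1 h).le)

theorem hasCompactSupport_cut {x : ℂ} {r : ℝ} (hr : 0 < r) : HasCompactSupport (cut x r) :=
  HasCompactSupport.of_support_subset_isCompact (isCompact_closedBall x r)
    (fun _ hz => tsupport_cut hr (subset_tsupport _ hz))

theorem ed_nonneg {ε : ℝ} {a u : ℂ → ℝ} {z : ℂ} (hε : 0 < ε) (ha : 0 ≤ a z) : 0 ≤ ed ε a u z := by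
  unfold ed
  have := Real.cos_le_one (u z)
  have h : 0 ≤ a z * (1 - Real.cos (u z)) := mul_nonneg ha (by linarith)
  positivity

theorem norm_gr_sq (u : ℂ → ℝ) (z : ℂ) : ‖gr u z‖ ^ 2 = dx u z ^ 2 + dy u z ^ 2 := norm_sq_eq _

end Pool.Agent.Helper59.CL
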