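import Pool.Agent.Helper59.CL.Upper

/-!
# Project CL, block D3: upper density bound of the limit measure (all `R < 2`)

Proof.  Let `K` be the constant of `Upper.upper`.  For `‖x‖ ≤ R`, `0 < r < (2 - R)/4`: `cut x (2r)` is continuous with compact
support in `closedBall x (2r) ⊆ ball 0 2`, so `∫ cut x (2r) dμ = lim J_j x (2r) ≤ 2 K r` (`EConv`; `le_of_tendsto`), and
`(9/16) 1_{ball x r} ≤ cut x (2r)` (`le_cut`), so `(9/16) μ (ball x r) ≤ 2 K r` (the measure is finite; pass from the real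
integral to `μ` with `ofReal`, `measureReal`).
-/

namespace Pool.Agent.Helper59.CL.DensUp

open MeasureTheory Filter Topology Metric
open Pool.Agent.Helper53.CL Pool.Agent.Helper59.CL
open scoped ContDiff Real

theorem dens_upper {a : ℂ → ℝ} {aj : ℕ → ℂ → ℝ} {ε : ℕ → ℝ} {u : ℕ → ℂ → ℝ} {μ : Measure ℂ}
    (h : LocSeq a aj ε u) (hμ : EConv aj ε u μ) (hfin : IsFiniteMeasure μ) {R : ℝ} (hR : R < 2) :
    ∃ K : ℝ, 0 < K ∧ ∀ x : ℂ, ‖x‖ ≤ R → ∀ r ∈ Set.Ioo (0 : ℝ) ((2 - R) / 4), μ (ball x r) ≤ ENNReal.ofReal (K * r) := by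
  obtain ⟨K, hK, hup⟩ := Upper.upper h hR
  refine ⟨32 / 9 * K, by positivity, ?_⟩
  intro x hx r hr
  obtain ⟨hr0, hr1⟩ := hr
  have h2r : 0 < 2 * r := by linarith
  have hts : tsupport (cut x (2 * r)) ⊆ ball (0 : ℂ) 2 := by
    intro z hz
    have h1 := tsupport_cut h2r hz
    rw [mem_closedBall, dist_eq_norm] at h1
    rw [mem_ball_zero_iff]
    calc ‖z‖ = ‖(z - x) + x‖ := by rw [sub_add_cancel]
      _ ≤ ‖z - x‖ + ‖x‖ := norm_add_le _ _
      _ < 2 := by linarith
  have hlim := hμ (cut x (2 * r)) (continuous_cut _ _) (hasCompactSupport_cut h2r) hts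
  have h1 : ∫ z, cut x (2 * r) z ∂μ ≤ K * (2 * r) := by
    refine le_of_tendsto' hlim fun j => ?_
    exact hup j x hx (2 * r) ⟨h2r, by linarith⟩
  have h2 : 9 / 16 * μ.real (ball x r) ≤ ∫ z, cut x (2 * r) z ∂μ := by
    have h3 : ∫ z, (ball x r).indicator (fun _ => (9 / 16 : ℝ)) z ∂μ = 9 / 16 * μ.real (ball x r) := by
      rw [integral_indicator measurableSet_ball, setIntegral_const, smul_eq_mul, mul_comm]
    rw [← h3]
    refine integral_mono ?_ ((continuous_cut _ _).integrable_of_hasCompactSupport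
      (hasCompactSupport_cut h2r)) fun z => ?_
    · rw [integrable_indicator_iff measurableSet_ball]
      exact integrableOn_const (measure_ne_top μ _)
    · show (ball x r).indicator (fun _ => (9 / 16 : ℝ)) z ≤ cut x (2 * r) z
      by_cases hz : z ∈ ball x r
      · rw [Set.indicator_of_mem hz]
        rw [mem_ball, dist_eq_norm] at hz
        exact le_cut h2r (by linarith)
      · rw [Set.indicator_of_notMem hz]
        exact cut_nonneg _ _ _
  have h3 : μ.real (ball x r) ≤ 32 / 9 * K * r := by linarith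
  rw [← ENNReal.ofReal_toReal (measure_ne_top μ (ball x r))]
  exact ENNReal.ofReal_le_ofReal h3

end Pool.Agent.Helper59.CL.DensUp
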