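import Pool.Agent.Helper59.CL.Cut

/-!
# Project CL, block D2: integrals of derivatives of compactly supported functions; integrability

Proof of `integral_dx`.  `f` is `C^1` with compact support; take a smooth `χ` with compact support and `χ = 1` on a
neighbourhood of `tsupport f` (`exists_contDiff_tsupport_subset` or `exists_smooth...`), then integration by parts
`integral_bilinear_hasFDerivAt_right_eq_neg_left_of_integrable` / `integral_mul_fderiv_eq_neg_fderiv_mul_of_integrable`
(Mathlib.Analysis.Calculus.LineDeriv.IntegrationByParts) gives `∫ χ * D f v = - ∫ D χ v * f = 0`; or directly by Fubini.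
The same for the real valued and complex valued version (`integral_dx_c`).
`integrable_cut_mul`: `cut x r` is continuous with support in `closedBall x r ⊆ ball 0 3`, `h` is continuous on
`ball 0 3`, so the product is continuous on `ℂ` (`continuous_of...`, zero outside `closedBall x r`) with compact support.
The same for `dps (‖z - x‖ ^ 2 / r ^ 2) * h z`.
-/

namespace Pool.Agent.Helper59.CL.Div

open MeasureTheory Filter Topology Metric
open Pool.Agent.Helper53.CL Pool.Agent.Helper59.CL
open scoped ContDiff Real

private theorem integral_fderiv {f : ℂ → ℝ} (hf : ContDiff ℝ 1 f) (hs : HasCompactSupport f) (v : ℂ) :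
    ∫ z, fderiv ℝ f z v = 0 := by
  have h1 : Integrable f := hf.continuous.integrable_of_hasCompactSupport hs
  have h2 : Integrable (fun z => fderiv ℝ f z v) :=
    Continuous.integrable_of_hasCompactSupport
      ((hf.continuous_fderiv (by simp)).clm_apply continuous_const) (hs.fderiv_apply ℝ v)
  have h3 := integral_mul_fderiv_eq_neg_fderiv_mul_of_integrable (𝕜 := ℝ) (μ := (volume : Measure ℂ))
    (f := fun _ : ℂ => (1 : ℝ)) (g := f) (v := v) (by simp) (by simpa using h2) (by simpa using h1)
    (fun x _ => differentiableAt_const _) (fun x _ => hf.differentiable (by simp) x)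
  simpa using h3

theorem integral_dx {f : ℂ → ℝ} (hf : ContDiff ℝ 1 f) (hs : HasCompactSupport f) : ∫ z, dx f z = 0 :=
  integral_fderiv hf hs 1

theorem integral_dy {f : ℂ → ℝ} (hf : ContDiff ℝ 1 f) (hs : HasCompactSupport f) : ∫ z, dy f z = 0 :=
  integral_fderiv hf hs Complex.I

private theorem integrable_mul {c h : ℂ → ℝ} (hc : Continuous c) (hh : ContinuousOn h (ball 0 3)) {x : ℂ} {r : ℝ}
    (h0 : ∀ z, r ≤ ‖z - x‖ → c z = 0) (hx : ‖x‖ + r < 3) : Integrable (fun z => c z * h z) := by
  refine Continuous.integrable_of_hasCompactSupport ?_ ?_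
  · rw [continuous_iff_continuousAt]
    intro z
    by_cases hz : z ∈ ball (0 : ℂ) 3
    · exact hc.continuousAt.mul (hh.continuousAt (isOpen_ball.mem_nhds hz))
    · have h1 : z ∉ closedBall x r := by
        intro h
        rw [mem_closedBall, dist_eq_norm] at h
        apply hz
        rw [mem_ball_zero_iff]
        calc ‖z‖ = ‖(z - x) + x‖ := by rw [sub_add_cancel]
          _ ≤ ‖z - x‖ + ‖x‖ := norm_add_le _ _
          _ < 3 := by linarith
      have h2 : (fun z => c z * h z) =ᶠ[𝓝 z] fun _ => 0 := by
        filter_upwards [isClosed_closedBall.isOpen_compl.mem_nhds h1] with y hy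
        rw [Set.mem_compl_iff, mem_closedBall, dist_eq_norm, not_le] at hy
        rw [h0 y hy.le, zero_mul]
      exact continuousAt_const.congr h2.symm
  · refine HasCompactSupport.intro (isCompact_closedBall x r) fun z hz => ?_
    rw [mem_closedBall, dist_eq_norm, not_le] at hz
    rw [h0 z hz.le, zero_mul]

theorem integrable_cut_mul {h : ℂ → ℝ} (hh : ContinuousOn h (ball 0 3)) {x : ℂ} {r : ℝ} (hr : 0 < r)
    (hx : ‖x‖ + r < 3) : Integrable (fun z => cut x r z * h z) :=
  integrable_mul (continuous_cut x r) hh (fun _ hz => cut_eq_zero hr hz) hx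

theorem integrable_dps_mul {h : ℂ → ℝ} (hh : ContinuousOn h (ball 0 3)) {x : ℂ} {r : ℝ} (hr : 0 < r)
    (hx : ‖x‖ + r < 3) : Integrable (fun z => dps (‖z - x‖ ^ 2 / r ^ 2) * h z) :=
  integrable_mul (c := fun z => dps (‖z - x‖ ^ 2 / r ^ 2)) (continuous_dps.comp (by fun_prop)) hh
    (fun _ hz => dps_eq_zero' hr hz) hx

end Pool.Agent.Helper59.CL.Div
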