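import Pool.Agent.Helper59.CL.Div

/-!
# Project CL, block D2: differentiation of weighted integrals with respect to the radius

Proof.  `hasDerivAt_integral_of_dominated_loc_of_deriv_le` on a neighbourhood `(r/2, r')` of `r` with `‖x‖ + r' < 2`:
for `s` in it the function `z ↦ cut x s z * h z` is integrable (`Div.integrable_cut_mul`), the derivative in `s` at
every `z` is `dps (‖z-x‖^2/s^2) * (-2 ‖z-x‖^2/s^3) * h z` (`hasDerivAt_ps` and the chain rule), which vanishes outside
`closedBall x r'` and is bounded by `2 * 2 * r'^2 / (r/2)^3 * sup |h|` on it (`abs_dps_le`; `h` is continuous on the compact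
set `closedBall x r' ⊆ ball 0 3`); the bound times the indicator of `closedBall x r'` is integrable.  Measurability of
`z ↦ cut x s z * h z`: from integrability.
-/

namespace Pool.Agent.Helper59.CL.JDer

open MeasureTheory Filter Topology Metric
open Pool.Agent.Helper53.CL Pool.Agent.Helper59.CL
open scoped ContDiff Real

theorem hasDerivAt_integral_cut {h : ℂ → ℝ} (hh : ContinuousOn h (ball 0 3)) {x : ℂ} {r : ℝ} (hr : 0 < r)
    (hx : ‖x‖ + r < 2) :
    HasDerivAt (fun s => ∫ z, cut x s z * h z)
      (∫ z, dps (‖z - x‖ ^ 2 / r ^ 2) * (-(2 * ‖z - x‖ ^ 2 / r ^ 3) * h z)) r := by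
  set r' : ℝ := (2 - ‖x‖ + r) / 2 with hr'
  have h1 : r < r' := by rw [hr']; linarith
  have h2 : ‖x‖ + r' < 2 := by rw [hr']; linarith
  have hr'0 : 0 < r' := hr.trans h1
  have hsub : closedBall x r' ⊆ ball (0 : ℂ) 3 := by
    intro z hz
    rw [mem_closedBall, dist_eq_norm] at hz
    rw [mem_ball_zero_iff]
    calc ‖z‖ = ‖(z - x) + x‖ := by rw [sub_add_cancel]
      _ ≤ ‖z - x‖ + ‖x‖ := norm_add_le _ _
      _ < 3 := by linarith
  obtain ⟨M, hM⟩ := (isCompact_closedBall x r').exists_bound_of_continuousOn (hh.mono hsub)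
  have hM0 : 0 ≤ M := (norm_nonneg _).trans (hM x (mem_closedBall_self hr'0.le))
  have hnhds : Set.Ioo (r / 2) r' ∈ 𝓝 r := Ioo_mem_nhds (by linarith) h1
  have hcont' : ContinuousOn (fun z => -(2 * ‖z - x‖ ^ 2 / r ^ 3) * h z) (ball 0 3) :=
    ContinuousOn.mul (by fun_prop) hh
  have key := hasDerivAt_integral_of_dominated_loc_of_deriv_le (μ := (volume : Measure ℂ))
    (F := fun (s : ℝ) z => cut x s z * h z)
    (F' := fun (s : ℝ) z => dps (‖z - x‖ ^ 2 / s ^ 2) * (-(2 * ‖z - x‖ ^ 2 / s ^ 3) * h z))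
    (x₀ := r) (s := Set.Ioo (r / 2) r')
    (bound := (closedBall x r').indicator fun _ => 2 * (2 * r' ^ 2 / (r / 2) ^ 3 * M)) hnhds
    (by
      filter_upwards [hnhds] with s hs
      exact (Div.integrable_cut_mul hh (by linarith [hs.1]) (by linarith [hs.2])).aestronglyMeasurable)
    (Div.integrable_cut_mul hh hr (by linarith))
    (Div.integrable_dps_mul hcont' hr (by linarith)).aestronglyMeasurable
    (Eventually.of_forall fun z s hs => by
      have hs0 : 0 < s := by linarith [hs.1]
      by_cases hz : z ∈ closedBall x r'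
      · rw [Set.indicator_of_mem hz, Real.norm_eq_abs, abs_mul, abs_mul, abs_neg]
        have hzr : ‖z - x‖ ≤ r' := by rwa [mem_closedBall, dist_eq_norm] at hz
        have h3 : |2 * ‖z - x‖ ^ 2 / s ^ 3| ≤ 2 * r' ^ 2 / (r / 2) ^ 3 := by
          rw [abs_of_nonneg (by positivity)]
          have h4 : ‖z - x‖ ^ 2 ≤ r' ^ 2 := pow_le_pow_left₀ (norm_nonneg _) hzr 2
          have h5 : (r / 2) ^ 3 ≤ s ^ 3 := pow_le_pow_left₀ (by positivity) hs.1.le 3
          gcongr
        have h6 : |h z| ≤ M := hM z hz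
        refine mul_le_mul (abs_dps_le (by positivity)) ?_ (by positivity) zero_le_two
        exact mul_le_mul h3 h6 (abs_nonneg _) (by positivity)
      · rw [Set.indicator_of_notMem hz]
        rw [mem_closedBall, dist_eq_norm, not_le] at hz
        rw [dps_eq_zero' hs0 (by linarith [hs.2])]
        simp)
    (by
      rw [integrable_indicator_iff measurableSet_closedBall]
      exact integrableOn_const (isCompact_closedBall x r').measure_lt_top.ne)
    (Eventually.of_forall fun z s hs => by
      have hs0 : 0 < s := by linarith [hs.1]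
      have h3 : HasDerivAt (fun s : ℝ => ‖z - x‖ ^ 2 / s ^ 2) (-(2 * ‖z - x‖ ^ 2 / s ^ 3)) s := by
        have h4 : HasDerivAt (fun s : ℝ => s ^ 2) (2 * s) s := by
          simpa using hasDerivAt_pow 2 s
        have h5 := (hasDerivAt_const s (‖z - x‖ ^ 2)).div h4 (by positivity)
        refine h5.congr_deriv ?_
        field_simp
        ring
      have h6 : HasDerivAt (fun s : ℝ => ps (‖z - x‖ ^ 2 / s ^ 2))
          (dps (‖z - x‖ ^ 2 / s ^ 2) * -(2 * ‖z - x‖ ^ 2 / s ^ 3)) s :=
        (hasDerivAt_ps _).comp s h3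
      have h7 := h6.mul_const (h z)
      rw [mul_assoc] at h7
      exact h7)
  exact key.2

end Pool.Agent.Helper59.CL.JDer
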