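import Pool.Agent.Helper59.CL.Cut

/-!
# Project CL, block D1: the Laplacian at a local maximum

Proof.  `dx f z = 0`, `dy f z = 0`: `IsLocalMax.fderiv_eq_zero`.  For a direction `v` put `g t = f (z + t v)`: `g` is
`C^2` near `0`, has a local maximum at `0`, `deriv g 0 = fderiv f z v`, `deriv (deriv g) 0 = fderiv (fun y => fderiv f y v) z v`.
If `deriv (deriv g) 0 > 0` then `isLocalMin_of_deriv_deriv_pos` gives a local minimum, so `g` is constant near `0`
and the second derivative is `0`, contradiction.  Apply this with `v = 1` and `v = I` and add.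
-/

namespace Pool.Agent.Helper59.CL.LocMax

open MeasureTheory Filter Topology Metric
open Pool.Agent.Helper53.CL Pool.Agent.Helper59.CL
open scoped ContDiff Real

private theorem dir_deriv {f : ℂ → ℝ} {z : ℂ} (hf : ContDiffAt ℝ 2 f z) (v : ℂ) :
    (fun t : ℝ => deriv (fun t : ℝ => f (z + t • v)) t) =ᶠ[𝓝 0] fun t => fderiv ℝ f (z + t • v) v := by
  have h1 : ∀ᶠ y in 𝓝 z, DifferentiableAt ℝ f y := by
    filter_upwards [hf.eventually (by simp)] with y hy using hy.differentiableAt (by simp)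
  have hc : Tendsto (fun t : ℝ => z + t • v) (𝓝 0) (𝓝 z) := by
    have : Continuous (fun t : ℝ => z + t • v) := by fun_prop
    have h := this.tendsto 0
    simpa using h
  filter_upwards [hc.eventually h1] with t ht
  have hl : HasDerivAt (fun t : ℝ => z + t • v) v t := by
    have := ((hasDerivAt_id t).smul_const v).const_add z
    simpa using this
  exact (ht.hasFDerivAt.comp_hasDerivAt t hl).deriv

private theorem dir_deriv2 {f : ℂ → ℝ} {z : ℂ} (hf : ContDiffAt ℝ 2 f z) (v : ℂ) :
    deriv (deriv (fun t : ℝ => f (z + t • v))) 0 = fderiv ℝ (fun y => fderiv ℝ f y v) z v := by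
  have h1 : deriv (deriv (fun t : ℝ => f (z + t • v))) 0 =
      deriv (fun t : ℝ => fderiv ℝ f (z + t • v) v) 0 := (dir_deriv hf v).deriv_eq
  rw [h1]
  have h2 : ContDiffAt ℝ 1 (fderiv ℝ f) z := hf.fderiv_right (by norm_num)
  have h3 : DifferentiableAt ℝ (fun y => fderiv ℝ f y v) z :=
    (h2.differentiableAt (by simp)).clm_apply (differentiableAt_const v)
  have hl : HasDerivAt (fun t : ℝ => z + t • v) v 0 := by
    have := ((hasDerivAt_id (0 : ℝ)).smul_const v).const_add z
    simpa using this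
  have h4 : HasFDerivAt (fun y => fderiv ℝ f y v) (fderiv ℝ (fun y => fderiv ℝ f y v) z) (z + (0 : ℝ) • v) := by
    rw [zero_smul, add_zero]
    exact h3.hasFDerivAt
  exact (h4.comp_hasDerivAt (0 : ℝ) hl).deriv

private theorem dir_nonpos {f : ℂ → ℝ} {z : ℂ} (hf : ContDiffAt ℝ 2 f z) (h : IsLocalMax f z) (v : ℂ) :
    fderiv ℝ (fun y => fderiv ℝ f y v) z v ≤ 0 := by
  rw [← dir_deriv2 hf v]
  by_contra hcon
  push Not at hcon
  have hcont : Continuous (fun t : ℝ => z + t • v) := by fun_prop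
  have hc : Tendsto (fun t : ℝ => z + t • v) (𝓝 0) (𝓝 z) := by
    have h := hcont.tendsto 0
    simpa using h
  have hmax : ∀ᶠ t in 𝓝 (0 : ℝ), f (z + t • v) ≤ f z := hc.eventually h
  have hmax' : IsLocalMax (fun t : ℝ => f (z + t • v)) 0 := by
    filter_upwards [hmax] with t ht
    simpa using ht
  have hg : ContinuousAt (fun t : ℝ => f (z + t • v)) 0 := by
    have h1 : ContinuousAt f (z + (0 : ℝ) • v) := by
      rw [zero_smul, add_zero]
      exact hf.continuousAt
    exact ContinuousAt.comp (f := fun t : ℝ => z + t • v) (g := f) h1 hcont.continuousAt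
  have hmin := isLocalMin_of_deriv_deriv_pos hcon hmax'.deriv_eq_zero hg
  have heq : (fun t : ℝ => f (z + t • v)) =ᶠ[𝓝 0] fun _ => f z := by
    filter_upwards [hmax, hmin] with t h1 h2
    refine le_antisymm h1 ?_
    simpa using h2
  have h5 : deriv (fun t : ℝ => f (z + t • v)) =ᶠ[𝓝 0] deriv (fun _ : ℝ => f z) := heq.deriv
  have h6 := h5.deriv_eq
  rw [h6] at hcon
  simp at hcon

theorem lap_nonpos {f : ℂ → ℝ} {z : ℂ} (hf : ContDiffAt ℝ 2 f z) (h : IsLocalMax f z) :
    dx f z = 0 ∧ dy f z = 0 ∧ lap f z ≤ 0 := by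
  have h0 := h.fderiv_eq_zero
  refine ⟨?_, ?_, ?_⟩
  · unfold dx
    rw [h0]
    rfl
  · unfold dy
    rw [h0]
    rfl
  · exact add_nonpos (dir_nonpos hf h 1) (dir_nonpos hf h Complex.I)

end Pool.Agent.Helper59.CL.LocMax
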