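import Pool.Agent.Helper59.CL.Poho
import Pool.Agent.Helper59.CL.JDer

/-!
# Project CL, block D2: the monotonicity formula

Proof of `hasDerivAt_J_div`.  By `JDer` with `h = ed ε a u`, `J' (r) = - (2 / r^3) ∫ dps ‖z-x‖^2 ed`.  `Poho.poho`, split
in integrals (all integrable by `Div`), gives
`J - ∫ cut disc - r J' - (2/r^2) ∫ dps ε ip^2 + ∫ cut (1/ε) (1 - cos u) ip (z-x) (gr a) = 0`.
So `(J/r)' = (r J' - J)/r^2` is the claimed expression.

Proof of `mono`.  `dps ≤ 0`, so the second term is nonnegative; `disc ≤ K` on `ball 0 2` and `∫ cut ≤ π r^2`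
(`cut ≤ 1` on `ball x r`, zero outside) give `- ∫ cut disc ≥ - K π r^2`; on `ball x r`,
`|(1/ε) (1 - cos u) ip (z-x) (gr a)| ≤ r Λ (1/ε) (1 - cos u) ≤ r (Λ/α) (a/ε) (1 - cos u) ≤ r (Λ/α) ed`.
So `(J/r)' ≥ - K π - (Λ/α) (J/r)`.  The derivative of `exp (κ s) (J s/s) + K π exp (2 κ) s`, `κ = Λ/α`, is
`≥ - exp (κ s) K π + K π exp (2 κ) ≥ 0` as `s < 2`.  `monotoneOn_of_deriv_nonneg` on the open interval (convex).
-/

namespace Pool.Agent.Helper59.CL.Mono

open MeasureTheory Filter Topology Metric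
open Pool.Agent.Helper53.CL Pool.Agent.Helper59.CL
open scoped ContDiff Real

private lemma cont_dx {u : ℂ → ℝ} (hu : ContDiffOn ℝ ∞ u (ball 0 3)) : ContinuousOn (dx u) (ball 0 3) :=
  (hu.continuousOn_fderiv_of_isOpen isOpen_ball (by simp)).clm_apply continuousOn_const

private lemma cont_dy {u : ℂ → ℝ} (hu : ContDiffOn ℝ ∞ u (ball 0 3)) : ContinuousOn (dy u) (ball 0 3) :=
  (hu.continuousOn_fderiv_of_isOpen isOpen_ball (by simp)).clm_apply continuousOn_const

private lemma cont_ed {ε : ℝ} {a u : ℂ → ℝ} (ha : ContDiffOn ℝ ∞ a (ball 0 3))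
    (hu : ContDiffOn ℝ ∞ u (ball 0 3)) : ContinuousOn (ed ε a u) (ball 0 3) := by
  have h1 := cont_dx hu
  have h2 := cont_dy hu
  have h3 : ContinuousOn (fun z => ε / 2 * (dx u z ^ 2 + dy u z ^ 2) +
      1 / ε * (a z * (1 - Real.cos (u z)))) (ball 0 3) := by
    have h4 := ha.continuousOn
    have h5 := Real.continuous_cos.comp_continuousOn hu.continuousOn
    refine (continuousOn_const.mul ((h1.pow 2).add (h2.pow 2))).add
      (continuousOn_const.mul (h4.mul (continuousOn_const.sub h5)))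
  refine h3.congr fun z _ => ?_
  unfold ed
  rw [norm_gr_sq]

private lemma cont_disc {ε : ℝ} {a u : ℂ → ℝ} (ha : ContDiffOn ℝ ∞ a (ball 0 3))
    (hu : ContDiffOn ℝ ∞ u (ball 0 3)) : ContinuousOn (disc ε a u) (ball 0 3) := by
  have h1 := cont_dx hu
  have h2 := cont_dy hu
  have h3 : ContinuousOn (fun z => ε / 2 * (dx u z ^ 2 + dy u z ^ 2) -
      1 / ε * (a z * (1 - Real.cos (u z)))) (ball 0 3) := by
    have h4 := ha.continuousOn
    have h5 := Real.continuous_cos.comp_continuousOn hu.continuousOn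
    refine (continuousOn_const.mul ((h1.pow 2).add (h2.pow 2))).sub
      (continuousOn_const.mul (h4.mul (continuousOn_const.sub h5)))
  refine h3.congr fun z _ => ?_
  unfold disc
  rw [norm_gr_sq]

private lemma cont_ip {a : ℂ → ℝ} (x : ℂ) (ha : ContDiffOn ℝ ∞ a (ball 0 3)) :
    ContinuousOn (fun z => ip (z - x) (gr a z)) (ball 0 3) := by
  have h1 := cont_dx ha
  have h2 := cont_dy ha
  have h3 : ContinuousOn (fun z : ℂ => (z - x).re) (ball 0 3) := by fun_prop
  have h4 : ContinuousOn (fun z : ℂ => (z - x).im) (ball 0 3) := by fun_prop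
  exact (h3.mul h1).add (h4.mul h2)

private lemma cont_Q {ε : ℝ} {a u : ℂ → ℝ} (x : ℂ) (ha : ContDiffOn ℝ ∞ a (ball 0 3))
    (hu : ContDiffOn ℝ ∞ u (ball 0 3)) :
    ContinuousOn (fun z => 1 / ε * (1 - Real.cos (u z)) * ip (z - x) (gr a z)) (ball 0 3) := by
  have h5 := Real.continuous_cos.comp_continuousOn hu.continuousOn
  exact (continuousOn_const.mul (continuousOn_const.sub h5)).mul (cont_ip x ha)

theorem hasDerivAt_J_div {ε : ℝ} {a u : ℂ → ℝ} {x : ℂ} {r : ℝ} (hε : 0 < ε) (ha : ContDiffOn ℝ ∞ a (ball 0 3))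
    (hu : LSol (ball 0 3) ε a u) (hr : 0 < r) (hx : ‖x‖ + r < 2) :
    HasDerivAt (fun s => J ε a u x s / s)
      (1 / r ^ 2 * (-(∫ z, cut x r z * disc ε a u z) -
        2 / r ^ 2 * (∫ z, dps (‖z - x‖ ^ 2 / r ^ 2) * (ε * ip (z - x) (gr u z) ^ 2)) +
        ∫ z, cut x r z * (1 / ε * (1 - Real.cos (u z)) * ip (z - x) (gr a z)))) r := by
  have hx3 : ‖x‖ + r < 3 := by linarith
  have hce := cont_ed (ε := ε) ha hu.smooth
  have hcd := cont_disc (ε := ε) ha hu.smooth
  have hcq := cont_Q (ε := ε) x ha hu.smooth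
  have hcn : ContinuousOn (fun z : ℂ => ‖z - x‖ ^ 2) (ball 0 3) := by fun_prop
  have hcip : ContinuousOn (fun z => ε * ip (z - x) (gr u z) ^ 2) (ball 0 3) :=
    continuousOn_const.mul ((cont_ip x hu.smooth).pow 2)
  have hJ := JDer.hasDerivAt_integral_cut hce hr hx
  have iA := Div.integrable_cut_mul hce hr hx3
  have iD := Div.integrable_cut_mul hcd hr hx3
  have iQ := Div.integrable_cut_mul hcq hr hx3
  have iP1 : Integrable (fun z => dps (‖z - x‖ ^ 2 / r ^ 2) * (‖z - x‖ ^ 2 * ed ε a u z)) :=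
    Div.integrable_dps_mul (hcn.mul hce) hr hx3
  have iP2 := Div.integrable_dps_mul hcip hr hx3
  have hpoho := Poho.poho hε ha hu hr hx
  set A := ∫ z, cut x r z * ed ε a u z with hA
  set Dd := ∫ z, cut x r z * disc ε a u z with hDd
  set P1 := ∫ z, dps (‖z - x‖ ^ 2 / r ^ 2) * (‖z - x‖ ^ 2 * ed ε a u z) with hP1
  set P2 := ∫ z, dps (‖z - x‖ ^ 2 / r ^ 2) * (ε * ip (z - x) (gr u z) ^ 2) with hP2
  set Q := ∫ z, cut x r z * (1 / ε * (1 - Real.cos (u z)) * ip (z - x) (gr a z)) with hQ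
  have h1 : A - Dd + 2 / r ^ 2 * (P1 - P2) + Q = 0 := by
    rw [← hpoho]
    have h2 : ∀ z, (cut x r z * (ed ε a u z - disc ε a u z) +
        2 / r ^ 2 * (dps (‖z - x‖ ^ 2 / r ^ 2) * (‖z - x‖ ^ 2 * ed ε a u z - ε * ip (z - x) (gr u z) ^ 2)) +
        cut x r z * (1 / ε * (1 - Real.cos (u z)) * ip (z - x) (gr a z))) =
        (((cut x r z * ed ε a u z - cut x r z * disc ε a u z) +
        2 / r ^ 2 * (dps (‖z - x‖ ^ 2 / r ^ 2) * (‖z - x‖ ^ 2 * ed ε a u z) -
          dps (‖z - x‖ ^ 2 / r ^ 2) * (ε * ip (z - x) (gr u z) ^ 2))) +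
        cut x r z * (1 / ε * (1 - Real.cos (u z)) * ip (z - x) (gr a z))) := by
      intro z; ring
    simp_rw [h2]
    have i1 : Integrable (fun z => cut x r z * ed ε a u z - cut x r z * disc ε a u z) := iA.sub iD
    have i2 : Integrable (fun z => dps (‖z - x‖ ^ 2 / r ^ 2) * (‖z - x‖ ^ 2 * ed ε a u z) -
          dps (‖z - x‖ ^ 2 / r ^ 2) * (ε * ip (z - x) (gr u z) ^ 2)) := iP1.sub iP2
    have i3 : Integrable (fun z => (cut x r z * ed ε a u z - cut x r z * disc ε a u z) +
        2 / r ^ 2 * (dps (‖z - x‖ ^ 2 / r ^ 2) * (‖z - x‖ ^ 2 * ed ε a u z) -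
          dps (‖z - x‖ ^ 2 / r ^ 2) * (ε * ip (z - x) (gr u z) ^ 2))) := i1.add (i2.const_mul _)
    rw [integral_add i3 iQ, integral_add i1 (i2.const_mul _), integral_sub iA iD,
      integral_const_mul, integral_sub iP1 iP2]
  have h2 : ∫ z, dps (‖z - x‖ ^ 2 / r ^ 2) * (-(2 * ‖z - x‖ ^ 2 / r ^ 3) * ed ε a u z) =
      -(2 / r ^ 3) * P1 := by
    rw [hP1, ← integral_const_mul]
    refine integral_congr_ae (Eventually.of_forall fun z => ?_)
    show dps (‖z - x‖ ^ 2 / r ^ 2) * (-(2 * ‖z - x‖ ^ 2 / r ^ 3) * ed ε a u z) =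
      -(2 / r ^ 3) * (dps (‖z - x‖ ^ 2 / r ^ 2) * (‖z - x‖ ^ 2 * ed ε a u z))
    ring
  rw [h2] at hJ
  have h3 : HasDerivAt (fun s => J ε a u x s / s) ((-(2 / r ^ 3) * P1 * r - A * 1) / r ^ 2) r :=
    hJ.div (hasDerivAt_id r) hr.ne'
  refine h3.congr_deriv ?_
  have h4 : -(2 / r ^ 3) * P1 * r - A * 1 = -(2 / r ^ 2) * P1 - A := by field_simp
  rw [h4, div_eq_mul_inv, mul_comm, one_div]
  congr 1
  linarith

theorem mono {ε α Λ K : ℝ} {a u : ℂ → ℝ} {x : ℂ} (hε : 0 < ε) (ha : ContDiffOn ℝ ∞ a (ball 0 3))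
    (hu : LSol (ball 0 3) ε a u) (hα : 0 < α) (hK : 0 ≤ K) (h1 : ∀ z ∈ ball (0 : ℂ) 2, α ≤ a z)
    (h2 : ∀ z ∈ ball (0 : ℂ) 2, ‖gr a z‖ ≤ Λ) (h3 : ∀ z ∈ ball (0 : ℂ) 2, disc ε a u z ≤ K) :
    MonotoneOn (fun s => Real.exp (Λ / α * s) * (J ε a u x s / s) + K * π * Real.exp (2 * (Λ / α)) * s)
      (Set.Ioo 0 (2 - ‖x‖)) := by
  have hΛ : 0 ≤ Λ := (norm_nonneg _).trans (h2 0 (mem_ball_self zero_lt_two))
  set κ := Λ / α with hκ
  have hκ0 : 0 ≤ κ := by positivity
  have hce := cont_ed (ε := ε) ha hu.smooth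
  have hcd := cont_disc (ε := ε) ha hu.smooth
  have hcq := cont_Q (ε := ε) x ha hu.smooth
  have hder : ∀ s ∈ Set.Ioo 0 (2 - ‖x‖), ∃ J' : ℝ, HasDerivAt (fun s => J ε a u x s / s) J' s ∧
      -(K * π) - κ * (J ε a u x s / s) ≤ J' := by
    intro r hr
    obtain ⟨hr0, hr2⟩ := hr
    have hx : ‖x‖ + r < 2 := by linarith
    have hx3 : ‖x‖ + r < 3 := by linarith
    refine ⟨_, hasDerivAt_J_div hε ha hu hr0 hx, ?_⟩
    have iA := Div.integrable_cut_mul hce hr0 hx3
    have iD := Div.integrable_cut_mul hcd hr0 hx3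
    have iQ := Div.integrable_cut_mul hcq hr0 hx3
    have hball : ∀ z, ‖z - x‖ < r → z ∈ ball (0 : ℂ) 2 := by
      intro z hz
      rw [mem_ball_zero_iff]
      calc ‖z‖ = ‖(z - x) + x‖ := by rw [sub_add_cancel]
        _ ≤ ‖z - x‖ + ‖x‖ := norm_add_le _ _
        _ < 2 := by linarith
    -- first term
    have icut : Integrable (fun z => cut x r z) := by
      have := Div.integrable_cut_mul (h := fun _ => (1 : ℝ)) continuousOn_const hr0 hx3
      simpa using this
    have hcutint : ∫ z, cut x r z ≤ π * r ^ 2 := by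
      have h4 : ∫ z, cut x r z ≤ ∫ z, (ball x r).indicator (fun _ => (1 : ℝ)) z := by
        refine integral_mono icut ?_ fun z => ?_
        · rw [integrable_indicator_iff measurableSet_ball]
          exact integrableOn_const measure_ball_lt_top.ne
        · show cut x r z ≤ (ball x r).indicator (fun _ => (1 : ℝ)) z
          by_cases hz : z ∈ ball x r
          · rw [Set.indicator_of_mem hz]
            exact cut_le_one x r z
          · rw [Set.indicator_of_notMem hz]
            rw [mem_ball, dist_eq_norm, not_lt] at hz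
            exact (cut_eq_zero hr0 hz).le
      refine h4.trans (le_of_eq ?_)
      rw [integral_indicator measurableSet_ball, setIntegral_const, smul_eq_mul, mul_one,
        Measure.real, Complex.volume_ball]
      rw [ENNReal.toReal_mul, ENNReal.toReal_pow, ENNReal.toReal_ofReal hr0.le]
      simp [mul_comm]
    have t1 : -(K * π * r ^ 2) ≤ -(∫ z, cut x r z * disc ε a u z) := by
      have h4 : ∫ z, cut x r z * disc ε a u z ≤ ∫ z, cut x r z * K := by
        refine integral_mono iD (icut.mul_const K) fun z => ?_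
        show cut x r z * disc ε a u z ≤ cut x r z * K
        by_cases hz : ‖z - x‖ < r
        · exact mul_le_mul_of_nonneg_left (h3 z (hball z hz)) (cut_nonneg _ _ _)
        · rw [cut_eq_zero hr0 (not_lt.1 hz)]; simp
      rw [integral_mul_const] at h4
      have h5 : (∫ z, cut x r z) * K ≤ π * r ^ 2 * K := mul_le_mul_of_nonneg_right hcutint hK
      linarith
    have t2 : 0 ≤ -(2 / r ^ 2 * (∫ z, dps (‖z - x‖ ^ 2 / r ^ 2) * (ε * ip (z - x) (gr u z) ^ 2))) := by
      have h4 : ∫ z, dps (‖z - x‖ ^ 2 / r ^ 2) * (ε * ip (z - x) (gr u z) ^ 2) ≤ 0 :=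
        integral_nonpos fun z => mul_nonpos_of_nonpos_of_nonneg (dps_nonpos _) (by positivity)
      have h5 : 0 < 2 / r ^ 2 := by positivity
      nlinarith
    have t3 : -(r * κ * J ε a u x r) ≤
        ∫ z, cut x r z * (1 / ε * (1 - Real.cos (u z)) * ip (z - x) (gr a z)) := by
      have h4 : ∫ z, -(r * κ) * (cut x r z * ed ε a u z) ≤
          ∫ z, cut x r z * (1 / ε * (1 - Real.cos (u z)) * ip (z - x) (gr a z)) := by
        refine integral_mono (iA.const_mul _) iQ fun z => ?_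
        show -(r * κ) * (cut x r z * ed ε a u z) ≤
          cut x r z * (1 / ε * (1 - Real.cos (u z)) * ip (z - x) (gr a z))
        by_cases hz : ‖z - x‖ < r
        · have hz2 := hball z hz
          have hc0 := cut_nonneg x r z
          have haz := h1 z hz2
          have hcos : 0 ≤ 1 - Real.cos (u z) := by linarith [Real.cos_le_one (u z)]
          have hip : |ip (z - x) (gr a z)| ≤ r * Λ := by
            have h5 : |ip (z - x) (gr a z)| ≤ ‖z - x‖ * ‖gr a z‖ := by
              apply abs_le_of_sq_le_sq _ (by positivity)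
              rw [mul_pow, norm_sq_eq, norm_sq_eq]
              unfold ip
              nlinarith [sq_nonneg ((z - x).re * (gr a z).im - (z - x).im * (gr a z).re)]
            exact h5.trans (mul_le_mul hz.le (h2 z hz2) (norm_nonneg _) hr0.le)
          have hW : 1 / ε * (1 - Real.cos (u z)) ≤ 1 / α * ed ε a u z := by
            have h6 : 1 / ε * (a z * (1 - Real.cos (u z))) ≤ ed ε a u z := by
              unfold ed
              have : 0 ≤ ε / 2 * ‖gr u z‖ ^ 2 := by positivity
              linarith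
            have h7 : 1 / ε * (1 - Real.cos (u z)) * α ≤ 1 / ε * (a z * (1 - Real.cos (u z))) := by
              have h8 : (1 - Real.cos (u z)) * α ≤ a z * (1 - Real.cos (u z)) := by
                rw [mul_comm]; exact mul_le_mul_of_nonneg_right haz hcos
              have h9 := mul_le_mul_of_nonneg_left h8 (by positivity : 0 ≤ 1 / ε)
              linarith
            rw [one_div_mul_eq_div α, le_div_iff₀ hα]
            linarith
          have hW0 : 0 ≤ 1 / ε * (1 - Real.cos (u z)) := by positivity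
          have h10 : -(r * Λ * (1 / α * ed ε a u z)) ≤
              1 / ε * (1 - Real.cos (u z)) * ip (z - x) (gr a z) := by
            have h11 := (abs_le.1 hip).1
            have h12 : 1 / ε * (1 - Real.cos (u z)) * -(r * Λ) ≤
                1 / ε * (1 - Real.cos (u z)) * ip (z - x) (gr a z) :=
              mul_le_mul_of_nonneg_left h11 hW0
            have h13 : 1 / ε * (1 - Real.cos (u z)) * (r * Λ) ≤ 1 / α * ed ε a u z * (r * Λ) :=
              mul_le_mul_of_nonneg_right hW (by positivity)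
            linarith
          have h14 := mul_le_mul_of_nonneg_left h10 hc0
          have h15 : -(r * κ) * (cut x r z * ed ε a u z) =
              cut x r z * -(r * Λ * (1 / α * ed ε a u z)) := by
            rw [hκ]; ring
          rw [h15]
          exact h14
        · rw [cut_eq_zero hr0 (not_lt.1 hz)]; simp
      rw [integral_const_mul] at h4
      have h5 : -(r * κ * J ε a u x r) = -(r * κ) * ∫ z, cut x r z * ed ε a u z := by
        unfold J; ring
      rw [h5]
      exact h4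
    have h4 : -(K * π) - κ * (J ε a u x r / r) =
        1 / r ^ 2 * (-(K * π * r ^ 2) + -(r * κ * J ε a u x r)) := by
      field_simp
      ring
    rw [h4]
    refine mul_le_mul_of_nonneg_left ?_ (by positivity)
    linarith
  have hfull : ∀ s ∈ Set.Ioo 0 (2 - ‖x‖), ∃ D : ℝ, 0 ≤ D ∧
      HasDerivAt (fun s => Real.exp (κ * s) * (J ε a u x s / s) + K * π * Real.exp (2 * κ) * s) D s := by
    intro s hs
    obtain ⟨J', hJ', hle⟩ := hder s hs
    have e1 : HasDerivAt (fun s => Real.exp (κ * s)) (Real.exp (κ * s) * (κ * 1)) s :=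
      ((hasDerivAt_id s).const_mul κ).exp
    have e2 := e1.mul hJ'
    have e3 : HasDerivAt (fun s => K * π * Real.exp (2 * κ) * s) (K * π * Real.exp (2 * κ) * 1) s :=
      (hasDerivAt_id s).const_mul _
    refine ⟨_, ?_, e2.add e3⟩
    have hs2 : s ≤ 2 := by linarith [hs.2, norm_nonneg x]
    have e4 : Real.exp (κ * s) ≤ Real.exp (2 * κ) := by
      apply Real.exp_le_exp.2
      nlinarith
    have e5 : 0 < Real.exp (κ * s) := Real.exp_pos _
    have e6 : Real.exp (κ * s) * (-(K * π) - κ * (J ε a u x s / s)) ≤ Real.exp (κ * s) * J' :=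
      mul_le_mul_of_nonneg_left hle e5.le
    have e7 : 0 ≤ K * π := by positivity
    have e8 : Real.exp (κ * s) * (K * π) ≤ Real.exp (2 * κ) * (K * π) :=
      mul_le_mul_of_nonneg_right e4 e7
    linarith
  apply monotoneOn_of_deriv_nonneg (convex_Ioo _ _)
  · intro s hs
    obtain ⟨D, _, hD⟩ := hfull s hs
    exact hD.continuousAt.continuousWithinAt
  · intro s hs
    rw [interior_Ioo] at hs
    obtain ⟨D, _, hD⟩ := hfull s hs
    exact hD.differentiableAt.differentiableWithinAt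
  · intro s hs
    rw [interior_Ioo] at hs
    obtain ⟨D, hD0, hD⟩ := hfull s hs
    rw [hD.deriv]
    exact hD0

end Pool.Agent.Helper59.CL.Mono
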