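import Pool.Agent.Helper59.CL.Upper

/-!
# Project CL, block D2: dyadic monotonicity with the negative part of the discrepancy

Proof.  Let `Consts α Λ`, `κ = Λ/α`, `δ = (2 - R)/2`, `K` the constant of `Upper.upper` (radii `≤ δ`), `r0 = (2 - R)/4`, so
`2 r0 = δ`, `R + 2 r0 < 2`.  Fix `j`, `‖x‖ ≤ R`, `s < r0`, `A = ∫ cut x s * max (-disc) 0 ≥ 0`.
For `t ∈ Ioo s (2 s)` (so `‖x‖ + t < 2`), by `Mono.hasDerivAt_J_div` (`dps ≤ 0`, so its second term is nonnegative)
`(J/t)' ≥ t^-2 (- ∫ cut x t * disc - ∫ cut x t * |(1/ε) (1 - cos u) ip (z-x) (gr a)|)`, where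
`- disc = max (-disc) 0 - max disc 0`, `max disc 0 ≤ Λ` on `ball x t`, `∫ cut x t ≤ π t^2`, `cut x s ≤ cut x t` (`s ≤ t`), and
`|(1/ε) (1 - cos u) ip (z-x) (gr a)| ≤ t Λ (1/ε) (1 - cos u) ≤ t κ ed` on `ball x t` (as in `Mono.mono`), `J t ≤ K t`:
`(J/t)' ≥ t^-2 (A - Λ π t^2 - κ t (K t)) = A/t^2 - C`, `C = Λ π + κ K`.
So `F t = J t/t + A/t + C t` has nonnegative derivative on `Ioo s (2 s)`; it is continuous on `Icc s (2 s)`
(`hasDerivAt_J_div` at the end points as well), so `F s ≤ F (2 s)` (`monotoneOn_of_deriv_nonneg`), which is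
`A/(2 s) ≤ J (2 s)/(2 s) - J s/s + C s`.
-/

namespace Pool.Agent.Helper59.CL.MonoD

open MeasureTheory Filter Topology Metric
open Pool.Agent.Helper53.CL Pool.Agent.Helper59.CL
open scoped ContDiff Real

theorem cut_mono {x z : ℂ} {s t : ℝ} (hs : 0 < s) (hst : s ≤ t) : cut x s z ≤ cut x t z := by
  unfold cut ps
  have h1 : ‖z - x‖ ^ 2 / t ^ 2 ≤ ‖z - x‖ ^ 2 / s ^ 2 := by
    apply div_le_div_of_nonneg_left (by positivity) (by positivity)
    exact pow_le_pow_left₀ hs.le hst 2
  have h2 : max 0 (1 - ‖z - x‖ ^ 2 / s ^ 2) ≤ max 0 (1 - ‖z - x‖ ^ 2 / t ^ 2) := by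
    apply max_le_max le_rfl
    linarith
  exact pow_le_pow_left₀ (le_max_left _ _) h2 2

private lemma cont_dx {u : ℂ → ℝ} (hu : ContDiffOn ℝ ∞ u (ball 0 3)) : ContinuousOn (dx u) (ball 0 3) :=
  (hu.continuousOn_fderiv_of_isOpen isOpen_ball (by simp)).clm_apply continuousOn_const

private lemma cont_dy {u : ℂ → ℝ} (hu : ContDiffOn ℝ ∞ u (ball 0 3)) : ContinuousOn (dy u) (ball 0 3) :=
  (hu.continuousOn_fderiv_of_isOpen isOpen_ball (by simp)).clm_apply continuousOn_const

private lemma cont_ed {ε : ℝ} {a u : ℂ → ℝ} (ha : ContDiffOn ℝ ∞ a (ball 0 3))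
    (hu : ContDiffOn ℝ ∞ u (ball 0 3)) : ContinuousOn (ed ε a u) (ball 0 3) := by
  have h1 := cont_dx hu
  have h2 := cont_dy hu
  have h3 : ContinuousOn (fun z => ε / 2 * (dx u z ^ 2 + dy u z ^ 2) +
      1 / ε * (a z * (1 - Real.cos (u z)))) (ball 0 3) := by
    have h4 := ha.continuousOn
    have h5 := Real.continuous_cos.comp_continuousOn hu.continuousOn
    refine (continuousOn_const.mul ((h1.pow 2).add (h2.pow 2))).add
      (continuousOn_const.mul (h4.mul (continuousOn_const.sub h5)))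
  refine h3.congr fun z _ => ?_
  unfold ed
  rw [norm_gr_sq]

private lemma cont_disc {ε : ℝ} {a u : ℂ → ℝ} (ha : ContDiffOn ℝ ∞ a (ball 0 3))
    (hu : ContDiffOn ℝ ∞ u (ball 0 3)) : ContinuousOn (disc ε a u) (ball 0 3) := by
  have h1 := cont_dx hu
  have h2 := cont_dy hu
  have h3 : ContinuousOn (fun z => ε / 2 * (dx u z ^ 2 + dy u z ^ 2) -
      1 / ε * (a z * (1 - Real.cos (u z)))) (ball 0 3) := by
    have h4 := ha.continuousOn
    have h5 := Real.continuous_cos.comp_continuousOn hu.continuousOn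
    refine (continuousOn_const.mul ((h1.pow 2).add (h2.pow 2))).sub
      (continuousOn_const.mul (h4.mul (continuousOn_const.sub h5)))
  refine h3.congr fun z _ => ?_
  unfold disc
  rw [norm_gr_sq]

private lemma cont_ip {a : ℂ → ℝ} (x : ℂ) (ha : ContDiffOn ℝ ∞ a (ball 0 3)) :
    ContinuousOn (fun z => ip (z - x) (gr a z)) (ball 0 3) := by
  have h1 := cont_dx ha
  have h2 := cont_dy ha
  have h3 : ContinuousOn (fun z : ℂ => (z - x).re) (ball 0 3) := by fun_prop
  have h4 : ContinuousOn (fun z : ℂ => (z - x).im) (ball 0 3) := by fun_prop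
  exact (h3.mul h1).add (h4.mul h2)

private lemma cont_Q {ε : ℝ} {a u : ℂ → ℝ} (x : ℂ) (ha : ContDiffOn ℝ ∞ a (ball 0 3))
    (hu : ContDiffOn ℝ ∞ u (ball 0 3)) :
    ContinuousOn (fun z => 1 / ε * (1 - Real.cos (u z)) * ip (z - x) (gr a z)) (ball 0 3) := by
  have h5 := Real.continuous_cos.comp_continuousOn hu.continuousOn
  exact (continuousOn_const.mul (continuousOn_const.sub h5)).mul (cont_ip x ha)

/-- The derivative of `J t / t` is bounded below by the negative part of the discrepancy. -/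
theorem deriv_lower {ε α Λ K s r : ℝ} {a u : ℂ → ℝ} {x : ℂ} (hε : 0 < ε) (ha : ContDiffOn ℝ ∞ a (ball 0 3))
    (hu : LSol (ball 0 3) ε a u) (hα : 0 < α) (hΛ : 0 ≤ Λ) (h1 : ∀ z ∈ ball (0 : ℂ) 2, α ≤ a z)
    (h2 : ∀ z ∈ ball (0 : ℂ) 2, ‖gr a z‖ ≤ Λ) (h3 : ∀ z ∈ ball (0 : ℂ) 2, disc ε a u z ≤ Λ)
    (hs : 0 < s) (hsr : s ≤ r) (hx : ‖x‖ + r < 2) (hJ : J ε a u x r ≤ K * r) :
    ∃ J' : ℝ, HasDerivAt (fun s => J ε a u x s / s) J' r ∧
      (∫ z, cut x s z * max (-disc ε a u z) 0) / r ^ 2 - (Λ * π + Λ / α * K) ≤ J' := by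
  have hr0 : 0 < r := hs.trans_le hsr
  set κ := Λ / α with hκ
  have hκ0 : 0 ≤ κ := by positivity
  have hce := cont_ed (ε := ε) ha hu.smooth
  have hcd := cont_disc (ε := ε) ha hu.smooth
  have hcq := cont_Q (ε := ε) x ha hu.smooth
  have hx3 : ‖x‖ + r < 3 := by linarith
  have hx3s : ‖x‖ + s < 3 := by linarith
  refine ⟨_, Mono.hasDerivAt_J_div hε ha hu hr0 hx, ?_⟩
  have iA := Div.integrable_cut_mul hce hr0 hx3
  have iD := Div.integrable_cut_mul hcd hr0 hx3
  have iQ := Div.integrable_cut_mul hcq hr0 hx3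
  have hcm : ContinuousOn (fun z => max (-disc ε a u z) 0) (ball 0 3) := ContinuousOn.sup hcd.neg continuousOn_const
  have iM := Div.integrable_cut_mul hcm hs hx3s
  have hball : ∀ z, ‖z - x‖ < r → z ∈ ball (0 : ℂ) 2 := by
    intro z hz
    rw [mem_ball_zero_iff]
    calc ‖z‖ = ‖(z - x) + x‖ := by rw [sub_add_cancel]
      _ ≤ ‖z - x‖ + ‖x‖ := norm_add_le _ _
      _ < 2 := by linarith
  have icut : Integrable (fun z => cut x r z) := by
    have := Div.integrable_cut_mul (h := fun _ => (1 : ℝ)) continuousOn_const hr0 hx3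
    simpa using this
  have hcutint : ∫ z, cut x r z ≤ π * r ^ 2 := by
    have h4 : ∫ z, cut x r z ≤ ∫ z, (ball x r).indicator (fun _ => (1 : ℝ)) z := by
      refine integral_mono icut ?_ fun z => ?_
      · rw [integrable_indicator_iff measurableSet_ball]
        exact integrableOn_const measure_ball_lt_top.ne
      · show cut x r z ≤ (ball x r).indicator (fun _ => (1 : ℝ)) z
        by_cases hz : z ∈ ball x r
        · rw [Set.indicator_of_mem hz]
          exact cut_le_one x r z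
        · rw [Set.indicator_of_notMem hz]
          rw [mem_ball, dist_eq_norm, not_lt] at hz
          exact (cut_eq_zero hr0 hz).le
    refine h4.trans (le_of_eq ?_)
    rw [integral_indicator measurableSet_ball, setIntegral_const, smul_eq_mul, mul_one,
      Measure.real, Complex.volume_ball]
    rw [ENNReal.toReal_mul, ENNReal.toReal_pow, ENNReal.toReal_ofReal hr0.le]
    simp [mul_comm]
  set A := ∫ z, cut x s z * max (-disc ε a u z) 0 with hA
  have t1 : A - Λ * π * r ^ 2 ≤ -(∫ z, cut x r z * disc ε a u z) := by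
    have h4 : ∫ z, (cut x r z * disc ε a u z + cut x s z * max (-disc ε a u z) 0) ≤ ∫ z, cut x r z * Λ := by
      refine integral_mono (iD.add iM) (icut.mul_const Λ) fun z => ?_
      show cut x r z * disc ε a u z + cut x s z * max (-disc ε a u z) 0 ≤ cut x r z * Λ
      have hc0 := cut_nonneg x r z
      have hcs : cut x s z ≤ cut x r z := cut_mono hs hsr
      by_cases hz : ‖z - x‖ < r
      · rcases le_total 0 (disc ε a u z) with h | h
        · rw [max_eq_right (by linarith), mul_zero, add_zero]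
          exact mul_le_mul_of_nonneg_left (h3 z (hball z hz)) hc0
        · rw [max_eq_left (by linarith)]
          have h5 : (cut x r z - cut x s z) * disc ε a u z ≤ 0 :=
            mul_nonpos_of_nonneg_of_nonpos (by linarith) h
          have h6 : 0 ≤ cut x r z * Λ := mul_nonneg hc0 hΛ
          linarith
      · have h5 : cut x r z = 0 := cut_eq_zero hr0 (not_lt.1 hz)
        have h6 : cut x s z = 0 := le_antisymm (h5 ▸ hcs) (cut_nonneg _ _ _)
        rw [h5, h6]
        simp
    rw [integral_mul_const, integral_add iD iM] at h4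
    have h5 : (∫ z, cut x r z) * Λ ≤ π * r ^ 2 * Λ := mul_le_mul_of_nonneg_right hcutint hΛ
    linarith
  have t2 : 0 ≤ -(2 / r ^ 2 * (∫ z, dps (‖z - x‖ ^ 2 / r ^ 2) * (ε * ip (z - x) (gr u z) ^ 2))) := by
    have h4 : ∫ z, dps (‖z - x‖ ^ 2 / r ^ 2) * (ε * ip (z - x) (gr u z) ^ 2) ≤ 0 :=
      integral_nonpos fun z => mul_nonpos_of_nonpos_of_nonneg (dps_nonpos _) (by positivity)
    have h5 : 0 < 2 / r ^ 2 := by positivity
    nlinarith
  have t3 : -(r * κ * J ε a u x r) ≤
      ∫ z, cut x r z * (1 / ε * (1 - Real.cos (u z)) * ip (z - x) (gr a z)) := by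
    have h4 : ∫ z, -(r * κ) * (cut x r z * ed ε a u z) ≤
        ∫ z, cut x r z * (1 / ε * (1 - Real.cos (u z)) * ip (z - x) (gr a z)) := by
      refine integral_mono (iA.const_mul _) iQ fun z => ?_
      show -(r * κ) * (cut x r z * ed ε a u z) ≤
        cut x r z * (1 / ε * (1 - Real.cos (u z)) * ip (z - x) (gr a z))
      by_cases hz : ‖z - x‖ < r
      · have hz2 := hball z hz
        have hc0 := cut_nonneg x r z
        have haz := h1 z hz2
        have hcos : 0 ≤ 1 - Real.cos (u z) := by linarith [Real.cos_le_one (u z)]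
        have hip : |ip (z - x) (gr a z)| ≤ r * Λ := by
          have h5 : |ip (z - x) (gr a z)| ≤ ‖z - x‖ * ‖gr a z‖ := by
            apply abs_le_of_sq_le_sq _ (by positivity)
            rw [mul_pow, norm_sq_eq, norm_sq_eq]
            unfold ip
            nlinarith [sq_nonneg ((z - x).re * (gr a z).im - (z - x).im * (gr a z).re)]
          exact h5.trans (mul_le_mul hz.le (h2 z hz2) (norm_nonneg _) hr0.le)
        have hW : 1 / ε * (1 - Real.cos (u z)) ≤ 1 / α * ed ε a u z := by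
          have h6 : 1 / ε * (a z * (1 - Real.cos (u z))) ≤ ed ε a u z := by
            unfold ed
            have : 0 ≤ ε / 2 * ‖gr u z‖ ^ 2 := by positivity
            linarith
          have h7 : 1 / ε * (1 - Real.cos (u z)) * α ≤ 1 / ε * (a z * (1 - Real.cos (u z))) := by
            have h8 : (1 - Real.cos (u z)) * α ≤ a z * (1 - Real.cos (u z)) := by
              rw [mul_comm]; exact mul_le_mul_of_nonneg_right haz hcos
            have h9 := mul_le_mul_of_nonneg_left h8 (by positivity : 0 ≤ 1 / ε)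
            linarith
          rw [one_div_mul_eq_div α, le_div_iff₀ hα]
          linarith
        have hW0 : 0 ≤ 1 / ε * (1 - Real.cos (u z)) := by positivity
        have h10 : -(r * Λ * (1 / α * ed ε a u z)) ≤
            1 / ε * (1 - Real.cos (u z)) * ip (z - x) (gr a z) := by
          have h11 := (abs_le.1 hip).1
          have h12 : 1 / ε * (1 - Real.cos (u z)) * -(r * Λ) ≤
              1 / ε * (1 - Real.cos (u z)) * ip (z - x) (gr a z) :=
            mul_le_mul_of_nonneg_left h11 hW0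
          have h13 : 1 / ε * (1 - Real.cos (u z)) * (r * Λ) ≤ 1 / α * ed ε a u z * (r * Λ) :=
            mul_le_mul_of_nonneg_right hW (by positivity)
          linarith
        have h14 := mul_le_mul_of_nonneg_left h10 hc0
        have h15 : -(r * κ) * (cut x r z * ed ε a u z) =
            cut x r z * -(r * Λ * (1 / α * ed ε a u z)) := by
          rw [hκ]; ring
        rw [h15]
        exact h14
      · rw [cut_eq_zero hr0 (not_lt.1 hz)]; simp
    rw [integral_const_mul] at h4
    have h5 : -(r * κ * J ε a u x r) = -(r * κ) * ∫ z, cut x r z * ed ε a u z := by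
      unfold J; ring
    rw [h5]
    exact h4
  have t4 : r * κ * J ε a u x r ≤ r * κ * (K * r) := mul_le_mul_of_nonneg_left hJ (by positivity)
  have h4 : A / r ^ 2 - (Λ * π + κ * K) = 1 / r ^ 2 * (A - Λ * π * r ^ 2 - r * κ * (K * r)) := by
    field_simp
    ring
  rw [h4]
  refine mul_le_mul_of_nonneg_left ?_ (by positivity)
  linarith

theorem monoD {a : ℂ → ℝ} {aj : ℕ → ℂ → ℝ} {ε : ℕ → ℝ} {u : ℕ → ℂ → ℝ} (h : LocSeq a aj ε u) {R : ℝ} (hR : R < 2) :
    ∃ C r0 : ℝ, 0 < r0 ∧ R + 2 * r0 < 2 ∧ ∀ j x, ‖x‖ ≤ R → ∀ s ∈ Set.Ioo 0 r0,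
      1 / (2 * s) * ∫ z, cut x s z * max (-disc (ε j) (aj j) (u j) z) 0 ≤
        1 / (2 * s) * J (ε j) (aj j) (u j) x (2 * s) - 1 / s * J (ε j) (aj j) (u j) x s + C * s := by
  obtain ⟨α, Λ, hc⟩ := SeqB.exists_consts h
  obtain ⟨K, hK, hup⟩ := Upper.upper h hR
  refine ⟨Λ * π + Λ / α * K, (2 - R) / 4, by linarith, by linarith, fun j x hx s hs => ?_⟩
  obtain ⟨hs0, hs1⟩ := hs
  set A := ∫ z, cut x s z * max (-disc (ε j) (aj j) (u j) z) 0 with hA
  set C := Λ * π + Λ / α * K with hC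
  have hder : ∀ t ∈ Set.Icc s (2 * s), ∃ D : ℝ, 0 ≤ D ∧
      HasDerivAt (fun t => J (ε j) (aj j) (u j) x t / t + A / t + C * t) D t := by
    intro t ht
    have ht0 : 0 < t := hs0.trans_le ht.1
    have hxt : ‖x‖ + t < 2 := by linarith [ht.2]
    obtain ⟨J', hJ', hle⟩ := deriv_lower (s := s) (r := t) (x := x) (h.eps_pos j) (h.aj_smooth j) (h.sol j)
      hc.α_pos (by linarith [hc.Λ_pos]) (hc.le_a j) (hc.gr_a j) (hc.disc_le j) hs0 ht.1 hxt
      (hup j x hx t ⟨ht0, by linarith [ht.2]⟩)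
    have e1 : HasDerivAt (fun t : ℝ => A / t) (-(A / t ^ 2)) t := by
      have := (hasDerivAt_const t A).div (hasDerivAt_id t) ht0.ne'
      refine this.congr_deriv ?_
      simp only [id]
      field_simp
      ring
    have e2 : HasDerivAt (fun t : ℝ => C * t) (C * 1) t := (hasDerivAt_id t).const_mul C
    refine ⟨_, ?_, (hJ'.add e1).add e2⟩
    rw [← hA, ← hC] at hle
    linarith
  have hm : MonotoneOn (fun t => J (ε j) (aj j) (u j) x t / t + A / t + C * t) (Set.Icc s (2 * s)) := by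
    apply monotoneOn_of_deriv_nonneg (convex_Icc _ _)
    · intro t ht
      obtain ⟨D, _, hD⟩ := hder t ht
      exact hD.continuousAt.continuousWithinAt
    · intro t ht
      rw [interior_Icc] at ht
      obtain ⟨D, _, hD⟩ := hder t (Set.Ioo_subset_Icc_self ht)
      exact hD.differentiableAt.differentiableWithinAt
    · intro t ht
      rw [interior_Icc] at ht
      obtain ⟨D, hD0, hD⟩ := hder t (Set.Ioo_subset_Icc_self ht)
      rw [hD.deriv]
      exact hD0
  have hfin := hm ⟨le_refl _, by linarith⟩ ⟨by linarith, le_refl _⟩ (by linarith : s ≤ 2 * s)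
  simp only at hfin
  have e1 : A / s - A / (2 * s) = 1 / (2 * s) * A := by
    field_simp
    ring
  have e2 : J (ε j) (aj j) (u j) x (2 * s) / (2 * s) = 1 / (2 * s) * J (ε j) (aj j) (u j) x (2 * s) := by ring
  have e3 : J (ε j) (aj j) (u j) x s / s = 1 / s * J (ε j) (aj j) (u j) x s := by ring
  rw [e2, e3] at hfin
  linarith

end Pool.Agent.Helper59.CL.MonoD
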