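import Pool.Agent.Helper59.CL.Cut

/-!
# Project CL, block D1: the algebra of the Modica computation
-/

namespace Pool.Agent.Helper59.CL.PAlg

theorem alg {ε δ a p r A B C ax ay L s c g g2 : ℝ} (hε : 0 < ε) (ha : 0 < a) (hq : 0 < p ^ 2 + r ^ 2)
    (E1 : ε ^ 2 * (p * A + r * B) / a - ε ^ 2 * (p ^ 2 + r ^ 2) * ax / (2 * a ^ 2) - (s + δ * g) * p = 0)
    (E2 : ε ^ 2 * (p * B + r * C) / a - ε ^ 2 * (p ^ 2 + r ^ 2) * ay / (2 * a ^ 2) - (s + δ * g) * r = 0)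
    (E3 : ε ^ 2 * (A + C) = a * s) :
    ε ^ 2 / a * (A ^ 2 + 2 * B ^ 2 + C ^ 2) + 1 / a * (p * ax + r * ay) * s + c * (p ^ 2 + r ^ 2) -
        2 * ε ^ 2 / a ^ 2 * ((p * A + r * B) * ax + (p * B + r * C) * ay) -
        ε ^ 2 * (p ^ 2 + r ^ 2) / (2 * a ^ 2) * L + ε ^ 2 * (p ^ 2 + r ^ 2) / a ^ 3 * (ax ^ 2 + ay ^ 2) -
        (c + δ * g2) * (p ^ 2 + r ^ 2) - (s + δ * g) * (a * s / ε ^ 2) =
      a / ε ^ 2 * (δ * g * s + 2 * δ ^ 2 * g ^ 2) - δ * g2 * (p ^ 2 + r ^ 2) +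
        ε ^ 2 * (p ^ 2 + r ^ 2) * ((ax ^ 2 + ay ^ 2) / (2 * a ^ 3) - L / (2 * a ^ 2)) := by
  have hm1 : p * A + r * B = a / ε ^ 2 * ((s + δ * g) * p + ε ^ 2 * (p ^ 2 + r ^ 2) * ax / (2 * a ^ 2)) := by
    field_simp at E1 ⊢
    linarith
  have hm2 : p * B + r * C = a / ε ^ 2 * ((s + δ * g) * r + ε ^ 2 * (p ^ 2 + r ^ 2) * ay / (2 * a ^ 2)) := by
    field_simp at E2 ⊢
    linarith
  have ht : A + C = a * s / ε ^ 2 := by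
    field_simp
    linarith
  have hdet : (p ^ 2 + r ^ 2) * (A * C - B ^ 2) =
      (A + C) * (p * (p * A + r * B) + r * (p * B + r * C)) - ((p * A + r * B) ^ 2 + (p * B + r * C) ^ 2) := by
    ring
  have hdet2 : A * C - B ^ 2 = ((A + C) * (p * (p * A + r * B) + r * (p * B + r * C)) -
      ((p * A + r * B) ^ 2 + (p * B + r * C) ^ 2)) / (p ^ 2 + r ^ 2) := by
    rw [← hdet]
    field_simp
  have hsq : A ^ 2 + 2 * B ^ 2 + C ^ 2 = (A + C) ^ 2 - 2 * (A * C - B ^ 2) := by ring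
  rw [hsq, hdet2, hm1, hm2, ht]
  field_simp
  ring

end Pool.Agent.Helper59.CL.PAlg
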