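import Pool.Agent.Helper59.CL.PDef

/-!
# Project CL, block D1: first derivatives of the Modica function

Proof.  `u` and `a` are smooth near `z` and `a z ≠ 0`.  The functions `dx u`, `dy u` are smooth near `z`
(`ContDiffAt.fderiv_right`, evaluation at `1`, `I`).  Differentiate; the chain rule for `Real.cos`, `Real.sin`
(`HasFDerivAt.cos`, `HasFDerivAt.sin` or `HasDerivAt.comp_hasFDerivAt`).  The symmetry of the second derivative:
`ContDiffAt.isSymmSndFDerivAt` (`dx (dy u) z = fderiv (fun y => fderiv u y I) z 1 = fderiv (fderiv u) z 1 I`).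
-/

namespace Pool.Agent.Helper59.CL.PCalc1

open MeasureTheory Filter Topology Metric
open Pool.Agent.Helper53.CL Pool.Agent.Helper59.CL
open scoped ContDiff Real

/-- The partial derivatives of a smooth function are smooth. -/
theorem contDiffAt_dx {f : ℂ → ℝ} {z : ℂ} (hf : ContDiffAt ℝ ∞ f z) :
    ContDiffAt ℝ ∞ (dx f) z ∧ ContDiffAt ℝ ∞ (dy f) z := by
  have h1 : ContDiffAt ℝ ∞ (fderiv ℝ f) z := hf.fderiv_right (m := ∞) (by simp)
  exact ⟨h1.clm_apply contDiffAt_const, h1.clm_apply contDiffAt_const⟩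

theorem dx_dy {f : ℂ → ℝ} {z : ℂ} (hf : ContDiffAt ℝ ∞ f z) : dy (dx f) z = dx (dy f) z := by
  have h1 : ContDiffAt ℝ ∞ (fderiv ℝ f) z := hf.fderiv_right (m := ∞) (by simp)
  have h2 : DifferentiableAt ℝ (fderiv ℝ f) z := h1.differentiableAt (by simp)
  have hs : IsSymmSndFDerivAt ℝ f z := hf.isSymmSndFDerivAt (by simp; norm_cast)
  have h3 : ∀ v w : ℂ, fderiv ℝ (fun y => fderiv ℝ f y v) z w = fderiv ℝ (fderiv ℝ f) z w v := by
    intro v w
    have h4 := h2.hasFDerivAt.clm_apply (hasFDerivAt_const v z)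
    rw [h4.fderiv]
    simp
  show fderiv ℝ (fun y => fderiv ℝ f y 1) z Complex.I = fderiv ℝ (fun y => fderiv ℝ f y Complex.I) z 1
  rw [h3, h3]
  exact hs Complex.I 1

theorem contDiffAt_Pf {ε δ : ℝ} {a u : ℂ → ℝ} {z : ℂ} (ha : ContDiffAt ℝ ∞ a z) (hu : ContDiffAt ℝ ∞ u z)
    (hz : a z ≠ 0) : ContDiffAt ℝ ∞ (Pf ε δ a u) z := by
  obtain ⟨hX, hY⟩ := contDiffAt_dx hu
  unfold Pf
  have h2a : (2 : ℝ) * a z ≠ 0 := mul_ne_zero two_ne_zero hz
  have h1 : ContDiffAt ℝ ∞ (fun z => ε ^ 2 * (dx u z ^ 2 + dy u z ^ 2) / (2 * a z)) z :=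
    (contDiffAt_const.mul ((hX.pow 2).add (hY.pow 2))).div (contDiffAt_const.mul ha) h2a
  have h2 : ContDiffAt ℝ ∞ (fun z => 1 - Real.cos (u z)) z :=
    contDiffAt_const.sub (Real.contDiff_cos.contDiffAt.comp z hu)
  have h3 : ContDiffAt ℝ ∞ (fun z => δ * (1 + Real.sin (u z / 2))) z :=
    contDiffAt_const.mul (contDiffAt_const.add
      (Real.contDiff_sin.contDiffAt.comp z (hu.div_const 2)))
  exact (h1.sub h2).sub h3

private theorem fd_Pf {ε δ : ℝ} {a u : ℂ → ℝ} {z : ℂ} (ha : ContDiffAt ℝ ∞ a z)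
    (hu : ContDiffAt ℝ ∞ u z) (hz : a z ≠ 0) (e : ℂ) :
    fderiv ℝ (Pf ε δ a u) z e =
      ε ^ 2 * (dx u z * fderiv ℝ (dx u) z e + dy u z * fderiv ℝ (dy u) z e) / a z -
      ε ^ 2 * (dx u z ^ 2 + dy u z ^ 2) * fderiv ℝ a z e / (2 * a z ^ 2) -
      (Real.sin (u z) + δ * (Real.cos (u z / 2) / 2)) * fderiv ℝ u z e := by
  obtain ⟨hX, hY⟩ := contDiffAt_dx hu
  have key : ∀ {f : ℂ → ℝ}, ContDiffAt ℝ ∞ f z →
      HasDerivAt (fun t : ℝ => f (z + t • e)) (fderiv ℝ f z e) 0 := by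
    intro f hf
    have h1 : HasFDerivAt f (fderiv ℝ f z) z := (hf.differentiableAt (by simp)).hasFDerivAt
    exact h1.hasLineDerivAt e
  have kX := key hX
  have kY := key hY
  have ka := key ha
  have ku := key hu
  have kP := key (contDiffAt_Pf (ε := ε) (δ := δ) ha hu hz)
  have h2a : (2 : ℝ) * a (z + (0 : ℝ) • e) ≠ 0 := by
    rw [zero_smul, add_zero]
    exact mul_ne_zero two_ne_zero hz
  have h1 := (((kX.pow 2).add (kY.pow 2)).const_mul (ε ^ 2)).div (ka.const_mul 2) h2a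
  have h2 := (ku.cos).const_sub 1
  have h3 := (((ku.div_const 2).sin).const_add 1).const_mul δ
  have h4 := (h1.sub h2).sub h3
  have h5 := HasDerivAt.unique kP h4
  rw [h5]
  simp only [Pi.add_apply, Pi.pow_apply, zero_smul, add_zero]
  field_simp
  ring

theorem dx_Pf {ε δ : ℝ} {a u : ℂ → ℝ} {z : ℂ} (ha : ContDiffAt ℝ ∞ a z) (hu : ContDiffAt ℝ ∞ u z)
    (hz : a z ≠ 0) :
    dx (Pf ε δ a u) z = ε ^ 2 * (dx u z * dx (dx u) z + dy u z * dx (dy u) z) / a z -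
      ε ^ 2 * (dx u z ^ 2 + dy u z ^ 2) * dx a z / (2 * a z ^ 2) -
      (Real.sin (u z) + δ * (Real.cos (u z / 2) / 2)) * dx u z := by
  have := fd_Pf (ε := ε) (δ := δ) ha hu hz 1
  exact this

theorem dy_Pf {ε δ : ℝ} {a u : ℂ → ℝ} {z : ℂ} (ha : ContDiffAt ℝ ∞ a z) (hu : ContDiffAt ℝ ∞ u z)
    (hz : a z ≠ 0) :
    dy (Pf ε δ a u) z = ε ^ 2 * (dx u z * dx (dy u) z + dy u z * dy (dy u) z) / a z -
      ε ^ 2 * (dx u z ^ 2 + dy u z ^ 2) * dy a z / (2 * a z ^ 2) -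
      (Real.sin (u z) + δ * (Real.cos (u z / 2) / 2)) * dy u z := by
  have := fd_Pf (ε := ε) (δ := δ) ha hu hz Complex.I
  have h2 : fderiv ℝ (dx u) z Complex.I = dx (dy u) z := dx_dy hu
  rw [h2] at this
  exact this

end Pool.Agent.Helper59.CL.PCalc1
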