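import Pool.Agent.Helper59.CL.Cut

/-!
# Project CL, block D1: the Modica function
-/

namespace Pool.Agent.Helper59.CL

open Pool.Agent.Helper53.CL

/-- The Modica function `ε^2 |Du|^2 / (2a) - (1 - cos u) - δ (1 + sin (u/2))`. -/
noncomputable def Pf (ε δ : ℝ) (a u : ℂ → ℝ) (z : ℂ) : ℝ :=
  ε ^ 2 * (dx u z ^ 2 + dy u z ^ 2) / (2 * a z) - (1 - Real.cos (u z)) - δ * (1 + Real.sin (u z / 2))

end Pool.Agent.Helper59.CL
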