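import Pool.Agent.Helper59.CL.Div

/-!
# Project CL, block D2: the stress tensor identity

Proof.  On `ball 0 3` put `T11 = ed - ε (dx u)^2`, `T12 = - ε dx u * dy u`, `T22 = ed - ε (dy u)^2`, `W = 1 - cos u`.
The equation `ε^2 lap u = a sin u` gives
`dx T11 + dy T12 = (1/ε) W dx a`, `dx T12 + dy T22 = (1/ε) W dy a` (pointwise on `ball 0 3`; `dx (dy u) = dy (dx u)`).
Let `X = cut x r z * (z - x)`, `Y1 = T11 X1 + T12 X2`, `Y2 = T12 X1 + T22 X2`: functions on `ℂ` that vanish outside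
`closedBall x r ⊆ ball 0 2`, of class `C^1` (`cut` is `C^1`, `u`, `a` smooth on `ball 0 3`) with compact support.
So `∫ (dx Y1 + dy Y2) = 0` (`Div.integral_dx`, `Div.integral_dy`), and
`dx Y1 + dy Y2 = (1/ε) W cut * ip (z - x) (gr a) + cut * (T11 + T22) + (2 dps / r^2) (T11 X1'^2 + 2 T12 X1' X2' + T22 X2'^2)`,
`X' = z - x` (`dx_cut`, `dy_cut`), with `T11 + T22 = 2 ed - ε |Du|^2 = ed - disc` and
`T11 X1'^2 + 2 T12 X1' X2' + T22 X2'^2 = ‖z - x‖^2 ed - ε (ip (z - x) (gr u z))^2`.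
-/

namespace Pool.Agent.Helper59.CL.Poho

open MeasureTheory Filter Topology Metric
open Pool.Agent.Helper53.CL Pool.Agent.Helper59.CL
open scoped ContDiff Real

/-- `f` is differentiable at `z` with partial derivatives `p`, `q` -/
private def HD (f : ℂ → ℝ) (z : ℂ) (p q : ℝ) : Prop := DifferentiableAt ℝ f z ∧ dx f z = p ∧ dy f z = q

private lemma HD.add {f g : ℂ → ℝ} {z : ℂ} {p q p' q' : ℝ} (hf : HD f z p q) (hg : HD g z p' q') :
    HD (fun z => f z + g z) z (p + p') (q + q') := by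
  obtain ⟨h1, h2, h3⟩ := hf
  obtain ⟨g1, g2, g3⟩ := hg
  have h : fderiv ℝ (fun z => f z + g z) z = fderiv ℝ f z + fderiv ℝ g z := fderiv_add h1 g1
  refine ⟨h1.add g1, ?_, ?_⟩
  · rw [← h2, ← g2]; unfold dx; rw [h]; rfl
  · rw [← h3, ← g3]; unfold dy; rw [h]; rfl

private lemma HD.sub {f g : ℂ → ℝ} {z : ℂ} {p q p' q' : ℝ} (hf : HD f z p q) (hg : HD g z p' q') :
    HD (fun z => f z - g z) z (p - p') (q - q') := by
  obtain ⟨h1, h2, h3⟩ := hf
  obtain ⟨g1, g2, g3⟩ := hg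
  have h : fderiv ℝ (fun z => f z - g z) z = fderiv ℝ f z - fderiv ℝ g z := fderiv_sub h1 g1
  refine ⟨h1.sub g1, ?_, ?_⟩
  · rw [← h2, ← g2]; unfold dx; rw [h]; rfl
  · rw [← h3, ← g3]; unfold dy; rw [h]; rfl

private lemma HD.mul {f g : ℂ → ℝ} {z : ℂ} {p q p' q' : ℝ} (hf : HD f z p q) (hg : HD g z p' q') :
    HD (fun z => f z * g z) z (f z * p' + g z * p) (f z * q' + g z * q) := by
  obtain ⟨h1, h2, h3⟩ := hf
  obtain ⟨g1, g2, g3⟩ := hg
  have h : fderiv ℝ (fun z => f z * g z) z = f z • fderiv ℝ g z + g z • fderiv ℝ f z :=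
    fderiv_mul h1 g1
  refine ⟨h1.mul g1, ?_, ?_⟩
  · rw [← h2, ← g2]; unfold dx; rw [h]; rfl
  · rw [← h3, ← g3]; unfold dy; rw [h]; rfl

private lemma HD.const (c : ℝ) (z : ℂ) : HD (fun _ => c) z 0 0 := by
  refine ⟨differentiableAt_const _, ?_, ?_⟩
  · unfold dx; simp
  · unfold dy; simp

private lemma HD.cos {f : ℂ → ℝ} {z : ℂ} {p q : ℝ} (hf : HD f z p q) :
    HD (fun z => Real.cos (f z)) z (-Real.sin (f z) * p) (-Real.sin (f z) * q) := by
  obtain ⟨h1, h2, h3⟩ := hf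
  have h : fderiv ℝ (fun z => Real.cos (f z)) z = -Real.sin (f z) • fderiv ℝ f z :=
    (h1.hasFDerivAt.cos).fderiv
  refine ⟨h1.cos, ?_, ?_⟩
  · rw [← h2]; unfold dx; rw [h]; rfl
  · rw [← h3]; unfold dy; rw [h]; rfl

private lemma HD.re (x z : ℂ) : HD (fun z => (z - x).re) z 1 0 := by
  have h : HasFDerivAt (fun z : ℂ => (z - x).re) Complex.reCLM z :=
    Complex.reCLM.hasFDerivAt.comp z ((hasFDerivAt_id z).sub_const x)
  refine ⟨h.differentiableAt, ?_, ?_⟩
  · unfold dx; rw [h.fderiv]; simp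
  · unfold dy; rw [h.fderiv]; simp

private lemma HD.im (x z : ℂ) : HD (fun z => (z - x).im) z 0 1 := by
  have h : HasFDerivAt (fun z : ℂ => (z - x).im) Complex.imCLM z :=
    Complex.imCLM.hasFDerivAt.comp z ((hasFDerivAt_id z).sub_const x)
  refine ⟨h.differentiableAt, ?_, ?_⟩
  · unfold dx; rw [h.fderiv]; simp
  · unfold dy; rw [h.fderiv]; simp

private lemma HD.cut (x : ℂ) (r : ℝ) (z : ℂ) :
    HD (cut x r) z (2 * dps (‖z - x‖ ^ 2 / r ^ 2) / r ^ 2 * (z - x).re)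
      (2 * dps (‖z - x‖ ^ 2 / r ^ 2) / r ^ 2 * (z - x).im) :=
  ⟨(contDiff_cut x r).differentiable (by simp) z, dx_cut x r z, dy_cut x r z⟩

private lemma HD.of_smooth {u : ℂ → ℝ} (hu : ContDiffOn ℝ ∞ u (ball 0 3)) {z : ℂ} (hz : z ∈ ball (0 : ℂ) 3) :
    HD u z (dx u z) (dy u z) :=
  ⟨(hu.contDiffAt (isOpen_ball.mem_nhds hz)).differentiableAt (by simp), rfl, rfl⟩

private lemma smooth_dx {u : ℂ → ℝ} (hu : ContDiffOn ℝ ∞ u (ball 0 3)) :
    ContDiffOn ℝ ∞ (dx u) (ball 0 3) :=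
  (hu.fderiv_of_isOpen isOpen_ball (by simp)).clm_apply contDiffOn_const

private lemma smooth_dy {u : ℂ → ℝ} (hu : ContDiffOn ℝ ∞ u (ball 0 3)) :
    ContDiffOn ℝ ∞ (dy u) (ball 0 3) :=
  (hu.fderiv_of_isOpen isOpen_ball (by simp)).clm_apply contDiffOn_const

private lemma symm {u : ℂ → ℝ} (hu : ContDiffOn ℝ ∞ u (ball 0 3)) {z : ℂ} (hz : z ∈ ball (0 : ℂ) 3) :
    dx (dy u) z = dy (dx u) z := by
  have h1 : ContDiffAt ℝ ∞ u z := hu.contDiffAt (isOpen_ball.mem_nhds hz)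
  have h2 : IsSymmSndFDerivAt ℝ u z := h1.isSymmSndFDerivAt (by
    simp only [minSmoothness_of_isRCLikeNormedField]; exact WithTop.coe_le_coe.2 (le_top : (2 : ℕ∞) ≤ ⊤))
  have h3 : DifferentiableAt ℝ (fderiv ℝ u) z :=
    ((hu.fderiv_of_isOpen isOpen_ball (m := ∞) (by simp)).contDiffAt
      (isOpen_ball.mem_nhds hz)).differentiableAt (by simp)
  have h4 : ∀ v w : ℂ, fderiv ℝ (fun y => fderiv ℝ u y v) z w = fderiv ℝ (fderiv ℝ u) z w v := by
    intro v w
    rw [fderiv_clm_apply h3 (differentiableAt_const v)]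
    simp
  show fderiv ℝ (fun y => fderiv ℝ u y Complex.I) z 1 = fderiv ℝ (fun y => fderiv ℝ u y 1) z Complex.I
  rw [h4, h4]
  exact h2 1 Complex.I


/-- the energy density, expanded -/
private noncomputable def E (ε : ℝ) (a u : ℂ → ℝ) (z : ℂ) : ℝ :=
  ε / 2 * (dx u z * dx u z + dy u z * dy u z) + 1 / ε * (a z * (1 - Real.cos (u z)))

private lemma ed_eq (ε : ℝ) (a u : ℂ → ℝ) (z : ℂ) : ed ε a u z = E ε a u z := by
  unfold ed E
  rw [norm_gr_sq]; ring

private noncomputable def Y1 (ε : ℝ) (a u : ℂ → ℝ) (x : ℂ) (r : ℝ) (z : ℂ) : ℝ :=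
  cut x r z * ((E ε a u z - ε * (dx u z * dx u z)) * (z - x).re - ε * (dx u z * dy u z) * (z - x).im)

private noncomputable def Y2 (ε : ℝ) (a u : ℂ → ℝ) (x : ℂ) (r : ℝ) (z : ℂ) : ℝ :=
  cut x r z * ((E ε a u z - ε * (dy u z * dy u z)) * (z - x).im - ε * (dx u z * dy u z) * (z - x).re)

private lemma smooth_E {ε : ℝ} {a u : ℂ → ℝ} (ha : ContDiffOn ℝ ∞ a (ball 0 3))
    (hu : ContDiffOn ℝ ∞ u (ball 0 3)) : ContDiffOn ℝ 1 (E ε a u) (ball 0 3) := by
  have h1 : ContDiffOn ℝ 1 (dx u) (ball 0 3) := (smooth_dx hu).of_le (by simp)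
  have h2 : ContDiffOn ℝ 1 (dy u) (ball 0 3) := (smooth_dy hu).of_le (by simp)
  have h3 : ContDiffOn ℝ 1 u (ball 0 3) := hu.of_le (by simp)
  have h4 : ContDiffOn ℝ 1 a (ball 0 3) := ha.of_le (by simp)
  have h5 : ContDiffOn ℝ 1 (fun z => Real.cos (u z)) (ball 0 3) :=
    Real.contDiff_cos.comp_contDiffOn h3
  exact (contDiffOn_const.mul ((h1.mul h1).add (h2.mul h2))).add
    (contDiffOn_const.mul (h4.mul (contDiffOn_const.sub h5)))

private lemma not_mem_cb {x z : ℂ} {r : ℝ} (hx : ‖x‖ + r < 2) (hz : z ∉ ball (0 : ℂ) 3) :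
    z ∉ closedBall x r := by
  intro h
  rw [mem_closedBall, dist_eq_norm] at h
  apply hz
  rw [mem_ball_zero_iff]
  calc ‖z‖ = ‖(z - x) + x‖ := by rw [sub_add_cancel]
    _ ≤ ‖z - x‖ + ‖x‖ := norm_add_le _ _
    _ < 3 := by linarith

/-- functions `cut * k` with `k` of class `C^1` on the ball -/
private lemma cut_mul_smooth {k : ℂ → ℝ} (hk : ContDiffOn ℝ 1 k (ball 0 3)) {x : ℂ} {r : ℝ}
    (hr : 0 < r) (hx : ‖x‖ + r < 2) : ContDiff ℝ 1 (fun z => cut x r z * k z) := by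
  rw [contDiff_iff_contDiffAt]
  intro z
  by_cases hz : z ∈ ball (0 : ℂ) 3
  · exact ((contDiff_cut x r).contDiffOn.mul hk).contDiffAt (isOpen_ball.mem_nhds hz)
  · have h1 := not_mem_cb hx hz
    have h2 : (fun z => cut x r z * k z) =ᶠ[𝓝 z] fun _ => 0 := by
      filter_upwards [isClosed_closedBall.isOpen_compl.mem_nhds h1] with y hy
      rw [Set.mem_compl_iff, mem_closedBall, dist_eq_norm, not_le] at hy
      rw [cut_eq_zero hr hy.le, zero_mul]
    exact contDiffAt_const.congr_of_eventuallyEq h2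

private lemma cut_mul_supp {k : ℂ → ℝ} {x : ℂ} {r : ℝ} (hr : 0 < r) :
    HasCompactSupport (fun z => cut x r z * k z) := (hasCompactSupport_cut hr).mul_right

private lemma cut_mul_zero {k : ℂ → ℝ} {x z : ℂ} {r : ℝ} (hr : 0 < r) (hx : ‖x‖ + r < 2)
    (hz : z ∉ ball (0 : ℂ) 3) : dx (fun z => cut x r z * k z) z = 0 ∧
      dy (fun z => cut x r z * k z) z = 0 := by
  have h1 := not_mem_cb hx hz
  have h2 : (fun z => cut x r z * k z) =ᶠ[𝓝 z] fun _ => 0 := by
    filter_upwards [isClosed_closedBall.isOpen_compl.mem_nhds h1] with y hy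
    rw [Set.mem_compl_iff, mem_closedBall, dist_eq_norm, not_le] at hy
    rw [cut_eq_zero hr hy.le, zero_mul]
  unfold dx dy
  rw [h2.fderiv_eq]
  simp

theorem poho {ε : ℝ} {a u : ℂ → ℝ} {x : ℂ} {r : ℝ} (hε : 0 < ε) (ha : ContDiffOn ℝ ∞ a (ball 0 3))
    (hu : LSol (ball 0 3) ε a u) (hr : 0 < r) (hx : ‖x‖ + r < 2) :
    ∫ z, (cut x r z * (ed ε a u z - disc ε a u z) +
      2 / r ^ 2 * (dps (‖z - x‖ ^ 2 / r ^ 2) * (‖z - x‖ ^ 2 * ed ε a u z - ε * ip (z - x) (gr u z) ^ 2)) +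
      cut x r z * (1 / ε * (1 - Real.cos (u z)) * ip (z - x) (gr a z))) = 0 := by
  have hus := hu.smooth
  have h1 : ContDiffOn ℝ 1 (dx u) (ball 0 3) := (smooth_dx hus).of_le (by simp)
  have h2 : ContDiffOn ℝ 1 (dy u) (ball 0 3) := (smooth_dy hus).of_le (by simp)
  have hE := smooth_E (ε := ε) ha hus
  have hre : ContDiffOn ℝ 1 (fun z : ℂ => (z - x).re) (ball 0 3) :=
    (Complex.reCLM.contDiff.comp (contDiff_id.sub contDiff_const)).contDiffOn
  have him : ContDiffOn ℝ 1 (fun z : ℂ => (z - x).im) (ball 0 3) :=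
    (Complex.imCLM.contDiff.comp (contDiff_id.sub contDiff_const)).contDiffOn
  have hk1 : ContDiffOn ℝ 1 (fun z => (E ε a u z - ε * (dx u z * dx u z)) * (z - x).re -
      ε * (dx u z * dy u z) * (z - x).im) (ball 0 3) :=
    ((hE.sub (contDiffOn_const.mul (h1.mul h1))).mul hre).sub
      ((contDiffOn_const.mul (h1.mul h2)).mul him)
  have hk2 : ContDiffOn ℝ 1 (fun z => (E ε a u z - ε * (dy u z * dy u z)) * (z - x).im -
      ε * (dx u z * dy u z) * (z - x).re) (ball 0 3) :=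
    ((hE.sub (contDiffOn_const.mul (h2.mul h2))).mul him).sub
      ((contDiffOn_const.mul (h1.mul h2)).mul hre)
  have hY1 : ContDiff ℝ 1 (Y1 ε a u x r) := cut_mul_smooth hk1 hr hx
  have hY2 : ContDiff ℝ 1 (Y2 ε a u x r) := cut_mul_smooth hk2 hr hx
  have hc1 : HasCompactSupport (Y1 ε a u x r) := cut_mul_supp hr
  have hc2 : HasCompactSupport (Y2 ε a u x r) := cut_mul_supp hr
  have i1 : Integrable (dx (Y1 ε a u x r)) := by
    refine Continuous.integrable_of_hasCompactSupport ?_ (hc1.fderiv_apply ℝ 1)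
    exact (hY1.continuous_fderiv (by simp)).clm_apply continuous_const
  have i2 : Integrable (dy (Y2 ε a u x r)) := by
    refine Continuous.integrable_of_hasCompactSupport ?_ (hc2.fderiv_apply ℝ Complex.I)
    exact (hY2.continuous_fderiv (by simp)).clm_apply continuous_const
  have key : ∀ z, dx (Y1 ε a u x r) z + dy (Y2 ε a u x r) z =
      (cut x r z * (ed ε a u z - disc ε a u z) +
      2 / r ^ 2 * (dps (‖z - x‖ ^ 2 / r ^ 2) * (‖z - x‖ ^ 2 * ed ε a u z - ε * ip (z - x) (gr u z) ^ 2)) +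
      cut x r z * (1 / ε * (1 - Real.cos (u z)) * ip (z - x) (gr a z))) := by
    intro z
    by_cases hz : z ∈ ball (0 : ℂ) 3
    · have dU := HD.of_smooth hus hz
      have dUx := HD.of_smooth (smooth_dx hus) hz
      have dUy := HD.of_smooth (smooth_dy hus) hz
      have dA := HD.of_smooth ha hz
      rw [symm hus hz] at dUy
      have dE : HD (E ε a u) z _ _ :=
        ((HD.const (ε / 2) z).mul ((dUx.mul dUx).add (dUy.mul dUy))).add
          ((HD.const (1 / ε) z).mul (dA.mul ((HD.const 1 z).sub dU.cos)))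
      have d1 : HD (Y1 ε a u x r) z _ _ := (HD.cut x r z).mul
        (((dE.sub ((HD.const ε z).mul (dUx.mul dUx))).mul (HD.re x z)).sub
          (((HD.const ε z).mul (dUx.mul dUy)).mul (HD.im x z)))
      have d2 : HD (Y2 ε a u x r) z _ _ := (HD.cut x r z).mul
        (((dE.sub ((HD.const ε z).mul (dUy.mul dUy))).mul (HD.im x z)).sub
          (((HD.const ε z).mul (dUx.mul dUy)).mul (HD.re x z)))
      rw [d1.2.1, d2.2.2]
      have heq := hu.eq z hz
      unfold lap at heq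
      rw [ed_eq]
      unfold disc E ip
      rw [norm_gr_sq, norm_sq_eq (z - x)]
      show _ = cut x r z * (_ - (ε / 2 * (dx u z ^ 2 + dy u z ^ 2) -
        1 / ε * (a z * (1 - Real.cos (u z))))) +
        2 / r ^ 2 * (_ * (((z - x).re ^ 2 + (z - x).im ^ 2) * _ -
          ε * ((z - x).re * dx u z + (z - x).im * dy u z) ^ 2)) +
        cut x r z * (1 / ε * (1 - Real.cos (u z)) * ((z - x).re * dx a z + (z - x).im * dy a z))
      generalize dps (((z - x).re ^ 2 + (z - x).im ^ 2) / r ^ 2) = D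
      generalize cut x r z = c
      generalize (z - x).re = X
      generalize (z - x).im = Y
      generalize Real.cos (u z) = cu at *
      generalize Real.sin (u z) = su at *
      generalize dx (dx u) z = uxx at *
      generalize dy (dx u) z = uxy at *
      generalize dy (dy u) z = uyy at *
      generalize dx u z = ux at *
      generalize dy u z = uy at *
      field_simp
      linear_combination (-2 * r ^ 2 * c * (ux * X + uy * Y)) * heq
    · obtain ⟨e1, _⟩ := cut_mul_zero (k := fun z => (E ε a u z - ε * (dx u z * dx u z)) * (z - x).re -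
        ε * (dx u z * dy u z) * (z - x).im) hr hx hz
      obtain ⟨_, e2⟩ := cut_mul_zero (k := fun z => (E ε a u z - ε * (dy u z * dy u z)) * (z - x).im -
        ε * (dx u z * dy u z) * (z - x).re) hr hx hz
      have h3 : dx (Y1 ε a u x r) z = 0 := e1
      have h4 : dy (Y2 ε a u x r) z = 0 := e2
      have h5 : r ≤ ‖z - x‖ := by
        have := not_mem_cb hx hz
        rw [mem_closedBall, dist_eq_norm, not_le] at this
        exact this.le
      rw [h3, h4, cut_eq_zero hr h5, dps_eq_zero' hr h5]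
      ring
  simp_rw [← key]
  rw [integral_add i1 i2, Div.integral_dx hY1 hc1, Div.integral_dy hY2 hc2, add_zero]

end Pool.Agent.Helper59.CL.Poho
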