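import Pool.Agent.Helper59.CL.Cut

/-!
# Project CL, block D: uniform constants of a local sequence

Proof.  `a` is continuous and positive on the compact set `closedBall 0 2`, so `2 α0 ≤ a ≤ Λ0`, and `aj_lim 0` gives
`α0 ≤ aj j ≤ 2 Λ0` on `closedBall 0 2` for large `j` (`iteratedFDeriv ℝ 0 f z` has norm of difference
`|f z - g z|`); for the finitely many other `j` use compactness for each of them (`aj_pos`).  Similarly
`‖gr (aj j) z‖ ≤ 2 ‖fderiv ℝ (aj j) z‖ = 2 ‖iteratedFDeriv ℝ 1 (aj j) z‖` is bounded: `aj_lim 1` for large `j` and continuity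
for the others.  `ε j ‖gr (u j) z‖ ≤ 2 ε j ‖iteratedFDeriv ℝ 1 (u j) z‖`: field `bounds 1`.  `disc`: field `modica`.
Energy: field `energy`.  Take the maximum of all constants and `1`.
-/

namespace Pool.Agent.Helper59.CL.SeqB

open MeasureTheory Filter Topology Metric
open Pool.Agent.Helper53.CL Pool.Agent.Helper59.CL
open scoped ContDiff Real

theorem norm_gr_le (f : ℂ → ℝ) (z : ℂ) : ‖gr f z‖ ≤ ‖fderiv ℝ f z‖ * 2 := by
  have h1 := Complex.norm_le_abs_re_add_abs_im (gr f z)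
  have h2 : |(gr f z).re| ≤ ‖fderiv ℝ f z‖ := by
    have := (fderiv ℝ f z).le_opNorm 1
    rw [norm_one, mul_one, Real.norm_eq_abs] at this
    exact this
  have h3 : |(gr f z).im| ≤ ‖fderiv ℝ f z‖ := by
    have := (fderiv ℝ f z).le_opNorm Complex.I
    rw [Complex.norm_I, mul_one, Real.norm_eq_abs] at this
    exact this
  linarith

private theorem sb_cont {f : ℂ → ℝ} (hf : ContDiffOn ℝ ∞ f (ball 0 3)) (k : ℕ) :
    ContinuousOn (iteratedFDeriv ℝ k f) (closedBall 0 2) := by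
  have h1 : ContinuousOn (iteratedFDerivWithin ℝ k f (ball 0 3)) (ball 0 3) :=
    hf.continuousOn_iteratedFDerivWithin (by exact_mod_cast le_top) isOpen_ball.uniqueDiffOn
  have h2 : ContinuousOn (iteratedFDeriv ℝ k f) (ball 0 3) :=
    h1.congr fun z hz => (iteratedFDerivWithin_of_isOpen k isOpen_ball hz).symm
  exact h2.mono (closedBall_subset_ball (by norm_num))

private theorem sb_upper {E : Type*} [NormedAddCommGroup E] {F : ℂ → E} {Fj : ℕ → ℂ → E} {K : Set ℂ}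
    (hK : IsCompact K) (hF : ContinuousOn F K) (hFj : ∀ j, ContinuousOn (Fj j) K)
    (hlim : TendstoUniformlyOn Fj F atTop K) : ∃ C, ∀ j, ∀ z ∈ K, ‖Fj j z‖ ≤ C := by
  obtain ⟨C0, hC0⟩ := hK.exists_bound_of_continuousOn hF
  obtain ⟨N, hN⟩ := eventually_atTop.1 (Metric.tendstoUniformlyOn_iff.1 hlim 1 one_pos)
  have h1 : ∀ M : ℕ, ∃ C, ∀ j < M, ∀ z ∈ K, ‖Fj j z‖ ≤ C := by
    intro M
    induction M with
    | zero => exact ⟨0, fun j hj => absurd hj (Nat.not_lt_zero j)⟩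
    | succ M ih =>
      obtain ⟨C, hC⟩ := ih
      obtain ⟨C', hC'⟩ := hK.exists_bound_of_continuousOn (hFj M)
      refine ⟨max C C', fun j hj z hz => ?_⟩
      rcases Nat.lt_succ_iff_lt_or_eq.1 hj with h | rfl
      · exact (hC j h z hz).trans (le_max_left _ _)
      · exact (hC' z hz).trans (le_max_right _ _)
  obtain ⟨C1, hC1⟩ := h1 N
  refine ⟨max C1 (C0 + 1), fun j z hz => ?_⟩
  rcases lt_or_ge j N with h | h
  · exact (hC1 j h z hz).trans (le_max_left _ _)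
  · refine le_trans ?_ (le_max_right _ _)
    have h2 := hN j h z hz
    rw [dist_comm, dist_eq_norm] at h2
    have h3 := norm_sub_norm_le (Fj j z) (F z)
    have h4 := hC0 z hz
    linarith

private theorem sb_lower {f : ℂ → ℝ} {fj : ℕ → ℂ → ℝ} {K : Set ℂ}
    (hK : IsCompact K) (hne : K.Nonempty) (hf : ContinuousOn f K) (hfj : ∀ j, ContinuousOn (fj j) K)
    (hpos : ∀ z ∈ K, 0 < f z) (hposj : ∀ j, ∀ z ∈ K, 0 < fj j z)
    (hlim : TendstoUniformlyOn fj f atTop K) : ∃ α, 0 < α ∧ ∀ j, ∀ z ∈ K, α ≤ fj j z := by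
  obtain ⟨z0, hz0, hmin⟩ := hK.exists_isMinOn hne hf
  obtain ⟨N, hN⟩ := eventually_atTop.1 (Metric.tendstoUniformlyOn_iff.1 hlim (f z0 / 2)
    (by linarith [hpos z0 hz0]))
  have h1 : ∀ M : ℕ, ∃ α, 0 < α ∧ ∀ j < M, ∀ z ∈ K, α ≤ fj j z := by
    intro M
    induction M with
    | zero => exact ⟨1, one_pos, fun j hj => absurd hj (Nat.not_lt_zero j)⟩
    | succ M ih =>
      obtain ⟨α, hα, hC⟩ := ih
      obtain ⟨z1, hz1, hmin1⟩ := hK.exists_isMinOn hne (hfj M)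
      refine ⟨min α (fj M z1), lt_min hα (hposj M z1 hz1), fun j hj z hz => ?_⟩
      rcases Nat.lt_succ_iff_lt_or_eq.1 hj with h | rfl
      · exact (min_le_left _ _).trans (hC j h z hz)
      · exact (min_le_right _ _).trans (hmin1 hz)
  obtain ⟨α, hα, hC1⟩ := h1 N
  refine ⟨min α (f z0 / 2), lt_min hα (by linarith [hpos z0 hz0]), fun j z hz => ?_⟩
  rcases lt_or_ge j N with h | h
  · exact (min_le_left _ _).trans (hC1 j h z hz)
  · refine le_trans (min_le_right _ _) ?_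
    have h2 := hN j h z hz
    rw [Real.dist_eq, abs_lt] at h2
    have h3 : f z0 ≤ f z := hmin hz
    linarith [h2.2]

private theorem sb_zero {f : ℂ → ℝ} {fj : ℕ → ℂ → ℝ} {K : Set ℂ}
    (hlim : TendstoUniformlyOn (fun j => iteratedFDeriv ℝ 0 (fj j)) (iteratedFDeriv ℝ 0 f) atTop K) :
    TendstoUniformlyOn fj f atTop K := by
  rw [Metric.tendstoUniformlyOn_iff] at hlim ⊢
  intro δ hδ
  filter_upwards [hlim δ hδ] with j hj z hz
  refine lt_of_le_of_lt ?_ (hj z hz)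
  rw [dist_eq_norm, dist_eq_norm]
  have h1 := (iteratedFDeriv ℝ 0 f z - iteratedFDeriv ℝ 0 (fj j) z).le_opNorm (fun _ => 0)
  simpa using h1

/-- Uniform constants. -/
structure Consts (α Λ : ℝ) (aj : ℕ → ℂ → ℝ) (ε : ℕ → ℝ) (u : ℕ → ℂ → ℝ) : Prop where
  α_pos : 0 < α
  Λ_pos : 1 ≤ Λ
  le_a : ∀ j, ∀ z ∈ ball (0 : ℂ) 2, α ≤ aj j z
  a_le : ∀ j, ∀ z ∈ ball (0 : ℂ) 2, aj j z ≤ Λ
  gr_a : ∀ j, ∀ z ∈ ball (0 : ℂ) 2, ‖gr (aj j) z‖ ≤ Λ
  gr_u : ∀ j, ∀ z ∈ ball (0 : ℂ) 2, ε j * ‖gr (u j) z‖ ≤ Λ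
  disc_le : ∀ j, ∀ z ∈ ball (0 : ℂ) 2, disc (ε j) (aj j) (u j) z ≤ Λ
  energy : ∀ j, ∫ z in ball (0 : ℂ) 2, ed (ε j) (aj j) (u j) z ≤ Λ
  ed_int : ∀ j, IntegrableOn (ed (ε j) (aj j) (u j)) (ball 0 2)

theorem exists_consts {a : ℂ → ℝ} {aj : ℕ → ℂ → ℝ} {ε : ℕ → ℝ} {u : ℕ → ℂ → ℝ} (h : LocSeq a aj ε u) :
    ∃ α Λ, Consts α Λ aj ε u := by
  have hK : IsCompact (closedBall (0 : ℂ) 2) := isCompact_closedBall 0 2
  have hKb : closedBall (0 : ℂ) 2 ⊆ ball 0 3 := closedBall_subset_ball (by norm_num)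
  have hbK : ball (0 : ℂ) 2 ⊆ closedBall 0 2 := ball_subset_closedBall
  obtain ⟨α, hα, hα'⟩ := sb_lower hK ⟨0, by simp⟩ (h.a_smooth.continuousOn.mono hKb)
    (fun j => (h.aj_smooth j).continuousOn.mono hKb) (fun z hz => h.a_pos z (hKb hz))
    (fun j z hz => h.aj_pos j z (hKb hz)) (sb_zero (h.aj_lim 0))
  obtain ⟨C0, hC0⟩ := sb_upper hK (sb_cont h.a_smooth 0) (fun j => sb_cont (h.aj_smooth j) 0)
    (h.aj_lim 0)
  obtain ⟨C1, hC1⟩ := sb_upper hK (sb_cont h.a_smooth 1) (fun j => sb_cont (h.aj_smooth j) 1)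
    (h.aj_lim 1)
  obtain ⟨E, hE⟩ := h.energy
  obtain ⟨M, hM⟩ := h.modica
  obtain ⟨B, hB⟩ := h.bounds 1
  obtain ⟨Λ, hΛ0, hΛ1, hΛ2, hΛ3, hΛ4, hΛ5⟩ : ∃ Λ : ℝ, 1 ≤ Λ ∧ C0 ≤ Λ ∧ C1 * 2 ≤ Λ ∧ E ≤ Λ ∧ M ≤ Λ ∧
      B * 2 ≤ Λ := by
    refine ⟨max 1 (max C0 (max (C1 * 2) (max E (max M (B * 2))))), ?_, ?_, ?_, ?_, ?_, ?_⟩ <;>
      simp
  refine ⟨α, Λ, hα, hΛ0, fun j z hz => hα' j z (hbK hz), fun j z hz => ?_, fun j z hz => ?_,
    fun j z hz => ?_, fun j z hz => (hM j z hz).trans hΛ4, fun j => (hE j).trans hΛ3,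
    fun j => ?_⟩
  · have h1 := hC0 j z (hbK hz)
    rw [norm_iteratedFDeriv_zero, Real.norm_eq_abs] at h1
    exact (le_abs_self _).trans (h1.trans hΛ1)
  · have h1 := hC1 j z (hbK hz)
    rw [norm_iteratedFDeriv_one] at h1
    have h2 := norm_gr_le (aj j) z
    linarith
  · have h1 := hB j z hz
    rw [norm_iteratedFDeriv_one, pow_one] at h1
    have h2 := mul_le_mul_of_nonneg_left (norm_gr_le (u j) z) (h.eps_pos j).le
    linarith
  · have hu : ContDiffOn ℝ ∞ (u j) (ball 0 3) := (h.sol j).smooth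
    have hfd : ContinuousOn (fderiv ℝ (u j)) (closedBall 0 2) :=
      (hu.continuousOn_fderiv_of_isOpen isOpen_ball (by simp)).mono hKb
    have hx : ContinuousOn (dx (u j)) (closedBall 0 2) := hfd.clm_apply continuousOn_const
    have hy : ContinuousOn (dy (u j)) (closedBall 0 2) := hfd.clm_apply continuousOn_const
    have huc : ContinuousOn (u j) (closedBall 0 2) := hu.continuousOn.mono hKb
    have hac : ContinuousOn (aj j) (closedBall 0 2) := (h.aj_smooth j).continuousOn.mono hKb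
    have hed : ContinuousOn (ed (ε j) (aj j) (u j)) (closedBall 0 2) := by
      unfold ed
      simp only [norm_gr_sq]
      exact (continuousOn_const.mul ((hx.pow 2).add (hy.pow 2))).add
        (continuousOn_const.mul (hac.mul (continuousOn_const.sub
          (Real.continuous_cos.comp_continuousOn huc))))
    exact (hed.integrableOn_compact hK).mono_set hbK

end Pool.Agent.Helper59.CL.SeqB
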