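import Pool.Agent.Helper59.CL.Mono
import Pool.Agent.Helper59.CL.SeqB

/-!
# Project CL, block D3: uniform upper density bound, monotonicity along the sequence (all `R < 2`)

Proof.  Let `Consts α Λ`, `κ = Λ/α`.  `Mono.mono` with `K := Λ` on `Ioo 0 (2 - ‖x‖)`:
`mono_seq`: for `0 < s ≤ r`, `‖x‖ + r < 2`: `exp (κ s) (J s/s) + Λ π exp (2κ) s ≤ exp (κ r) (J r/r) + Λ π exp (2κ) r`, so
(`J ≥ 0`, `exp (κ s) ≥ 1`, `exp (κ r) ≤ exp (2κ)`) `J s/s ≤ exp (2κ) (J r/r) + Λ π exp (2κ) r`; take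
`K = exp (2κ) + Λ π exp (2κ)`.
`upper`: put `δ = (2 - R)/2`, `‖x‖ + δ < 2`.  By `mono_seq` with the radii `r ≤ δ` :
`J r/r ≤ K (J δ/δ) + K δ`, and `J δ ≤ ∫_{ball 0 2} ed ≤ Λ` (`0 ≤ cut ≤ 1`, `cut = 0` outside `ball x δ ⊆ ball 0 2`, `ed ≥ 0` on
`ball 0 2`, `ed` integrable there: `Consts.ed_int`).  So `K' = K Λ/δ + K δ`.
`J r ≥ 0` : `cut ≥ 0`, zero outside `ball x r ⊆ ball 0 2`, `ed ≥ 0` on `ball 0 2` (`ed_nonneg`).
-/

namespace Pool.Agent.Helper59.CL.Upper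

open MeasureTheory Filter Topology Metric
open Pool.Agent.Helper53.CL Pool.Agent.Helper59.CL
open scoped ContDiff Real

private lemma mem_two {x z : ℂ} {r : ℝ} (hx : ‖x‖ + r ≤ 2) (hz : ‖z - x‖ < r) : z ∈ ball (0 : ℂ) 2 := by
  rw [mem_ball_zero_iff]
  calc ‖z‖ = ‖(z - x) + x‖ := by rw [sub_add_cancel]
    _ ≤ ‖z - x‖ + ‖x‖ := norm_add_le _ _
    _ < 2 := by linarith

private lemma cut_ed_nonneg {ε : ℝ} {a u : ℂ → ℝ} {x : ℂ} {r : ℝ} (hε : 0 < ε)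
    (hpos : ∀ z ∈ ball (0 : ℂ) 2, 0 < a z) (hr : 0 < r) (hx : ‖x‖ + r ≤ 2) (z : ℂ) :
    0 ≤ cut x r z * ed ε a u z := by
  by_cases hz : ‖z - x‖ < r
  · exact mul_nonneg (cut_nonneg _ _ _) (ed_nonneg hε (hpos z (mem_two hx hz)).le)
  · rw [cut_eq_zero hr (not_lt.1 hz), zero_mul]

theorem J_nonneg {ε : ℝ} {a u : ℂ → ℝ} {x : ℂ} {r : ℝ} (hε : 0 < ε) (hpos : ∀ z ∈ ball (0 : ℂ) 2, 0 < a z)
    (hr : 0 < r) (hx : ‖x‖ + r ≤ 2) : 0 ≤ J ε a u x r :=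
  integral_nonneg fun z => cut_ed_nonneg hε hpos hr hx z

/-- Monotonicity along the sequence, with uniform constants. -/
theorem mono_seq {a : ℂ → ℝ} {aj : ℕ → ℂ → ℝ} {ε : ℕ → ℝ} {u : ℕ → ℂ → ℝ} (h : LocSeq a aj ε u) :
    ∃ K : ℝ, 0 < K ∧ ∀ j x s r, 0 < s → s ≤ r → ‖x‖ + r < 2 →
      J (ε j) (aj j) (u j) x s / s ≤ K * (J (ε j) (aj j) (u j) x r / r) + K * r := by
  obtain ⟨α, Λ, hC⟩ := SeqB.exists_consts h
  have hα := hC.α_pos
  have hΛ : 0 < Λ := lt_of_lt_of_le zero_lt_one hC.Λ_pos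
  set κ := Λ / α with hκ
  have hκ0 : 0 < κ := by positivity
  refine ⟨Real.exp (2 * κ) + Λ * π * Real.exp (2 * κ), by positivity, ?_⟩
  intro j x s r hs hsr hx
  have hr : 0 < r := hs.trans_le hsr
  have hpos : ∀ z ∈ ball (0 : ℂ) 2, 0 < aj j z := fun z hz => hα.trans_le (hC.le_a j z hz)
  have hm := Mono.mono (x := x) (h.eps_pos j) (h.aj_smooth j) (h.sol j) hα hΛ.le (hC.le_a j) (hC.gr_a j)
    (hC.disc_le j)
  have h1 := hm (⟨hs, by linarith⟩ : s ∈ Set.Ioo 0 (2 - ‖x‖)) (⟨hr, by linarith⟩ : r ∈ Set.Ioo 0 (2 - ‖x‖)) hsr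
  simp only [← hκ] at h1
  have hJs : 0 ≤ J (ε j) (aj j) (u j) x s / s :=
    div_nonneg (J_nonneg (h.eps_pos j) hpos hs (by linarith)) hs.le
  have hJr : 0 ≤ J (ε j) (aj j) (u j) x r / r :=
    div_nonneg (J_nonneg (h.eps_pos j) hpos hr hx.le) hr.le
  set A := J (ε j) (aj j) (u j) x s / s with hA
  set B := J (ε j) (aj j) (u j) x r / r with hB
  have e1 : 1 ≤ Real.exp (κ * s) := Real.one_le_exp (by positivity)
  have hr2 : r ≤ 2 := by linarith [norm_nonneg x]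
  have e2 : Real.exp (κ * r) ≤ Real.exp (2 * κ) := Real.exp_le_exp.2 (by nlinarith)
  have e3 : 0 < Real.exp (2 * κ) := Real.exp_pos _
  have h2 : A ≤ Real.exp (κ * s) * A := by nlinarith
  have h3 : Real.exp (κ * r) * B ≤ Real.exp (2 * κ) * B := mul_le_mul_of_nonneg_right e2 hJr
  have h4 : 0 ≤ Λ * π * Real.exp (2 * κ) * s := by positivity
  have h5 : 0 ≤ Λ * π * Real.exp (2 * κ) * B := by positivity
  have h6 : 0 ≤ Real.exp (2 * κ) * r := by positivity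
  linarith

theorem upper {a : ℂ → ℝ} {aj : ℕ → ℂ → ℝ} {ε : ℕ → ℝ} {u : ℕ → ℂ → ℝ} (h : LocSeq a aj ε u) {R : ℝ} (hR : R < 2) :
    ∃ K : ℝ, 0 < K ∧ ∀ j x, ‖x‖ ≤ R → ∀ r ∈ Set.Ioc (0 : ℝ) ((2 - R) / 2), J (ε j) (aj j) (u j) x r ≤ K * r := by
  obtain ⟨α, Λ, hC⟩ := SeqB.exists_consts h
  obtain ⟨K, hK, hmono⟩ := mono_seq h
  have hα := hC.α_pos
  have hΛ : 0 < Λ := lt_of_lt_of_le zero_lt_one hC.Λ_pos
  set δ := (2 - R) / 2 with hδ
  have hδ0 : 0 < δ := by rw [hδ]; linarith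
  refine ⟨K * (Λ / δ) + K * δ, by positivity, ?_⟩
  intro j x hx r hr
  obtain ⟨hr0, hrδ⟩ := hr
  have hxδ : ‖x‖ + δ < 2 := by rw [hδ]; linarith
  have hpos : ∀ z ∈ ball (0 : ℂ) 2, 0 < aj j z := fun z hz => hα.trans_le (hC.le_a j z hz)
  have h1 := hmono j x r δ hr0 hrδ hxδ
  have h2 : J (ε j) (aj j) (u j) x δ ≤ Λ := by
    have h3 : J (ε j) (aj j) (u j) x δ ≤ ∫ z in ball (0 : ℂ) 2, ed (ε j) (aj j) (u j) z := by
      unfold J
      rw [← integral_indicator measurableSet_ball]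
      refine integral_mono_of_nonneg (Eventually.of_forall fun z =>
        cut_ed_nonneg (h.eps_pos j) hpos hδ0 hxδ.le z)
        ((integrable_indicator_iff measurableSet_ball).2 (hC.ed_int j)) (Eventually.of_forall fun z => ?_)
      show cut x δ z * ed (ε j) (aj j) (u j) z ≤ (ball (0 : ℂ) 2).indicator (ed (ε j) (aj j) (u j)) z
      by_cases hz : z ∈ ball (0 : ℂ) 2
      · rw [Set.indicator_of_mem hz]
        have := ed_nonneg (u := u j) (h.eps_pos j) (hpos z hz).le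
        have h4 := cut_le_one x δ z
        nlinarith
      · rw [Set.indicator_of_notMem hz]
        have h4 : δ ≤ ‖z - x‖ := by
          by_contra hcon
          exact hz (mem_two hxδ.le (not_le.1 hcon))
        rw [cut_eq_zero hδ0 h4, zero_mul]
    exact h3.trans (hC.energy j)
  have h3 : J (ε j) (aj j) (u j) x δ / δ ≤ Λ / δ := div_le_div_of_nonneg_right h2 hδ0.le
  have h4 : J (ε j) (aj j) (u j) x r / r ≤ K * (Λ / δ) + K * δ := by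
    have := mul_le_mul_of_nonneg_left h3 hK.le
    linarith
  rwa [div_le_iff₀ hr0] at h4

end Pool.Agent.Helper59.CL.Upper
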